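import Mathlib

set_option autoImplicit false

/-!
# Finite places of a number field: the interface used by the defect theorem

`av v` is the `v`-adic absolute value, `|x|_v = N(v)^(-v(x))`; `lq v = log N(v)`.
-/

namespace Pool.Agent.GPoly

open NumberField IsDedekindDomain

variable {K : Type} [Field K] [NumberField K]

/-- The normalised absolute value of `K` at the prime `v`. -/
noncomputable def av (v : HeightOneSpectrum (𝓞 K)) : AbsoluteValue K ℝ :=
  HeightOneSpectrum.adicAbv K v

/-- `log N(v)`. -/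
noncomputable def lq (v : HeightOneSpectrum (𝓞 K)) : ℝ := Real.log (Ideal.absNorm v.asIdeal)

theorem lq_pos (v : HeightOneSpectrum (𝓞 K)) : 0 < lq v := by
  have h := NumberField.HeightOneSpectrum.one_lt_absNorm v
  exact Real.log_pos (by exact_mod_cast h)

theorem av_nonarch (v : HeightOneSpectrum (𝓞 K)) : IsNonarchimedean (av v) :=
  NumberField.HeightOneSpectrum.isNonarchimedean_adicAbv K v

theorem av_int_le_one (v : HeightOneSpectrum (𝓞 K)) (x : 𝓞 K) :
    av v (algebraMap (𝓞 K) K x) ≤ 1 :=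
  v.adicAbv_coe_le_one (NumberField.HeightOneSpectrum.one_lt_absNorm_nnreal v) x

theorem av_int_lt_one (v : HeightOneSpectrum (𝓞 K)) (x : 𝓞 K) :
    av v (algebraMap (𝓞 K) K x) < 1 ↔ x ∈ v.asIdeal :=
  v.adicAbv_coe_lt_one_iff (NumberField.HeightOneSpectrum.one_lt_absNorm_nnreal v) x

theorem av_int_eq_one (v : HeightOneSpectrum (𝓞 K)) (x : 𝓞 K) :
    av v (algebraMap (𝓞 K) K x) = 1 ↔ x ∉ v.asIdeal :=
  v.adicAbv_coe_eq_one_iff (NumberField.HeightOneSpectrum.one_lt_absNorm_nnreal v) x

/-- the absolute value in terms of the valuation -/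
theorem av_eq (v : HeightOneSpectrum (𝓞 K)) (x : K) :
    av v x = (WithZeroMulInt.toNNReal (NumberField.HeightOneSpectrum.absNorm_ne_zero v)
      (v.valuation K x) : ℝ) := rfl

theorem av_exp (v : HeightOneSpectrum (𝓞 K)) (n : ℤ) :
    (WithZeroMulInt.toNNReal (NumberField.HeightOneSpectrum.absNorm_ne_zero v)
      (WithZero.exp n) : ℝ) = Real.exp (n * lq v) := by
  have h := NumberField.HeightOneSpectrum.one_lt_absNorm v
  have hpos : (0 : ℝ) < (Ideal.absNorm v.asIdeal : ℝ) := by
    have : 0 < Ideal.absNorm v.asIdeal := by omega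
    exact_mod_cast this
  rw [WithZeroMulInt.toNNReal_neg_apply _ WithZero.exp_ne_zero]
  have e : (WithZero.unzero (WithZero.exp_ne_zero : (WithZero.exp n : WithZero (Multiplicative ℤ)) ≠ 0)).toAdd = n :=
    rfl
  rw [e]
  push_cast
  unfold lq
  rw [mul_comm, Real.exp_mul, Real.exp_log hpos, Real.rpow_intCast]

theorem av_disc (v : HeightOneSpectrum (𝓞 K)) (x : K) (hx : x ≠ 0) :
    ∃ n : ℤ, av v x = Real.exp (-(n * lq v)) := by
  have h0 : v.valuation K x ≠ 0 := (v.valuation K).ne_zero_iff.mpr hx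
  refine ⟨-(WithZero.log (v.valuation K x)), ?_⟩
  rw [av_eq]
  conv_lhs => rw [← WithZero.exp_log h0]
  rw [av_exp]
  congr 1
  push_cast
  ring

/-- `x ∈ v ^ n` if and only if `|x|_v ≤ N(v)^(-n)`. -/
theorem av_int_le_pow (v : HeightOneSpectrum (𝓞 K)) (x : 𝓞 K) (n : ℕ) :
    x ∈ v.asIdeal ^ n ↔ av v (algebraMap (𝓞 K) K x) ≤ Real.exp (-(n * lq v)) := by
  rw [← HeightOneSpectrum.intValuation_le_pow_iff_mem, ← v.valuation_of_algebraMap (K := K),
    ← (WithZeroMulInt.toNNReal_strictMono
      (NumberField.HeightOneSpectrum.one_lt_absNorm_nnreal v)).le_iff_le, ← NNReal.coe_le_coe]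
  have h := av_exp v (-(n : ℤ))
  have e : ((-(n : ℤ) : ℤ) : ℝ) * lq v = -(n * lq v) := by
    push_cast
    ring
  rw [e] at h
  rw [← h]
  rfl

/-- An element which is integral at all primes is integral. -/
theorem exists_int_of_av_le_one (x : K) (hx : ∀ v : HeightOneSpectrum (𝓞 K), av v x ≤ 1) :
    ∃ y : 𝓞 K, algebraMap (𝓞 K) K y = x := by
  have h := HeightOneSpectrum.mem_integers_of_valuation_le_one (R := 𝓞 K) K x (fun v => ?_)
  · obtain ⟨y, hy⟩ := h
    exact ⟨y, hy⟩
  · have h1 := hx v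
    rw [av_eq] at h1
    exact (WithZeroMulInt.toNNReal_le_one_iff
      (NumberField.HeightOneSpectrum.one_lt_absNorm_nnreal v)).1 (by exact_mod_cast h1)

theorem av_support_finite (x : K) (hx : x ≠ 0) :
    {v : HeightOneSpectrum (𝓞 K) | av v x ≠ 1}.Finite := by
  have h := NumberField.FinitePlace.hasFiniteMulSupport (K := K) hx
  have h2 : (Function.mulSupport fun w : FinitePlace K ↦ w x).Finite := h
  refine (h2.image FinitePlace.maximalIdeal).subset ?_
  intro v hv
  refine ⟨FinitePlace.mk v, ?_, FinitePlace.maximalIdeal_mk v⟩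
  have e : (FinitePlace.mk v) x = av v x := by
    rw [FinitePlace.mk_apply, FinitePlace.norm_embedding]
    rfl
  simp only [Function.mem_mulSupport]
  rw [e]
  exact hv

end Pool.Agent.GPoly
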