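import Pool.Agent.GPoly.Places

set_option autoImplicit false

/-!
# The product formula and the norm of an ideal as sums over the finite places
-/

namespace Pool.Agent.GPoly

open NumberField IsDedekindDomain

variable {K : Type} [Field K] [NumberField K]

theorem pb_av_eq (v : HeightOneSpectrum (𝓞 K)) (x : K) :
    av v x = (FinitePlace.equivHeightOneSpectrum.symm v) x := by
  rw [FinitePlace.equivHeightOneSpectrum_symm_apply, FinitePlace.norm_embedding]
  rfl

theorem pb_prod_av (x : K) (hx : x ≠ 0) (P : Finset (HeightOneSpectrum (𝓞 K)))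
    (hP : ∀ v, av v x ≠ 1 → v ∈ P) :
    ∏ v ∈ P, av v x = ((|(Algebra.norm ℚ) x| : ℚ) : ℝ)⁻¹ := by
  have h1 := FinitePlace.prod_eq_inv_abs_norm hx
  rw [← finprod_comp_equiv FinitePlace.equivHeightOneSpectrum.symm] at h1
  have h2 : (fun v : HeightOneSpectrum (𝓞 K) =>
      (FinitePlace.equivHeightOneSpectrum.symm v) x) = fun v => av v x := by
    funext v
    exact (pb_av_eq v x).symm
  rw [h2] at h1
  rw [finprod_eq_prod_of_mulSupport_subset (s := P)] at h1
  · rw [h1]
    norm_num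
  · intro v hv
    exact hP v hv

theorem pb_prod_emb (x : K) :
    ∏ σ : K →+* ℂ, ‖σ x‖ = ((|(Algebra.norm ℚ) x| : ℚ) : ℝ) := by
  classical
  have h1 := congr_arg (‖·‖) (Algebra.norm_eq_prod_embeddings ℚ ℂ x)
  simp only [norm_prod] at h1
  rw [Fintype.prod_equiv (RingHom.equivRatAlgHom K ℂ) (fun f => ‖f x‖)
      (fun φ => ‖φ x‖) fun _ => by simp [RingHom.equivRatAlgHom_apply]]
  rw [← h1, eq_ratCast, Rat.cast_abs, ← Real.norm_eq_abs, ← Complex.norm_real,
    Complex.ofReal_ratCast]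

/-- The product formula: the sum of the logarithms at the finite places (`P` contains all the places
with `|x|_v ≠ 1`) is minus the sum of `log |σ x|` over the complex embeddings. -/
theorem product_formula (x : K) (hx : x ≠ 0) (P : Finset (HeightOneSpectrum (𝓞 K)))
    (hP : ∀ v, av v x ≠ 1 → v ∈ P) :
    ∑ v ∈ P, Real.log (av v x) + ∑ σ : K →+* ℂ, Real.log ‖σ x‖ = 0 := by
  rw [← Real.log_prod, ← Real.log_prod, pb_prod_av x hx P hP, pb_prod_emb x, Real.log_inv]
  · ring
  · intro σ _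
    simpa using hx
  · intro v _
    exact (av v).ne_zero hx

theorem pb_mul_absNorm (v : HeightOneSpectrum (𝓞 K)) (x : 𝓞 K) (hx : x ≠ 0) :
    av v (algebraMap (𝓞 K) K x) *
      (Ideal.absNorm (v.maxPowDividing (Ideal.span {x})) : ℝ) = 1 := by
  have h := HeightOneSpectrum.embedding_mul_absNorm K v hx
  rw [FinitePlace.norm_embedding] at h
  exact h

theorem pb_neg_log (v : HeightOneSpectrum (𝓞 K)) (x : 𝓞 K) (hx : x ≠ 0) :
    -Real.log (av v (algebraMap (𝓞 K) K x)) =
      Real.log (Ideal.absNorm (v.maxPowDividing (Ideal.span {x}))) := by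
  have h := pb_mul_absNorm v x hx
  rw [← Real.log_inv]
  congr 1
  exact inv_eq_of_mul_eq_one_right h

theorem pb_absNorm_prod (J : Ideal (𝓞 K)) (hJ : J ≠ 0) (P : Finset (HeightOneSpectrum (𝓞 K)))
    (hP : ∀ v : HeightOneSpectrum (𝓞 K), v.asIdeal ∣ J → v ∈ P) :
    Real.log (Ideal.absNorm J) =
      ∑ v ∈ P, Real.log (Ideal.absNorm (v.maxPowDividing J)) := by
  have h1 := Ideal.finprod_heightOneSpectrum_factorization hJ
  rw [finprod_eq_prod_of_mulSupport_subset (s := P)] at h1
  · conv_lhs => rw [← h1]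
    rw [map_prod, Nat.cast_prod, Real.log_prod]
    intro v _
    rw [Nat.cast_ne_zero, Ne, Ideal.absNorm_eq_zero_iff]
    exact pow_ne_zero _ v.ne_bot
  · intro v hv
    apply hP
    by_contra h
    apply hv
    have h2 : (Associates.mk v.asIdeal).count (Associates.mk J).factors = 0 := by
      by_contra h3
      exact h ((Associates.count_ne_zero_iff_dvd hJ v.irreducible).1 h3)
    show v.maxPowDividing J = 1
    rw [HeightOneSpectrum.maxPowDividing, h2, pow_zero]

/-- For `x` in `𝓞 K` nonzero, the sum of the `-log |x|_v` is `log N(x)`. -/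
theorem sum_log_av_int (x : 𝓞 K) (hx : x ≠ 0) (P : Finset (HeightOneSpectrum (𝓞 K)))
    (hP : ∀ v : HeightOneSpectrum (𝓞 K), x ∈ v.asIdeal → v ∈ P) :
    ∑ v ∈ P, -Real.log (av v (algebraMap (𝓞 K) K x)) =
      Real.log (Ideal.absNorm (Ideal.span {x})) := by
  have hx' : Ideal.span {x} ≠ 0 := by simpa using hx
  rw [pb_absNorm_prod (Ideal.span {x}) hx' P
    (fun v hv => hP v (Ideal.dvd_span_singleton.1 hv))]
  exact Finset.sum_congr rfl fun v _ => pb_neg_log v x hx

open Classical in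
/-- If `J` divides `(x)` then `log N(J)` is at most the part of `log N(x)` at the primes which
divide `J`. -/
theorem log_absNorm_le (x : 𝓞 K) (hx : x ≠ 0) (J : Ideal (𝓞 K)) (hJ : J ∣ Ideal.span {x})
    (P : Finset (HeightOneSpectrum (𝓞 K)))
    (hP : ∀ v : HeightOneSpectrum (𝓞 K), x ∈ v.asIdeal → v ∈ P) :
    Real.log (Ideal.absNorm J) ≤
      ∑ v ∈ P with v.asIdeal ∣ J, -Real.log (av v (algebraMap (𝓞 K) K x)) := by
  have hx' : Ideal.span {x} ≠ 0 := by simpa using hx
  have hJ0 : J ≠ 0 := by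
    rintro rfl
    exact hx' (zero_dvd_iff.1 hJ)
  rw [pb_absNorm_prod J hJ0 (P.filter fun v => v.asIdeal ∣ J)
    (fun v hv => Finset.mem_filter.2
      ⟨hP v (Ideal.dvd_span_singleton.1 (hv.trans hJ)), hv⟩)]
  refine Finset.sum_le_sum fun v _ => ?_
  rw [pb_neg_log v x hx]
  have hle : J ≥ Ideal.span {x} := Ideal.le_of_dvd hJ
  have hpos : 0 < Ideal.absNorm (v.maxPowDividing J) := by
    rw [Nat.pos_iff_ne_zero, Ne, Ideal.absNorm_eq_zero_iff]
    exact pow_ne_zero _ v.ne_bot
  refine Real.log_le_log (by exact_mod_cast hpos) ?_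
  have hpos2 : 0 < Ideal.absNorm (v.maxPowDividing (Ideal.span {x})) := by
    rw [Nat.pos_iff_ne_zero, Ne, Ideal.absNorm_eq_zero_iff]
    exact pow_ne_zero _ v.ne_bot
  have hdvd : v.maxPowDividing J ∣ v.maxPowDividing (Ideal.span {x}) := by
    rw [HeightOneSpectrum.maxPowDividing_eq_pow_multiplicity hJ0,
      HeightOneSpectrum.maxPowDividing_eq_pow_multiplicity hx']
    exact pow_dvd_pow _ (HeightOneSpectrum.multiplicity_le_of_ideal_ge v hle hx')
  exact_mod_cast Nat.le_of_dvd hpos2 (Ideal.absNorm_dvd_absNorm_of_le (Ideal.le_of_dvd hdvd))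

end Pool.Agent.GPoly
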