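import Pool.Agent.GPoly.Base

set_option autoImplicit false

/-!
# L1: the generic bound for the Vandermonde determinant
-/

namespace Pool.Agent.GPoly

open Polynomial

theorem Vander_abv_sum_le {K ι : Type*} [Field K] (abv : AbsoluteValue K ℝ)
    (hna : IsNonarchimedean abv) (S : Finset ι) (g : ι → K) (B : ℝ) (hB0 : 0 ≤ B)
    (hB : ∀ i ∈ S, abv (g i) ≤ B) : abv (∑ i ∈ S, g i) ≤ B := by
  classical
  induction S using Finset.induction_on with
  | empty => simpa using hB0
  | insert i S hi ih =>
    rw [Finset.sum_insert hi]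
    refine le_trans (hna _ _) (max_le (hB i (Finset.mem_insert_self _ _)) ?_)
    exact ih (fun j hj => hB j (Finset.mem_insert_of_mem hj))

/-- Ultrametric Hadamard inequality. -/
theorem abv_det_le {K : Type*} [Field K] (abv : AbsoluteValue K ℝ) (hna : IsNonarchimedean abv)
    (m : ℕ) (M : Matrix (Fin m) (Fin m) K) (B : Fin m → ℝ) (hB : ∀ i j, abv (M i j) ≤ B j) :
    abv M.det ≤ ∏ j, B j := by
  rw [Matrix.det_apply]
  refine Vander_abv_sum_le abv hna _ _ _ ?_ ?_
  · exact Finset.prod_nonneg (fun j _ => le_trans (abv.nonneg _) (hB j j))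
  · intro σ _
    have h1 : abv (Equiv.Perm.sign σ • ∏ i, M (σ i) i) = ∏ i, abv (M (σ i) i) := by
      rw [← map_prod]
      rcases Int.units_eq_one_or (Equiv.Perm.sign σ) with h | h
      · rw [h, one_smul]
      · rw [h, Units.neg_smul, one_smul, AbsoluteValue.map_neg]
    rw [h1]
    exact Finset.prod_le_prod (fun i _ => abv.nonneg _) (fun i _ => hB _ _)

/-- Monic polynomials `P_r` of degree `r`, `P_r(X) = X^(r mod d) A^(-(r div d)) P_(r div d)(f(X))`,
whose size on a set which is stable under `f` and contained in the disc of radius `exp ρ` is at most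
`exp (r g + s_d(r) (ρ - g))`. -/
theorem exists_monic_family {K : Type*} [Field K] (abv : AbsoluteValue K ℝ)
    (f : K[X]) (d : ℕ) (hd : 2 ≤ d) (hf : f.natDegree = d) (P : K → Prop)
    (hP : ∀ x, P x → P (f.eval x)) (ρ : ℝ) (hρ : ∀ x, P x → abv x ≤ Real.exp ρ) (r : ℕ) :
    ∃ p : K[X], p.Monic ∧ p.natDegree = r ∧ ∀ x, P x → abv (p.eval x) ≤
      Real.exp (r * (-Real.log (abv f.leadingCoeff) / (d - 1)) +
        sdig d r * (ρ - (-Real.log (abv f.leadingCoeff) / (d - 1)))) := by
  have hf0 : f ≠ 0 := by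
    rintro rfl
    rw [natDegree_zero] at hf
    omega
  have hA : f.leadingCoeff ≠ 0 := leadingCoeff_ne_zero.mpr hf0
  set A := f.leadingCoeff with hAdef
  set γ : ℝ := -Real.log (abv A) / (d - 1) with hγ
  have hd1 : (0 : ℝ) < (d : ℝ) - 1 := by
    have : (2 : ℝ) ≤ d := by exact_mod_cast hd
    linarith
  have hAγ : Real.log (abv A) = -(((d : ℝ) - 1) * γ) := by
    rw [hγ]
    field_simp
  have hApos : 0 < abv A := abv.pos hA
  induction r using Nat.strong_induction_on with
  | _ r ih =>
    rcases Nat.eq_zero_or_pos r with h0 | h0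
    · subst h0
      refine ⟨1, monic_one, natDegree_one, fun x _ => ?_⟩
      rw [eval_one, map_one]
      have h1 : sdig d 0 = 0 := by simp [sdig]
      rw [h1]
      simp
    · obtain ⟨p, hp1, hp2, hp3⟩ := ih (r / d) (Nat.div_lt_self h0 (by omega))
      have hcomp : (p.comp f).leadingCoeff = A ^ (r / d) := by
        rw [leadingCoeff_comp (by omega), hp1.leadingCoeff, one_mul, hp2]
      have hAq : A ^ (r / d) ≠ 0 := pow_ne_zero _ hA
      have hmon : (C ((A ^ (r / d))⁻¹) * p.comp f).Monic := by
        rw [Monic, leadingCoeff_mul, leadingCoeff_C, hcomp, inv_mul_cancel₀ hAq]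
      refine ⟨X ^ (r % d) * (C ((A ^ (r / d))⁻¹) * p.comp f), (monic_X_pow _).mul hmon, ?_, ?_⟩
      · rw [(monic_X_pow _).natDegree_mul hmon, natDegree_X_pow,
          natDegree_C_mul (inv_ne_zero hAq), natDegree_comp, hp2, hf]
        have := Nat.div_add_mod r d
        rw [mul_comm] at this
        omega
      · intro x hx
        have hs : (sdig d r : ℝ) = (r % d : ℕ) + sdig d (r / d) := by
          have : sdig d r = r % d + sdig d (r / d) := by
            unfold sdig
            rw [Nat.digits_def' (by omega) h0, List.sum_cons]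
          rw [this]; push_cast; ring
        have hr : (r : ℝ) = (r % d : ℕ) + d * (r / d : ℕ) := by
          have := Nat.div_add_mod r d
          have h2 : (r : ℝ) = ((d * (r / d) + r % d : ℕ) : ℝ) := by rw [this]
          rw [h2]; push_cast; ring
        have h1 : abv (x ^ (r % d)) ≤ Real.exp ((r % d : ℕ) * ρ) := by
          rw [map_pow, Real.exp_nat_mul]
          exact pow_le_pow_left₀ (abv.nonneg _) (hρ x hx) _
        have h2 : abv ((A ^ (r / d))⁻¹) = Real.exp ((r / d : ℕ) * (((d : ℝ) - 1) * γ)) := by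
          rw [map_inv₀, map_pow, Real.exp_nat_mul, ← inv_pow]
          congr 1
          rw [← neg_neg ((((d : ℝ) - 1) * γ)), ← hAγ, Real.exp_neg, Real.exp_log hApos]
        have h3 := hp3 (f.eval x) (hP x hx)
        rw [eval_mul, eval_mul, eval_pow, eval_X, eval_C, eval_comp, map_mul, map_mul, h2]
        calc abv (x ^ (r % d)) * (Real.exp ((r / d : ℕ) * (((d : ℝ) - 1) * γ)) *
              abv (p.eval (f.eval x)))
            ≤ Real.exp ((r % d : ℕ) * ρ) * (Real.exp ((r / d : ℕ) * (((d : ℝ) - 1) * γ)) *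
              Real.exp ((r / d : ℕ) * γ + sdig d (r / d) * (ρ - γ))) := by
              refine mul_le_mul h1 (mul_le_mul_of_nonneg_left h3 (Real.exp_pos _).le) ?_
                (Real.exp_pos _).le
              exact mul_nonneg (Real.exp_pos _).le (abv.nonneg _)
          _ = Real.exp (r * γ + sdig d r * (ρ - γ)) := by
              rw [← Real.exp_add, ← Real.exp_add, hs, hr]
              congr 1
              ring

theorem Vander_sum_offDiag (m : ℕ) (h : Fin m → Fin m → ℝ) (hsymm : ∀ i j, h i j = h j i) :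
    ∑ p ∈ (Finset.univ : Finset (Fin m)).offDiag, h p.1 p.2 =
      2 * ∑ i, ∑ j ∈ Finset.Ioi i, h i j := by
  classical
  have h1 : ∑ p ∈ (Finset.univ : Finset (Fin m)).offDiag, h p.1 p.2 =
      ∑ i, ∑ j ∈ Finset.univ.filter (fun j => i ≠ j), h i j := by
    rw [Finset.sum_sigma']
    refine Finset.sum_bij' (fun p _ => ⟨p.1, p.2⟩) (fun p _ => (p.1, p.2)) ?_ ?_ ?_ ?_ ?_
    · intro p hp
      simp only [Finset.mem_offDiag, Finset.mem_univ, true_and] at hp
      simp only [Finset.mem_sigma, Finset.mem_univ, Finset.mem_filter, true_and]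
      exact hp
    · intro p hp
      simp only [Finset.mem_sigma, Finset.mem_univ, Finset.mem_filter, true_and] at hp
      simp only [Finset.mem_offDiag, Finset.mem_univ, true_and]
      exact hp
    · intro p _; rfl
    · intro p _; rfl
    · intro p _; rfl
  have h2 : ∀ i : Fin m, ∑ j ∈ Finset.univ.filter (fun j => i ≠ j), h i j =
      ∑ j ∈ Finset.Ioi i, h i j + ∑ j ∈ Finset.Iio i, h i j := by
    intro i
    rw [← Finset.sum_union]
    · refine Finset.sum_congr ?_ (fun _ _ => rfl)
      ext j
      simp only [Finset.mem_filter, Finset.mem_univ, true_and, Finset.mem_union, Finset.mem_Ioi,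
        Finset.mem_Iio]
      rw [ne_iff_lt_or_gt]
    · rw [Finset.disjoint_left]
      intro j hj hj'
      rw [Finset.mem_Ioi] at hj
      rw [Finset.mem_Iio] at hj'
      exact lt_asymm hj hj'
  have h3 : ∑ i : Fin m, ∑ j ∈ Finset.Iio i, h i j = ∑ i : Fin m, ∑ j ∈ Finset.Ioi i, h i j := by
    rw [Finset.sum_comm' (t' := Finset.univ) (s' := fun j => Finset.Ioi j)]
    · exact Finset.sum_congr rfl (fun i _ => Finset.sum_congr rfl (fun j _ => hsymm _ _))
    · intro x y
      simp only [Finset.mem_univ, true_and, Finset.mem_Iio, Finset.mem_Ioi, and_true]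
  rw [h1, Finset.sum_congr rfl (fun i _ => h2 i), Finset.sum_add_distrib, h3, two_mul]

/-- L1: the generic bound. -/
theorem vander_bound {K : Type*} [Field K] [DecidableEq K] (abv : AbsoluteValue K ℝ)
    (hna : IsNonarchimedean abv) (f : K[X]) (d : ℕ) (hd : 2 ≤ d) (hf : f.natDegree = d)
    (P : K → Prop) (hP : ∀ x, P x → P (f.eval x)) (ρ : ℝ)
    (hρ : ∀ x, P x → abv x ≤ Real.exp ρ) (T : Finset K) (hT : ∀ x ∈ T, P x) :
    En abv T ≤ (T.card * (T.card - 1) : ℝ) * (-Real.log (abv f.leadingCoeff) / (d - 1)) +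
      2 * sg d T.card * (ρ - (-Real.log (abv f.leadingCoeff) / (d - 1))) := by
  choose p hp1 hp2 hp3 using exists_monic_family abv f d hd hf P hP ρ hρ
  set γ : ℝ := -Real.log (abv f.leadingCoeff) / (d - 1) with hγ
  set m := T.card with hm
  let e : Fin m ≃ T := (T.equivFin).symm
  let v : Fin m → K := fun i => (e i : K)
  have hv : Function.Injective v := Subtype.val_injective.comp e.injective
  have hvT : ∀ i, v i ∈ T := fun i => (e i).2
  have hEn : En abv T = 2 * ∑ i, ∑ j ∈ Finset.Ioi i, Real.log (abv (v i - v j)) := by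
    rw [← Vander_sum_offDiag m (fun i j => Real.log (abv (v i - v j)))
      (fun i j => by rw [AbsoluteValue.map_sub])]
    unfold En
    symm
    refine Finset.sum_bij (fun p _ => (v p.1, v p.2)) ?_ ?_ ?_ ?_
    · intro p hp
      simp only [Finset.mem_offDiag, Finset.mem_univ, true_and] at hp
      rw [Finset.mem_offDiag]
      exact ⟨hvT _, hvT _, fun h => hp (hv h)⟩
    · intro p _ q _ h
      rw [Prod.mk.injEq] at h
      exact Prod.ext (hv h.1) (hv h.2)
    · intro q hq
      rw [Finset.mem_offDiag] at hq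
      refine ⟨(e.symm ⟨q.1, hq.1⟩, e.symm ⟨q.2, hq.2.1⟩), ?_, ?_⟩
      · simp only [Finset.mem_offDiag, Finset.mem_univ, true_and]
        intro h
        apply hq.2.2
        have h2 := e.symm.injective h
        exact congrArg Subtype.val h2
      · simp only [v, Equiv.apply_symm_apply]
    · intro p _; rfl
  have hdet : (Matrix.vandermonde v).det =
      (Matrix.of fun i j : Fin m => (p (j : ℕ)).eval (v i)).det :=
    Matrix.det_eval_matrixOfPolynomials_eq_det_vandermonde v (fun j => p (j : ℕ))
      (fun i => hp2 i) (fun i => hp1 i)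
  have hle : abv (Matrix.vandermonde v).det ≤
      ∏ j : Fin m, Real.exp ((j : ℕ) * γ + sdig d (j : ℕ) * (ρ - γ)) := by
    rw [hdet]
    exact abv_det_le abv hna m _ _ (fun i j => hp3 j (v i) (hT _ (hvT i)))
  have hne : (Matrix.vandermonde v).det ≠ 0 := Matrix.det_vandermonde_ne_zero_iff.mpr hv
  have hlog : Real.log (abv (Matrix.vandermonde v).det) =
      ∑ i, ∑ j ∈ Finset.Ioi i, Real.log (abv (v i - v j)) := by
    rw [Matrix.det_vandermonde, map_prod, Real.log_prod]
    · refine Finset.sum_congr rfl (fun i _ => ?_)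
      rw [map_prod, Real.log_prod]
      · exact Finset.sum_congr rfl (fun j _ => by rw [AbsoluteValue.map_sub])
      · intro j hj
        rw [Finset.mem_Ioi] at hj
        exact (abv.pos (sub_ne_zero.mpr (fun h => hj.ne' (hv h)))).ne'
    · intro i _
      refine (abv.pos ?_).ne'
      rw [Finset.prod_ne_zero_iff]
      intro j hj
      rw [Finset.mem_Ioi] at hj
      exact sub_ne_zero.mpr (fun h => hj.ne' (hv h))
  have hlog2 : Real.log (abv (Matrix.vandermonde v).det) ≤
      ∑ j : Fin m, ((j : ℕ) * γ + sdig d (j : ℕ) * (ρ - γ)) := by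
    calc Real.log (abv (Matrix.vandermonde v).det)
        ≤ Real.log (∏ j : Fin m, Real.exp ((j : ℕ) * γ + sdig d (j : ℕ) * (ρ - γ))) :=
          Real.log_le_log (abv.pos hne) hle
      _ = ∑ j : Fin m, ((j : ℕ) * γ + sdig d (j : ℕ) * (ρ - γ)) := by
          rw [← Real.exp_sum, Real.log_exp]
  have hsum : ∑ j : Fin m, (((j : ℕ) : ℝ) * γ + sdig d (j : ℕ) * (ρ - γ)) =
      (m * (m - 1) : ℝ) / 2 * γ + sg d m * (ρ - γ) := by
    rw [Fin.sum_univ_eq_sum_range (fun j => ((j : ℝ) * γ + sdig d j * (ρ - γ))),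
      Finset.sum_add_distrib, ← Finset.sum_mul, ← Finset.sum_mul]
    congr 1
    · congr 1
      have h1 : ∀ n : ℕ, ∑ j ∈ Finset.range n, (j : ℝ) = (n * (n - 1) : ℝ) / 2 := by
        intro n
        induction n with
        | zero => simp
        | succ n ih => rw [Finset.sum_range_succ, ih]; push_cast; ring
      exact h1 m
    · congr 1
      unfold sg
      push_cast
      rfl
  rw [hEn, ← hlog]
  rw [hsum] at hlog2
  linarith

end Pool.Agent.GPoly
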