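import Pool.Agent.GPoly.Base

set_option autoImplicit false

/-!
# The growth of digit sums and the final inequality of case A
-/

namespace Pool.Agent.GPoly

theorem sdig_le_self (d r : ℕ) : sdig d r ≤ r := Nat.digit_sum_le d r

theorem sdig_step (d : ℕ) (hd : 2 ≤ d) (r : ℕ) : sdig d r = r % d + sdig d (r / d) := by
  unfold sdig
  rcases Nat.eq_zero_or_pos r with h | h
  · subst h
    simp
  · rw [Nat.digits_def' (by omega) h]
    simp

theorem sdig_le (d : ℕ) (hd : 2 ≤ d) (j r : ℕ) : sdig d r ≤ j * (d - 1) + r / d ^ j := by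
  induction j generalizing r with
  | zero => simpa using sdig_le_self d r
  | succ j ih =>
    rw [sdig_step d hd r]
    have h1 : r % d < d := Nat.mod_lt _ (by omega)
    have h2 := ih (r / d)
    have h3 : r / d / d ^ j = r / d ^ (j + 1) := by
      rw [Nat.div_div_eq_div_mul, pow_succ, mul_comm]
    rw [h3] at h2
    have h4 : (j + 1) * (d - 1) = j * (d - 1) + (d - 1) := by ring
    omega

theorem sg_le (d : ℕ) (hd : 2 ≤ d) (j m : ℕ) :
    (sg d m : ℝ) ≤ m * (j * (d - 1) : ℝ) + (m : ℝ) ^ 2 / (d : ℝ) ^ j := by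
  have hd0 : (0 : ℝ) < (d : ℝ) ^ j := by
    have : (0 : ℝ) < d := by exact_mod_cast (by omega : 0 < d)
    positivity
  have h1 : ∀ r ∈ Finset.range m, ((sdig d r : ℕ) : ℝ) ≤ (j * (d - 1) : ℝ) + m / (d : ℝ) ^ j := by
    intro r hr
    have hr' : r < m := Finset.mem_range.mp hr
    have h2 : ((sdig d r : ℕ) : ℝ) ≤ ((j * (d - 1) + r / d ^ j : ℕ) : ℝ) := by
      exact_mod_cast sdig_le d hd j r
    have h3 : ((r / d ^ j : ℕ) : ℝ) ≤ (r : ℝ) / (d : ℝ) ^ j := by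
      have := @Nat.cast_div_le ℝ _ _ _ r (d ^ j)
      simpa using this
    have h4 : (r : ℝ) / (d : ℝ) ^ j ≤ m / (d : ℝ) ^ j := by
      apply div_le_div_of_nonneg_right _ hd0.le
      exact_mod_cast hr'.le
    have h5 : ((j * (d - 1) + r / d ^ j : ℕ) : ℝ) = (j * (d - 1) : ℝ) + ((r / d ^ j : ℕ) : ℝ) := by
      rw [Nat.cast_add, Nat.cast_mul, Nat.cast_sub (by omega), Nat.cast_one]
    rw [h5] at h2
    linarith
  have h6 := Finset.sum_le_sum h1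
  rw [Finset.sum_const, Finset.card_range, nsmul_eq_mul] at h6
  unfold sg
  push_cast
  refine h6.trans (le_of_eq ?_)
  ring

/-- `m ^ 2 ≤ c (2 σ_d(m) + 2 (d + 1) m)` bounds `m`. -/
theorem bound_of_sq_le (d : ℕ) (hd : 2 ≤ d) (c : ℝ) :
    ∃ M : ℕ, ∀ m : ℕ, (m : ℝ) ^ 2 ≤ c * (2 * sg d m + 2 * (d + 1) * m) → m ≤ M := by
  obtain ⟨j, hj⟩ := pow_unbounded_of_one_lt (4 * |c|)
    (by exact_mod_cast (by omega : 1 < d) : (1 : ℝ) < (d : ℝ))
  have hd1 : (2 : ℝ) ≤ d := by exact_mod_cast hd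
  have hd0 : (0 : ℝ) < (d : ℝ) ^ j := by positivity
  refine ⟨⌈2 * |c| * (2 * (j * (d - 1) : ℝ) + 2 * (d + 1))⌉₊, fun m hm => ?_⟩
  rcases Nat.eq_zero_or_pos m with h0 | h0
  · omega
  have hm0 : (0 : ℝ) < m := by exact_mod_cast h0
  have hs0 : (0 : ℝ) ≤ 2 * sg d m + 2 * (d + 1) * m := by positivity
  have h1 : (m : ℝ) ^ 2 ≤ |c| * (2 * sg d m + 2 * (d + 1) * m) :=
    hm.trans (mul_le_mul_of_nonneg_right (le_abs_self c) hs0)
  have h2 := sg_le d hd j m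
  have h3 : |c| * ((m : ℝ) ^ 2 / (d : ℝ) ^ j) ≤ (m : ℝ) ^ 2 / 4 := by
    rw [mul_div_assoc', div_le_div_iff₀ hd0 (by norm_num)]
    have := mul_le_mul_of_nonneg_left hj.le (sq_nonneg (m : ℝ))
    linarith
  have h4 : (m : ℝ) ^ 2 ≤ |c| * (2 * (m * (j * (d - 1) : ℝ) + (m : ℝ) ^ 2 / (d : ℝ) ^ j)
      + 2 * (d + 1) * m) :=
    h1.trans (mul_le_mul_of_nonneg_left (by linarith) (abs_nonneg c))
  have h5 : (m : ℝ) * m ≤ m * (2 * |c| * (2 * (j * (d - 1) : ℝ) + 2 * (d + 1))) := by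
    nlinarith
  have h6 : (m : ℝ) ≤ 2 * |c| * (2 * (j * (d - 1) : ℝ) + 2 * (d + 1)) :=
    le_of_mul_le_mul_left h5 hm0
  exact_mod_cast h6.trans (Nat.le_ceil _)

/-- The algebra of case A: `W`, `Wdef` the total and the defective weight, `L = D log 16`. -/
theorem caseA (d k : ℕ) (hd : 3 ≤ d) (L : ℝ) (hL : 0 ≤ L) :
    ∃ M : ℕ, ∀ (m : ℕ) (W Wdef : ℝ), 0 < W → W ≤ k * Wdef →
      2 * L * (k * ((d - 1) * (2 * d - 1))) ≤ W →
      0 ≤ (m : ℝ) ^ 2 * (L - 1 / ((d - 1) * (2 * d - 1)) * Wdef) +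
        (2 * sg d m + 2 * (d + 1) * m) * W → m ≤ M := by
  obtain ⟨M, hM⟩ := bound_of_sq_le d (by omega) (2 * k * ((d - 1) * (2 * d - 1)))
  refine ⟨M, fun m W Wdef hW hWd hLW h => hM m ?_⟩
  have hd1 : (3 : ℝ) ≤ d := by exact_mod_cast hd
  have hq : (0 : ℝ) < (d - 1) * (2 * d - 1) := by
    apply mul_pos <;> linarith
  generalize hqq : ((d : ℝ) - 1) * (2 * d - 1) = q at *
  have hk0 : (0 : ℝ) < k := by
    rcases Nat.eq_zero_or_pos k with h0 | h0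
    · subst h0
      simp at hWd
      linarith
    · exact_mod_cast h0
  generalize hsg : (2 * (sg d m : ℝ) + 2 * (d + 1) * m) = s at *
  -- multiply `h` by `2 k q`
  have h1 : 0 ≤ 2 * (k * q) * ((m : ℝ) ^ 2 * (L - 1 / q * Wdef) + s * W) :=
    mul_nonneg (by positivity) h
  have h2 : 2 * (k * q) * ((m : ℝ) ^ 2 * (L - 1 / q * Wdef) + s * W) =
      (m : ℝ) ^ 2 * (2 * L * (k * q) - 2 * (k * Wdef)) + 2 * (k * q) * s * W := by
    field_simp
  rw [h2] at h1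
  have h3 : (m : ℝ) ^ 2 * (2 * L * (k * q) - 2 * (k * Wdef)) ≤ (m : ℝ) ^ 2 * (W - 2 * W) :=
    mul_le_mul_of_nonneg_left (by linarith) (sq_nonneg _)
  have h4 : (m : ℝ) ^ 2 * W ≤ (2 * k * q * s) * W := by nlinarith
  exact le_of_mul_le_mul_right h4 hW

end Pool.Agent.GPoly
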