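import Pool.Agent.GPoly.Base

set_option autoImplicit false

/-!
# L0: preperiodic points do not escape
-/

namespace Pool.Agent.GPoly

open Polynomial

/-- `|a x ^ d|` dominates when `|x| > |a|⁻¹`, all coefficients being integral. -/
theorem abv_eval_of_large {K : Type*} [Field K] (abv : AbsoluteValue K ℝ)
    (hna : IsNonarchimedean abv) (F : K[X]) (d : ℕ) (hd : 1 ≤ d) (hF : F.natDegree = d)
    (hcoef : ∀ i, abv (F.coeff i) ≤ 1) (x : K) (hx : (abv F.leadingCoeff)⁻¹ < abv x) :
    abv (F.eval x) = abv F.leadingCoeff * abv x ^ d := by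
  have hF0 : F ≠ 0 := by
    rintro rfl
    simp at hF
    omega
  have ha0 : 0 < abv F.leadingCoeff := abv.pos (leadingCoeff_ne_zero.mpr hF0)
  have ha1 : abv F.leadingCoeff ≤ 1 := hcoef _
  have hx1 : 1 < abv x := lt_of_le_of_lt ((one_le_inv₀ ha0).mpr ha1) hx
  have hax : 1 < abv F.leadingCoeff * abv x := by
    have := mul_lt_mul_of_pos_left hx ha0
    rwa [mul_inv_cancel₀ ha0.ne'] at this
  have hlead : F.leadingCoeff = F.coeff d := by rw [leadingCoeff, hF]
  rw [eval_eq_sum_range, hF]
  have key := IsNonarchimedean.apply_sum_eq_of_lt (f := abv) hna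
    (fun a => (abv.map_neg a).symm) (s := Finset.range (d + 1))
    (l := fun i => F.coeff i * x ^ i) (k := d) (Finset.mem_range.mpr (Nat.lt_succ_self d)) ?_
  · rw [key, map_mul, map_pow, hlead]
  · intro j hj hne
    have hjd : j < d := by
      have := Finset.mem_range.mp hj
      omega
    simp only [map_mul, map_pow]
    rw [← hlead]
    calc abv (F.coeff j) * abv x ^ j ≤ 1 * abv x ^ j := by
          gcongr
          exact hcoef j
      _ = abv x ^ j := one_mul _
      _ ≤ abv x ^ (d - 1) := pow_le_pow_right₀ hx1.le (by omega)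
      _ = 1 * abv x ^ (d - 1) := (one_mul _).symm
      _ < (abv F.leadingCoeff * abv x) * abv x ^ (d - 1) := by
          have : 0 < abv x ^ (d - 1) := by positivity
          exact mul_lt_mul_of_pos_right hax this
      _ = abv F.leadingCoeff * abv x ^ d := by
          rw [mul_assoc, ← pow_succ']
          congr 2
          omega

theorem escape {K : Type*} [Field K] (abv : AbsoluteValue K ℝ) (hna : IsNonarchimedean abv)
    (F : K[X]) (b : K) (d : ℕ) (hd : 2 ≤ d) (hF : F.natDegree = d)
    (hcoef : ∀ i, abv (F.coeff i) ≤ 1) (hb0 : b ≠ 0) (hb : abv b ≤ 1) (x : K)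
    (hx : Pre (fun z => F.eval z / b) x) : abv x ≤ (abv F.leadingCoeff)⁻¹ := by
  by_contra hcon
  rw [not_le] at hcon
  have hF0 : F ≠ 0 := by
    rintro rfl
    simp at hF
    omega
  have ha0 : 0 < abv F.leadingCoeff := abv.pos (leadingCoeff_ne_zero.mpr hF0)
  have ha1 : abv F.leadingCoeff ≤ 1 := hcoef _
  have hbp : 0 < abv b := abv.pos hb0
  have step : ∀ z : K, (abv F.leadingCoeff)⁻¹ < abv z → abv z < abv (F.eval z / b) := by
    intro z hz
    have hz1 : 1 < abv z := lt_of_le_of_lt ((one_le_inv₀ ha0).mpr ha1) hz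
    have haz : 1 < abv F.leadingCoeff * abv z := by
      have := mul_lt_mul_of_pos_left hz ha0
      rwa [mul_inv_cancel₀ ha0.ne'] at this
    rw [map_div₀, abv_eval_of_large abv hna F d (by omega) hF hcoef z hz]
    calc abv z = abv z ^ 1 := (pow_one _).symm
      _ ≤ abv z ^ (d - 1) := pow_le_pow_right₀ hz1.le (by omega)
      _ = 1 * abv z ^ (d - 1) := (one_mul _).symm
      _ < (abv F.leadingCoeff * abv z) * abv z ^ (d - 1) := by
          have : 0 < abv z ^ (d - 1) := by positivity
          exact mul_lt_mul_of_pos_right haz this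
      _ = abv F.leadingCoeff * abv z ^ d := by
          rw [mul_assoc, ← pow_succ']
          congr 2
          omega
      _ ≤ abv F.leadingCoeff * abv z ^ d / abv b := by
          rw [le_div_iff₀ hbp]
          have : 0 ≤ abv F.leadingCoeff * abv z ^ d := by positivity
          nlinarith
  have large : ∀ n : ℕ, (abv F.leadingCoeff)⁻¹ < abv ((fun z => F.eval z / b)^[n] x) := by
    intro n
    induction n with
    | zero => simpa using hcon
    | succ n ih =>
      rw [Function.iterate_succ_apply']
      exact ih.trans (step _ ih)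
  have mono : StrictMono (fun n : ℕ => abv ((fun z => F.eval z / b)^[n] x)) := by
    refine strictMono_nat_of_lt_succ fun n => ?_
    simp only [Function.iterate_succ_apply']
    exact step _ (large n)
  obtain ⟨m, n, hmn, h⟩ := hx
  have := mono hmn
  simp only at this
  rw [h] at this
  exact lt_irrefl _ this

end Pool.Agent.GPoly
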