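import Pool.Agent.GPoly.Places
import Pool.Agent.GPoly.Escape

set_option autoImplicit false

/-!
# The residue classes of preperiodic points at a place of type II
-/

namespace Pool.Agent.GPoly

open NumberField IsDedekindDomain Polynomial

variable {K : Type} [Field K] [NumberField K]

namespace LocalII

/-- The valuation ring of a nonarchimedean absolute value. -/
def ring {K : Type*} [Field K] (abv : AbsoluteValue K ℝ) (hna : IsNonarchimedean abv) :
    Subring K where
  carrier := {x | abv x ≤ 1}
  mul_mem' := by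
    intro x y hx hy
    change abv (x * y) ≤ 1
    rw [map_mul]
    exact mul_le_one₀ hx (abv.nonneg y) hy
  one_mem' := by
    change abv 1 ≤ 1
    rw [map_one]
  add_mem' := by
    intro x y hx hy
    exact (hna x y).trans (max_le hx hy)
  zero_mem' := by
    change abv 0 ≤ 1
    rw [map_zero]
    exact zero_le_one
  neg_mem' := by
    intro x hx
    change abv (-x) ≤ 1
    rw [abv.map_neg]
    exact hx

lemma mem_ring {K : Type*} [Field K] {abv : AbsoluteValue K ℝ} {hna : IsNonarchimedean abv}
    {x : K} : x ∈ ring abv hna ↔ abv x ≤ 1 := Iff.rfl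

section Gen

variable {R L : Type*} [CommRing R] [Field L] (φ : R →+* L) (abv : AbsoluteValue L ℝ)
  (hna : IsNonarchimedean abv) (hφ : ∀ r, abv (φ r) ≤ 1)

include hna in
lemma sub_lt {x y : L} {e : ℝ} (hx : abv x < e) (hy : abv y < e) : abv (x - y) < e := by
  rw [sub_eq_add_neg]
  refine (hna x (-y)).trans_lt (max_lt hx ?_)
  rw [abv.map_neg]
  exact hy

include hna in
lemma sub_le {x y : L} {e : ℝ} (hx : abv x ≤ e) (hy : abv y ≤ e) : abv (x - y) ≤ e := by
  rw [sub_eq_add_neg]
  refine (hna x (-y)).trans (max_le hx ?_)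
  rw [abv.map_neg]
  exact hy

include hna in
lemma add_eq_one {x y : L} (hx : abv x = 1) (hy : abv y < 1) : abv (x + y) = 1 := by
  refine le_antisymm ((hna x y).trans (max_le hx.le hy.le)) ?_
  by_contra hlt
  rw [not_le] at hlt
  have h1 := sub_lt abv hna hlt hy
  rw [add_sub_cancel_right, hx] at h1
  exact lt_irrefl _ h1

/-- The homomorphism into the valuation ring. -/
def toRing : R →+* ring abv hna := φ.codRestrict (ring abv hna) hφ

lemma eval_toRing (F : R[X]) (z : ring abv hna) :
    (ring abv hna).subtype ((F.map (toRing φ abv hna hφ)).eval z) =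
      (F.map φ).eval ((ring abv hna).subtype z) := by
  have h1 : φ = (ring abv hna).subtype.comp (toRing φ abv hna hφ) := by
    ext r
    rfl
  conv_rhs => rw [h1, ← Polynomial.map_map, Polynomial.eval_map]
  exact (Polynomial.eval₂_at_apply (ring abv hna).subtype z).symm

lemma exists_lift {x : L} (hx : abv x ≤ 1) : ∃ X : ring abv hna, (ring abv hna).subtype X = x :=
  ⟨⟨x, hx⟩, rfl⟩

lemma subtype_le (k : ring abv hna) : abv ((ring abv hna).subtype k) ≤ 1 := k.2

include hna hφ in
/-- Polynomials with integral coefficients at integral points. -/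
lemma eval_sub_le (F : R[X]) {x y : L} (hx : abv x ≤ 1) (hy : abv y ≤ 1) :
    abv ((F.map φ).eval x - (F.map φ).eval y) ≤ abv (x - y) := by
  obtain ⟨x', hx'⟩ := exists_lift abv hna hx
  obtain ⟨y', hy'⟩ := exists_lift abv hna hy
  obtain ⟨k, hk⟩ := Polynomial.evalSubFactor (F.map (toRing φ abv hna hφ)) x' y'
  have h2 := congrArg (ring abv hna).subtype hk
  rw [map_sub, map_mul, map_sub, eval_toRing, eval_toRing, hx', hy'] at h2
  rw [h2, map_mul]
  exact mul_le_of_le_one_left (abv.nonneg _) (subtype_le abv hna k)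

include hna hφ in
lemma eval_le_one (F : R[X]) {x : L} (hx : abv x ≤ 1) : abv ((F.map φ).eval x) ≤ 1 := by
  obtain ⟨x', hx'⟩ := exists_lift abv hna hx
  rw [← hx', ← eval_toRing φ abv hna hφ]
  exact subtype_le abv hna _

include hna hφ in
/-- The derivative at a simple root. -/
lemma eval_sub_eq (F : R[X]) {x y : L} (hx : abv x ≤ 1) (hy : abv y ≤ 1)
    (hxy : abv (x - y) < 1) (hd : abv ((F.derivative.map φ).eval y) = 1) :
    abv ((F.map φ).eval x - (F.map φ).eval y) = abv (x - y) := by
  obtain ⟨x', hx'⟩ := exists_lift abv hna hx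
  obtain ⟨y', hy'⟩ := exists_lift abv hna hy
  obtain ⟨k, hk⟩ := Polynomial.binomExpansion (F.map (toRing φ abv hna hφ)) y' (x' - y')
  rw [add_sub_cancel, Polynomial.derivative_map] at hk
  have h2 := congrArg (ring abv hna).subtype hk
  rw [map_add, map_add, map_mul, map_mul, map_pow, map_sub, eval_toRing, eval_toRing,
    eval_toRing, hx', hy'] at h2
  have h3 : (F.map φ).eval x - (F.map φ).eval y =
      ((F.derivative.map φ).eval y + (ring abv hna).subtype k * (x - y)) * (x - y) := by
    rw [h2]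
    ring
  rw [h3, map_mul, add_eq_one abv hna hd, one_mul]
  rw [map_mul]
  exact (mul_le_of_le_one_left (abv.nonneg _) (subtype_le abv hna k)).trans_lt hxy

end Gen

section Num

variable (F : (𝓞 K)[X]) (b : 𝓞 K) (d : ℕ)

/-- The map. -/
noncomputable def fm : K → K := fun z : K =>
  (F.map (algebraMap (𝓞 K) K)).eval z / algebraMap (𝓞 K) K b

omit [NumberField K] in
lemma leadingCoeff_map : (F.map (algebraMap (𝓞 K) K)).leadingCoeff =
    algebraMap (𝓞 K) K F.leadingCoeff :=
  Polynomial.leadingCoeff_map_of_injective (RingOfIntegers.coe_injective) _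

/-- Preperiodic points times the leading coefficient are integral. -/
lemma exists_int (hb : b ≠ 0) (hd : 2 ≤ d) (hF : F.natDegree = d) {x : K}
    (hx : Pre (fm F b) x) :
    ∃ y : 𝓞 K, algebraMap (𝓞 K) K y = algebraMap (𝓞 K) K F.leadingCoeff * x := by
  apply exists_int_of_av_le_one
  intro v
  have ha0 : F.leadingCoeff ≠ 0 := by
    rw [Ne, Polynomial.leadingCoeff_eq_zero]
    rintro rfl
    rw [Polynomial.natDegree_zero] at hF
    omega
  have h1 := escape (av v) (av_nonarch v) (F.map (algebraMap (𝓞 K) K))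
    (algebraMap (𝓞 K) K b) d (by omega)
    (by rw [Polynomial.natDegree_map_eq_of_injective RingOfIntegers.coe_injective, hF])
    (fun i => by
      rw [Polynomial.coeff_map]
      exact av_int_le_one v _)
    (by
      intro h0
      exact hb (RingOfIntegers.coe_injective (h0.trans (map_zero _).symm)))
    (av_int_le_one v b) x hx
  rw [leadingCoeff_map] at h1
  have h2 : 0 < av v (algebraMap (𝓞 K) K F.leadingCoeff) := by
    rw [AbsoluteValue.pos_iff]
    intro h0
    exact ha0 (RingOfIntegers.coe_injective (h0.trans (map_zero _).symm))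
  rw [map_mul]
  calc _ ≤ av v (algebraMap (𝓞 K) K F.leadingCoeff) *
        (av v (algebraMap (𝓞 K) K F.leadingCoeff))⁻¹ := mul_le_mul_of_nonneg_left h1 h2.le
    _ = 1 := mul_inv_cancel₀ h2.ne'

end Num

end LocalII

/-- At a prime `v` with `a ∉ v` and `b ∈ v` every preperiodic point `x` of `f = F / b` has a residue
class `c x` in `k_v`, a root of `F` modulo `v`.  Two points in the same class satisfy `|x - y| < 1`,
and `|x - y| = |b| |f(x) - f(y)|` if the root is simple. -/
theorem residue_classes (F : (𝓞 K)[X]) (b : 𝓞 K) (hb : b ≠ 0) (d : ℕ) (hd : 2 ≤ d)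
    (hF : F.natDegree = d) (v : HeightOneSpectrum (𝓞 K)) (hav : F.leadingCoeff ∉ v.asIdeal)
    (hbv : b ∈ v.asIdeal) :
    ∃ c : K → 𝓞 K ⧸ v.asIdeal,
      (∀ x : K, Pre (fun z : K => (F.map (algebraMap (𝓞 K) K)).eval z /
          algebraMap (𝓞 K) K b) x →
        av v x ≤ 1 ∧ (F.map (Ideal.Quotient.mk v.asIdeal)).eval (c x) = 0) ∧
      (∀ x y : K, Pre (fun z : K => (F.map (algebraMap (𝓞 K) K)).eval z /
          algebraMap (𝓞 K) K b) x →
        Pre (fun z : K => (F.map (algebraMap (𝓞 K) K)).eval z / algebraMap (𝓞 K) K b) y →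
        c x = c y → av v (x - y) < 1) ∧
      (∀ x y : K, Pre (fun z : K => (F.map (algebraMap (𝓞 K) K)).eval z /
          algebraMap (𝓞 K) K b) x →
        Pre (fun z : K => (F.map (algebraMap (𝓞 K) K)).eval z / algebraMap (𝓞 K) K b) y →
        c x = c y → (F.map (Ideal.Quotient.mk v.asIdeal)).derivative.eval (c x) ≠ 0 →
        av v (x - y) = av v (algebraMap (𝓞 K) K b) *
          av v ((F.map (algebraMap (𝓞 K) K)).eval x / algebraMap (𝓞 K) K b -
            (F.map (algebraMap (𝓞 K) K)).eval y / algebraMap (𝓞 K) K b)) := by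
  have hmax : v.asIdeal.IsMaximal := v.isMaximal
  have hprime : v.asIdeal.IsPrime := v.isPrime
  obtain ⟨a', ha'⟩ : ∃ a' : 𝓞 K, F.leadingCoeff * a' - 1 ∈ v.asIdeal := by
    obtain ⟨y, i, hi, hy⟩ := hmax.exists_inv hav
    refine ⟨y, ?_⟩
    have h1 : F.leadingCoeff * y - 1 = -i := by
      rw [← hy]; ring
    rw [h1]
    exact neg_mem hi
  have hchoice : ∀ x : K, ∃ y : 𝓞 K, Pre (LocalII.fm F b) x →
      algebraMap (𝓞 K) K y = algebraMap (𝓞 K) K F.leadingCoeff * x := by
    intro x
    by_cases hx : Pre (LocalII.fm F b) x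
    · obtain ⟨y, hy⟩ := LocalII.exists_int F b d hb hd hF hx
      exact ⟨y, fun _ => hy⟩
    · exact ⟨0, fun h => absurd h hx⟩
  choose Y hY using hchoice
  have hna := av_nonarch v
  have hφ := av_int_le_one v
  have hane : av v (algebraMap (𝓞 K) K F.leadingCoeff) = 1 := (av_int_eq_one v _).mpr hav
  have hblt : av v (algebraMap (𝓞 K) K b) < 1 := (av_int_lt_one v b).mpr hbv
  have hb0 : algebraMap (𝓞 K) K b ≠ 0 := by
    intro h0
    exact hb (RingOfIntegers.coe_injective (h0.trans (map_zero _).symm))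
  -- preperiodic points are integral at `v`
  have hle : ∀ x, Pre (LocalII.fm F b) x → av v x ≤ 1 := by
    intro x hx
    have h1 := congrArg (av v) (hY x hx)
    rw [map_mul, hane, one_mul] at h1
    rw [← h1]
    exact hφ _
  -- the representative
  have hrep : ∀ x, Pre (LocalII.fm F b) x →
      av v (x - algebraMap (𝓞 K) K (a' * Y x)) < 1 := by
    intro x hx
    have h1 : algebraMap (𝓞 K) K F.leadingCoeff * (x - algebraMap (𝓞 K) K (a' * Y x)) =
        algebraMap (𝓞 K) K (-((F.leadingCoeff * a' - 1) * Y x)) := by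
      simp only [map_neg, map_mul, map_sub, map_one]
      linear_combination -(hY x hx)
    have h2 := congrArg (av v) h1
    rw [map_mul, hane, one_mul] at h2
    rw [h2, av_int_lt_one]
    exact neg_mem (Ideal.mul_mem_right _ _ ha')
  have hmk : ∀ (P : (𝓞 K)[X]) (z : 𝓞 K),
      (P.map (Ideal.Quotient.mk v.asIdeal)).eval (Ideal.Quotient.mk v.asIdeal z) =
        Ideal.Quotient.mk v.asIdeal (P.eval z) := by
    intro P z
    rw [Polynomial.eval_map, Polynomial.eval₂_at_apply]
  have hal : ∀ (P : (𝓞 K)[X]) (z : 𝓞 K),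
      (P.map (algebraMap (𝓞 K) K)).eval (algebraMap (𝓞 K) K z) =
        algebraMap (𝓞 K) K (P.eval z) := by
    intro P z
    rw [Polynomial.eval_map, Polynomial.eval₂_at_apply]
  -- values at preperiodic points
  have hval : ∀ x, Pre (LocalII.fm F b) x →
      av v ((F.map (algebraMap (𝓞 K) K)).eval x) ≤ av v (algebraMap (𝓞 K) K b) := by
    intro x hx
    have h1 := hle _ hx.map
    have h2 : (F.map (algebraMap (𝓞 K) K)).eval x =
        LocalII.fm F b x * algebraMap (𝓞 K) K b := by
      unfold LocalII.fm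
      rw [div_mul_cancel₀ _ hb0]
    rw [h2, map_mul]
    exact mul_le_of_le_one_left ((av v).nonneg _) h1
  have hroot : ∀ x, Pre (LocalII.fm F b) x →
      (F.map (Ideal.Quotient.mk v.asIdeal)).eval
        (Ideal.Quotient.mk v.asIdeal (a' * Y x)) = 0 := by
    intro x hx
    rw [hmk, Ideal.Quotient.eq_zero_iff_mem, ← av_int_lt_one, ← hal]
    have h1 := LocalII.eval_sub_le (algebraMap (𝓞 K) K) (av v) hna hφ F (hle x hx)
      (hφ (a' * Y x))
    have h2 := h1.trans_lt (hrep x hx)
    have h3 := LocalII.sub_lt (av v) hna ((hval x hx).trans_lt hblt) h2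
    rwa [sub_sub_cancel] at h3
  have hsame : ∀ x y : K, Pre (LocalII.fm F b) x → Pre (LocalII.fm F b) y →
      Ideal.Quotient.mk v.asIdeal (a' * Y x) = Ideal.Quotient.mk v.asIdeal (a' * Y y) →
      av v (x - y) < 1 := by
    intro x y hx hy hxy
    have h1 : x - y = (x - algebraMap (𝓞 K) K (a' * Y x)) -
        (y - algebraMap (𝓞 K) K (a' * Y y)) -
        algebraMap (𝓞 K) K (a' * Y y - a' * Y x) := by
      rw [map_sub]; ring
    rw [h1]
    apply LocalII.sub_lt (av v) hna
    · exact LocalII.sub_lt (av v) hna (hrep x hx) (hrep y hy)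
    · rw [av_int_lt_one]
      exact Ideal.Quotient.eq.mp hxy.symm
  refine ⟨fun x => Ideal.Quotient.mk v.asIdeal (a' * Y x), ?_, ?_, ?_⟩
  · intro x hx
    exact ⟨hle x hx, hroot x hx⟩
  · intro x y hx hy hxy
    exact hsame x y hx hy hxy
  · intro x y hx hy hxy hder
    change Ideal.Quotient.mk v.asIdeal (a' * Y x) = Ideal.Quotient.mk v.asIdeal (a' * Y y) at hxy
    have hlt := hsame x y hx hy hxy
    change (derivative (F.map (Ideal.Quotient.mk v.asIdeal))).eval
      (Ideal.Quotient.mk v.asIdeal (a' * Y x)) ≠ 0 at hder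
    rw [hxy] at hder
    rw [Polynomial.derivative_map, hmk, Ne, Ideal.Quotient.eq_zero_iff_mem] at hder
    have h4 : av v ((F.derivative.map (algebraMap (𝓞 K) K)).eval y) = 1 := by
      have h5 := LocalII.eval_sub_le (algebraMap (𝓞 K) K) (av v) hna hφ F.derivative (hle y hy)
        (hφ (a' * Y y))
      have h6 := h5.trans_lt (hrep y hy)
      have h7 : (F.derivative.map (algebraMap (𝓞 K) K)).eval y =
          (F.derivative.map (algebraMap (𝓞 K) K)).eval (algebraMap (𝓞 K) K (a' * Y y)) +
          ((F.derivative.map (algebraMap (𝓞 K) K)).eval y -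
            (F.derivative.map (algebraMap (𝓞 K) K)).eval (algebraMap (𝓞 K) K (a' * Y y))) := by
        ring
      rw [h7]
      apply LocalII.add_eq_one (av v) hna _ h6
      rw [hal]
      exact (av_int_eq_one v _).mpr hder
    have h8 := LocalII.eval_sub_eq (algebraMap (𝓞 K) K) (av v) hna hφ F (hle x hx) (hle y hy)
      hlt h4
    rw [← h8, ← map_mul, ← sub_div, mul_div_cancel₀ _ hb0]

end Pool.Agent.GPoly
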