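import Mathlib

set_option autoImplicit false

/-!
# A polynomial of degree `d` over a field has not exactly `d - 1` distinct roots, all simple
-/

namespace Pool.Agent.GPoly

open Polynomial

namespace RootCountAux

open Classical in
lemma ncard_eq {k : Type*} [Field k] (p : k[X]) (hp : p ≠ 0) :
    {r : k | p.eval r = 0}.ncard = p.roots.toFinset.card := by
  rw [← Set.ncard_coe_finset]
  congr 1
  ext r
  simp [hp]

open Classical in
lemma card_eq_sum {k : Type*} [Field k] (p : k[X]) :
    Multiset.card p.roots = ∑ r ∈ p.roots.toFinset, p.rootMultiplicity r := by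
  rw [← Multiset.toFinset_sum_count_eq]
  refine Finset.sum_congr rfl fun r _ => ?_
  rw [count_roots]

end RootCountAux

open RootCountAux in
/-- If all roots of `p` in the field `k` are simple and `p` has fewer than `deg p` distinct roots
then it has at most `deg p - 2` distinct roots. -/
theorem ncard_roots_add_two_le {k : Type*} [Field k] (p : k[X]) (hp : p ≠ 0)
    (hs : ∀ r : k, p.eval r = 0 → p.derivative.eval r ≠ 0)
    (hlt : {r : k | p.eval r = 0}.ncard < p.natDegree) :
    {r : k | p.eval r = 0}.ncard + 2 ≤ p.natDegree := by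
  classical
  rw [ncard_eq p hp] at hlt ⊢
  have h1 : Multiset.card p.roots = p.roots.toFinset.card := by
    rw [card_eq_sum, Finset.card_eq_sum_ones]
    refine Finset.sum_congr rfl fun r hr => ?_
    have hr' : p.IsRoot r := by
      rw [Multiset.mem_toFinset, mem_roots hp] at hr
      exact hr
    have h2 : ¬ 1 < p.rootMultiplicity r := by
      rw [one_lt_rootMultiplicity_iff_isRoot hp]
      exact fun h => hs r hr' h.2
    have h3 : 0 < p.rootMultiplicity r := (rootMultiplicity_pos hp).mpr hr'
    omega
  obtain ⟨q, hq, hdeg, hroots⟩ := exists_prod_multiset_X_sub_C_mul p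
  by_contra hcon
  have hq1 : q.natDegree = 1 := by omega
  have hq0 : q ≠ 0 := by
    rintro rfl
    simp at hq1
  obtain ⟨r, hr⟩ := exists_root_of_degree_eq_one (degree_eq_iff_natDegree_eq hq0 |>.mpr hq1)
  have : r ∈ q.roots := (mem_roots hq0).mpr hr
  rw [hroots] at this
  simp at this

open RootCountAux in
/-- If `p` has exactly `deg p - 1` distinct roots then exactly one of them is not simple. -/
theorem exists_unique_double {k : Type*} [Field k] (p : k[X]) (hp : p ≠ 0)
    (hlt : {r : k | p.eval r = 0}.ncard + 1 = p.natDegree) :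
    ∃ s : k, ∀ r : k, p.eval r = 0 → r ≠ s → p.derivative.eval r ≠ 0 := by
  classical
  rw [ncard_eq p hp] at hlt
  by_cases hex : ∃ s : k, 1 < p.rootMultiplicity s
  · obtain ⟨s, hs⟩ := hex
    refine ⟨s, fun r hr hrs hd => ?_⟩
    have hr1 : 1 < p.rootMultiplicity r := (one_lt_rootMultiplicity_iff_isRoot hp).mpr ⟨hr, hd⟩
    have hmem : ∀ t : k, t ∈ p.roots.toFinset ↔ 0 < p.rootMultiplicity t := by
      intro t
      rw [Multiset.mem_toFinset, mem_roots hp, rootMultiplicity_pos hp]
    have hrm := (hmem r).mpr (by omega)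
    have hsm := (hmem s).mpr (by omega)
    have h1 : Multiset.card p.roots ≤ p.natDegree := card_roots' p
    rw [card_eq_sum] at h1
    have h2 : s ∈ p.roots.toFinset.erase r := Finset.mem_erase.mpr ⟨fun h => hrs h.symm, hsm⟩
    rw [← Finset.add_sum_erase _ _ hrm, ← Finset.add_sum_erase _ _ h2] at h1
    have h3 : ((p.roots.toFinset.erase r).erase s).card ≤
        ∑ t ∈ (p.roots.toFinset.erase r).erase s, p.rootMultiplicity t := by
      rw [Finset.card_eq_sum_ones]
      refine Finset.sum_le_sum fun t ht => ?_
      exact (hmem t).mp (Finset.mem_of_mem_erase (Finset.mem_of_mem_erase ht))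
    rw [Finset.card_erase_of_mem h2, Finset.card_erase_of_mem hrm] at h3
    omega
  · refine ⟨0, fun r hr _ hd => hex ⟨r, (one_lt_rootMultiplicity_iff_isRoot hp).mpr ⟨hr, hd⟩⟩⟩

end Pool.Agent.GPoly
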