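import Pool.Agent.GPoly.Base

set_option autoImplicit false

/-!
# L3: the places of type II, energy bound from a colouring
-/

namespace Pool.Agent.GPoly

/-- If the points of `T` have at most `e` colours, `|x - y| ≤ 1` for all `x, y` in `T` and
`|x - y| ≤ exp (-w)` if `x ≠ y` have the same colour, then the energy is at most
`- w (m ^ 2 / e - m)`, `m` the number of points. -/
theorem typeII_bound {K : Type*} [Field K] [DecidableEq K] (abv : AbsoluteValue K ℝ)
    {ι : Type*} [DecidableEq ι] (c : K → ι) (T : Finset K) (w : ℝ) (hw : 0 ≤ w) (e : ℕ)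
    (he : 1 ≤ e) (hc : (T.image c).card ≤ e)
    (h1 : ∀ x ∈ T, ∀ y ∈ T, x ≠ y → abv (x - y) ≤ 1)
    (h2 : ∀ x ∈ T, ∀ y ∈ T, x ≠ y → c x = c y → abv (x - y) ≤ Real.exp (-w)) :
    En abv T ≤ -(w * ((T.card : ℝ) ^ 2 / e - T.card)) := by
  classical
  -- the number of ordered pairs of the same colour
  set n : ι → ℕ := fun i => (T.filter fun x => c x = i).card with hn
  have hsum : ∑ i ∈ T.image c, n i = T.card :=
    (Finset.card_eq_sum_card_image c T).symm
  have hsame : ((T ×ˢ T).filter fun p => c p.1 = c p.2).card = ∑ i ∈ T.image c, n i ^ 2 := by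
    have h3 : ((T ×ˢ T).filter fun p => c p.1 = c p.2) =
        (T.image c).biUnion fun i =>
          (T.filter fun x => c x = i) ×ˢ (T.filter fun x => c x = i) := by
      ext p
      simp only [Finset.mem_filter, Finset.mem_product, Finset.mem_biUnion, Finset.mem_image]
      constructor
      · rintro ⟨⟨h4, h5⟩, h6⟩
        exact ⟨c p.1, ⟨p.1, h4, rfl⟩, ⟨h4, rfl⟩, h5, h6.symm⟩
      · rintro ⟨i, -, ⟨h4, h5⟩, h6, h7⟩
        exact ⟨⟨h4, h6⟩, h5.trans h7.symm⟩
    rw [h3, Finset.card_biUnion]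
    · refine Finset.sum_congr rfl fun i _ => ?_
      rw [Finset.card_product, sq]
    · intro i _ j _ hij
      rw [Function.onFun, Finset.disjoint_left]
      intro p hp hp'
      simp only [Finset.mem_product, Finset.mem_filter] at hp hp'
      exact hij (hp.1.2.symm.trans hp'.1.2)
  have hcs : (T.card : ℝ) ^ 2 ≤ e * ∑ i ∈ T.image c, (n i : ℝ) ^ 2 := by
    have h3 := sq_sum_le_card_mul_sum_sq (s := T.image c) (f := fun i => (n i : ℝ))
    have h4 : (∑ i ∈ T.image c, (n i : ℝ)) = T.card := by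
      rw [← hsum]; push_cast; rfl
    rw [h4] at h3
    refine h3.trans (mul_le_mul_of_nonneg_right (by exact_mod_cast hc) ?_)
    exact Finset.sum_nonneg fun i _ => sq_nonneg _
  have hoff : (((T.offDiag).filter fun p => c p.1 = c p.2).card : ℝ) + T.card =
      ∑ i ∈ T.image c, (n i : ℝ) ^ 2 := by
    have h3 : ((T ×ˢ T).filter fun p => c p.1 = c p.2).card =
        ((T.offDiag).filter fun p => c p.1 = c p.2).card + T.card := by
      have h4 : ((T ×ˢ T).filter fun p => c p.1 = c p.2) =
          ((T.offDiag).filter fun p => c p.1 = c p.2) ∪ T.diag := by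
        ext p
        simp only [Finset.mem_filter, Finset.mem_product, Finset.mem_union, Finset.mem_offDiag,
          Finset.mem_diag]
        constructor
        · rintro ⟨⟨h5, h6⟩, h7⟩
          by_cases h8 : p.1 = p.2
          · exact Or.inr ⟨h5, h8⟩
          · exact Or.inl ⟨⟨h5, h6, h8⟩, h7⟩
        · rintro (⟨⟨h5, h6, -⟩, h7⟩ | ⟨h5, h6⟩)
          · exact ⟨⟨h5, h6⟩, h7⟩
          · exact ⟨⟨h5, h6 ▸ h5⟩, by rw [h6]⟩
      rw [h4, Finset.card_union_of_disjoint, Finset.diag_card]
      rw [Finset.disjoint_left]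
      intro p hp hp'
      simp only [Finset.mem_filter, Finset.mem_offDiag] at hp
      rw [Finset.mem_diag] at hp'
      exact hp.1.2.2 hp'.2
    rw [hsame] at h3
    exact_mod_cast h3.symm
  have heR : (0 : ℝ) < e := by exact_mod_cast he
  have hkey : (T.card : ℝ) ^ 2 / e - T.card ≤
      (((T.offDiag).filter fun p => c p.1 = c p.2).card : ℝ) := by
    rw [← hoff] at hcs
    have h3 : (T.card : ℝ) ^ 2 / e ≤
        (((T.offDiag).filter fun p => c p.1 = c p.2).card : ℝ) + T.card := by
      rw [div_le_iff₀ heR, mul_comm]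
      exact hcs
    linarith
  -- the energy
  have hE : En abv T ≤ ∑ p ∈ T.offDiag, (if c p.1 = c p.2 then -w else 0) := by
    unfold En
    refine Finset.sum_le_sum fun p hp => ?_
    rw [Finset.mem_offDiag] at hp
    have hpos : 0 < abv (p.1 - p.2) := abv.pos (sub_ne_zero.mpr hp.2.2)
    split_ifs with h3
    · rw [Real.log_le_iff_le_exp hpos]
      exact h2 _ hp.1 _ hp.2.1 hp.2.2 h3
    · exact Real.log_nonpos hpos.le (h1 _ hp.1 _ hp.2.1 hp.2.2)
  have hS : ∑ p ∈ T.offDiag, (if c p.1 = c p.2 then -w else 0) =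
      -(w * (((T.offDiag).filter fun p => c p.1 = c p.2).card : ℝ)) := by
    rw [← Finset.sum_filter, Finset.sum_const, nsmul_eq_mul]
    ring
  rw [hS] at hE
  refine hE.trans (neg_le_neg (mul_le_mul_of_nonneg_left hkey hw))

end Pool.Agent.GPoly
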