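import Pool.Agent.GPoly.Vander

set_option autoImplicit false

/-!
# The places with `p ∤ a`, `p ∥ b` where `F mod p` has `d - 1` distinct roots, one of them double
-/

namespace Pool.Agent.GPoly

open Polynomial

/-- the pairs of the same colour carry the energy -/
theorem typeIII_split {K : Type*} [Field K] [DecidableEq K] (abv : AbsoluteValue K ℝ)
    {ι : Type*} [DecidableEq ι] (c : K → ι) (T : Finset K)
    (h1 : ∀ x ∈ T, ∀ y ∈ T, abv (x - y) ≤ 1) :
    En abv T ≤ ∑ θ ∈ T.image c, En abv (T.filter fun x => c x = θ) := by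
  unfold En
  rw [← Finset.sum_filter_add_sum_filter_not T.offDiag (fun p => c p.1 = c p.2)]
  have hneg : ∑ p ∈ T.offDiag.filter (fun p => ¬ c p.1 = c p.2),
      Real.log (abv (p.1 - p.2)) ≤ 0 := by
    refine Finset.sum_nonpos fun p hp => ?_
    rw [Finset.mem_filter, Finset.mem_offDiag] at hp
    exact Real.log_nonpos (abv.nonneg _) (h1 _ hp.1.1 _ hp.1.2.1)
  have hmaps : ∀ p ∈ T.offDiag.filter (fun p => c p.1 = c p.2), c p.1 ∈ T.image c := by
    intro p hp
    rw [Finset.mem_filter, Finset.mem_offDiag] at hp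
    exact Finset.mem_image_of_mem _ hp.1.1
  have hfib := Finset.sum_fiberwise_of_maps_to hmaps (fun p => Real.log (abv (p.1 - p.2)))
  rw [← hfib]
  have heq : ∀ θ ∈ T.image c,
      ∑ p ∈ (T.offDiag.filter (fun p => c p.1 = c p.2)).filter (fun p => c p.1 = θ),
        Real.log (abv (p.1 - p.2)) =
      ∑ p ∈ (T.filter fun x => c x = θ).offDiag, Real.log (abv (p.1 - p.2)) := by
    intro θ _
    refine Finset.sum_congr ?_ fun _ _ => rfl
    ext p
    simp only [Finset.mem_filter, Finset.mem_offDiag]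
    constructor
    · rintro ⟨⟨⟨h1, h2, h3⟩, h4⟩, h5⟩
      exact ⟨⟨h1, h5⟩, ⟨h2, h4 ▸ h5⟩, h3⟩
    · rintro ⟨⟨h1, h2⟩, ⟨h3, h4⟩, h5⟩
      exact ⟨⟨⟨h1, h3, h5⟩, h2.trans h4.symm⟩, h2⟩
  rw [Finset.sum_congr rfl heq]
  linarith

theorem typeIII_card_offDiag {K : Type*} [DecidableEq K] (U : Finset K) :
    ((U.offDiag.card : ℕ) : ℝ) = (U.card : ℝ) * (U.card - 1) := by
  rw [Finset.offDiag_card]
  have : U.card ≤ U.card * U.card := by nlinarith [Nat.zero_le U.card]
  push_cast [Nat.cast_sub this]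
  ring

/-- a class of close points -/
theorem typeIII_close {K : Type*} [Field K] [DecidableEq K] (abv : AbsoluteValue K ℝ)
    (U : Finset K) (w : ℝ) (h2 : ∀ x ∈ U, ∀ y ∈ U, x ≠ y → abv (x - y) ≤ Real.exp (-w)) :
    En abv U ≤ -(w * ((U.card : ℝ) * (U.card - 1))) := by
  unfold En
  have h : ∀ p ∈ U.offDiag, Real.log (abv (p.1 - p.2)) ≤ -w := by
    intro p hp
    rw [Finset.mem_offDiag] at hp
    have hpos : 0 < abv (p.1 - p.2) := abv.pos (sub_ne_zero.2 hp.2.2)
    calc Real.log (abv (p.1 - p.2)) ≤ Real.log (Real.exp (-w)) :=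
          Real.log_le_log hpos (h2 _ hp.1 _ hp.2.1 hp.2.2)
      _ = -w := Real.log_exp _
  refine (Finset.sum_le_sum h).trans (le_of_eq ?_)
  rw [Finset.sum_const, nsmul_eq_mul, typeIII_card_offDiag]
  ring

/-- a class of points on which `f` is an expansion by `exp w` -/
theorem typeIII_expand {K : Type*} [Field K] [DecidableEq K] (abv : AbsoluteValue K ℝ)
    (F : K → K) (U : Finset K) (w : ℝ)
    (h3 : ∀ x ∈ U, ∀ y ∈ U, x ≠ y → abv (x - y) = Real.exp (-w) * abv (F x - F y)) :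
    (U.image F).card = U.card ∧
      En abv U = -(w * ((U.card : ℝ) * (U.card - 1))) + En abv (U.image F) := by
  have hinj : Set.InjOn F U := by
    intro x hx y hy hxy
    by_contra hne
    have h := h3 x hx y hy hne
    rw [hxy, sub_self, abv.map_zero, mul_zero] at h
    exact hne (sub_eq_zero.1 (abv.eq_zero.1 h))
  refine ⟨Finset.card_image_of_injOn hinj, ?_⟩
  unfold En
  have h : ∀ p ∈ U.offDiag, Real.log (abv (p.1 - p.2)) =
      -w + Real.log (abv (F p.1 - F p.2)) := by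
    intro p hp
    rw [Finset.mem_offDiag] at hp
    have hne : F p.1 ≠ F p.2 := fun h => hp.2.2 (hinj hp.1 hp.2.1 h)
    rw [h3 _ hp.1 _ hp.2.1 hp.2.2, Real.log_mul (Real.exp_pos _).ne'
      (abv.pos (sub_ne_zero.2 hne)).ne', Real.log_exp]
  rw [Finset.sum_congr rfl h, Finset.sum_add_distrib, Finset.sum_const, nsmul_eq_mul,
    typeIII_card_offDiag]
  have hb : ∑ p ∈ U.offDiag, Real.log (abv (F p.1 - F p.2)) =
      ∑ p ∈ (U.image F).offDiag, Real.log (abv (p.1 - p.2)) := by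
    refine Finset.sum_nbij (fun p => (F p.1, F p.2)) ?_ ?_ ?_ ?_
    · intro p hp
      rw [Finset.mem_offDiag] at hp ⊢
      exact ⟨Finset.mem_image_of_mem _ hp.1, Finset.mem_image_of_mem _ hp.2.1,
        fun h => hp.2.2 (hinj hp.1 hp.2.1 h)⟩
    · intro p hp q hq hpq
      rw [Finset.mem_coe, Finset.mem_offDiag] at hp hq
      simp only [Prod.mk.injEq] at hpq
      exact Prod.ext (hinj hp.1 hq.1 hpq.1) (hinj hp.2.1 hq.2.1 hpq.2)
    · rintro ⟨u, v⟩ huv
      rw [Finset.mem_coe, Finset.mem_offDiag] at huv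
      obtain ⟨x, hx, hxu⟩ := Finset.mem_image.1 huv.1
      obtain ⟨y, hy, hyv⟩ := Finset.mem_image.1 huv.2.1
      refine ⟨(x, y), ?_, ?_⟩
      · rw [Finset.mem_coe, Finset.mem_offDiag]
        refine ⟨hx, hy, fun h => huv.2.2 ?_⟩
        exact hxu.symm.trans ((congrArg F h).trans hyv)
      · simp only [hxu, hyv]
    · intro p _
      rfl
  rw [hb]
  ring

theorem typeIII_sg_mono (d : ℕ) {m n : ℕ} (h : m ≤ n) : sg d m ≤ sg d n :=
  Finset.sum_le_sum_of_subset (Finset.range_mono h)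

/-- `g = F / b`, `|b| = exp (-w)`, leading coefficient of `F` a unit.  The preperiodic points
`x ∈ T` have at most `d - 1` colours; `|x - y| ≤ 1` for all of them, `|x - y| ≤ exp (-w)` for two of
the same colour, and `|x - y| = exp (-w) |f(x) - f(y)|` if this colour is not `s`. -/
theorem typeIII_bound {K : Type*} [Field K] [DecidableEq K] (abv : AbsoluteValue K ℝ)
    (hna : IsNonarchimedean abv) (f : K[X]) (d : ℕ) (hd : 3 ≤ d) (hf : f.natDegree = d) (w : ℝ)
    (hw : 0 < w) (hlead : abv f.leadingCoeff = Real.exp w) (P : K → Prop)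
    (hP : ∀ x, P x → P (f.eval x)) (hP1 : ∀ x, P x → abv x ≤ 1) {ι : Type*} [DecidableEq ι]
    (c : K → ι) (s : ι) (T : Finset K) (hT : ∀ x ∈ T, P x) (hc : (T.image c).card ≤ d - 1)
    (h2 : ∀ x ∈ T, ∀ y ∈ T, x ≠ y → c x = c y → abv (x - y) ≤ Real.exp (-w))
    (h3 : ∀ x ∈ T, ∀ y ∈ T, x ≠ y → c x = c y → c x ≠ s →
      abv (x - y) = Real.exp (-w) * abv (f.eval x - f.eval y)) :
    En abv T ≤ -(w * (d / (d ^ 2 - 2 * d + 2)) * (T.card : ℝ) ^ 2) +
      (2 * sg d T.card + 2 * T.card) * w := by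
  have hd' : (3 : ℝ) ≤ d := by exact_mod_cast hd
  have hd0 : (0 : ℝ) < d := by linarith
  have hd1 : (0 : ℝ) < (d : ℝ) - 1 := by linarith
  -- all distances are at most one
  have h1 : ∀ x ∈ T, ∀ y ∈ T, abv (x - y) ≤ 1 := by
    intro x hx y hy
    have h := hna x (-y)
    rw [← sub_eq_add_neg, abv.map_neg] at h
    exact h.trans (max_le (hP1 x (hT x hx)) (hP1 y (hT y hy)))
  have hsplit := typeIII_split abv c T h1
  set m : ι → ℝ := fun θ => ((T.filter fun x => c x = θ).card : ℝ) with hm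
  have hm0 : ∀ θ, 0 ≤ m θ := fun θ => Nat.cast_nonneg _
  -- the bound for one colour
  have hone : ∀ θ ∈ T.image c, En abv (T.filter fun x => c x = θ) ≤
      -(w * ((if θ = s then 1 else (d : ℝ) / (d - 1)) * m θ ^ 2)) +
      w * ((d : ℝ) / (d - 1)) * m θ + 2 * sg d T.card * w / (d - 1) := by
    intro θ _
    set U := T.filter fun x => c x = θ with hU
    have hUT : ∀ x ∈ U, x ∈ T ∧ c x = θ := fun x hx => Finset.mem_filter.1 hx
    have hsg0 : (0 : ℝ) ≤ sg d T.card := Nat.cast_nonneg _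
    have hmU : m θ = (U.card : ℝ) := rfl
    have hq1 : 1 ≤ (d : ℝ) / (d - 1) := by
      rw [le_div_iff₀ hd1]; linarith
    by_cases hθ : θ = s
    · rw [if_pos hθ]
      have h := typeIII_close abv U w (fun x hx y hy hne =>
        h2 x (hUT x hx).1 y (hUT y hy).1 hne ((hUT x hx).2.trans (hUT y hy).2.symm))
      rw [← hmU] at h
      have h4 : w * m θ ≤ w * ((d : ℝ) / (d - 1)) * m θ := by
        have : w * m θ * 1 ≤ w * m θ * ((d : ℝ) / (d - 1)) :=
          mul_le_mul_of_nonneg_left hq1 (mul_nonneg hw.le (hm0 θ))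
        linarith
      have h5 : 0 ≤ 2 * sg d T.card * w / (d - 1) := by positivity
      nlinarith
    · rw [if_neg hθ]
      obtain ⟨hcard, hen⟩ := typeIII_expand abv (fun x => f.eval x) U w
        (fun x hx y hy hne => h3 x (hUT x hx).1 y (hUT y hy).1 hne
          ((hUT x hx).2.trans (hUT y hy).2.symm) (by rw [(hUT x hx).2]; exact hθ))
      have hv := vander_bound abv hna f d (by omega) hf P hP 0
        (fun x hx => by rw [Real.exp_zero]; exact hP1 x hx) (U.image fun x => f.eval x) (by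
          intro y hy
          obtain ⟨x, hx, rfl⟩ := Finset.mem_image.1 hy
          exact hP x (hT x (hUT x hx).1))
      rw [hcard, hlead, Real.log_exp] at hv
      rw [hen]
      have hsg : (sg d U.card : ℝ) ≤ sg d T.card := by
        exact_mod_cast typeIII_sg_mono d (Finset.card_le_card (Finset.filter_subset _ _))
      rw [← hmU] at hv ⊢
      have h6 : 2 * (sg d U.card : ℝ) * w / (d - 1) ≤ 2 * sg d T.card * w / (d - 1) := by
        gcongr
      have e1 : 2 * (sg d U.card : ℝ) * (0 - -w / (d - 1)) = 2 * sg d U.card * w / (d - 1) := by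
        ring
      rw [e1] at hv
      have e2 : -(w * (m θ * (m θ - 1))) + m θ * (m θ - 1) * (-w / (d - 1)) =
          -(w * ((d : ℝ) / (d - 1) * m θ ^ 2)) + w * ((d : ℝ) / (d - 1)) * m θ := by
        field_simp
        ring
      linarith
  have hsum := Finset.sum_le_sum hone
  rw [Finset.sum_add_distrib, Finset.sum_add_distrib, Finset.sum_const, nsmul_eq_mul,
    ← Finset.mul_sum, Finset.sum_neg_distrib, ← Finset.mul_sum] at hsum
  -- the number of points
  have hcardT : ∑ θ ∈ T.image c, m θ = T.card := by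
    have := Finset.card_eq_sum_card_image c T
    rw [this]
    push_cast
    rfl
  rw [hcardT] at hsum
  -- the number of colours
  have hcol : ((T.image c).card : ℝ) ≤ d - 1 := by
    have h : (T.image c).card + 1 ≤ d := by omega
    have h' : ((T.image c).card : ℝ) + 1 ≤ d := by exact_mod_cast h
    linarith
  -- Cauchy-Schwarz
  have hcs : (∑ θ ∈ T.image c, m θ) ^ 2 ≤
      (∑ θ ∈ T.image c, (((d : ℝ) - 1) / d + if θ = s then 1 / (d : ℝ) else 0)) *
        ∑ θ ∈ T.image c, (if θ = s then 1 else (d : ℝ) / (d - 1)) * m θ ^ 2 := by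
    refine Finset.sum_sq_le_sum_mul_sum_of_sq_le_mul _ ?_ ?_ ?_
    · intro θ _
      split_ifs <;> positivity
    · intro θ _
      split_ifs <;> positivity
    · intro θ _
      apply le_of_eq
      split_ifs
      · field_simp
        ring
      · field_simp
        ring
  rw [hcardT] at hcs
  set Q := ∑ θ ∈ T.image c, (if θ = s then 1 else (d : ℝ) / (d - 1)) * m θ ^ 2 with hQ
  have hQ0 : 0 ≤ Q := Finset.sum_nonneg fun θ _ => by split_ifs <;> positivity
  have hS : (∑ θ ∈ T.image c, (((d : ℝ) - 1) / d + if θ = s then 1 / (d : ℝ) else 0)) ≤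
      ((d : ℝ) ^ 2 - 2 * d + 2) / d := by
    rw [Finset.sum_add_distrib, Finset.sum_const, nsmul_eq_mul]
    have h7 : ∑ θ ∈ T.image c, (if θ = s then 1 / (d : ℝ) else 0) ≤ 1 / d := by
      rw [Finset.sum_ite_eq']
      split_ifs
      · exact le_rfl
      · positivity
    have h8 : ((T.image c).card : ℝ) * (((d : ℝ) - 1) / d) ≤ ((d : ℝ) - 1) * (((d : ℝ) - 1) / d) :=
      mul_le_mul_of_nonneg_right hcol (by positivity)
    have h9 : ((d : ℝ) - 1) * (((d : ℝ) - 1) / d) + 1 / d = ((d : ℝ) ^ 2 - 2 * d + 2) / d := by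
      field_simp
      ring
    linarith
  have hden : (0 : ℝ) < (d : ℝ) ^ 2 - 2 * d + 2 := by nlinarith
  have hQ1 : (d / (d ^ 2 - 2 * d + 2)) * (T.card : ℝ) ^ 2 ≤ Q := by
    have h10 : (T.card : ℝ) ^ 2 ≤ ((d : ℝ) ^ 2 - 2 * d + 2) / d * Q :=
      hcs.trans (mul_le_mul_of_nonneg_right hS hQ0)
    calc (d / ((d : ℝ) ^ 2 - 2 * d + 2)) * (T.card : ℝ) ^ 2
        ≤ (d / ((d : ℝ) ^ 2 - 2 * d + 2)) * (((d : ℝ) ^ 2 - 2 * d + 2) / d * Q) :=
          mul_le_mul_of_nonneg_left h10 (by positivity)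
      _ = Q := by
          rw [← mul_assoc, div_mul_div_cancel₀ hden.ne', div_self hd0.ne', one_mul]
  have hq2 : (d : ℝ) / (d - 1) ≤ 2 := by
    rw [div_le_iff₀ hd1]; linarith
  have h11 : w * ((d : ℝ) / (d - 1)) * T.card ≤ 2 * T.card * w := by
    have : w * T.card * ((d : ℝ) / (d - 1)) ≤ w * T.card * 2 :=
      mul_le_mul_of_nonneg_left hq2 (by positivity)
    linarith
  have h12 : ((T.image c).card : ℝ) * (2 * sg d T.card * w / (d - 1)) ≤ 2 * sg d T.card * w := by
    calc ((T.image c).card : ℝ) * (2 * sg d T.card * w / (d - 1))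
        ≤ ((d : ℝ) - 1) * (2 * sg d T.card * w / (d - 1)) :=
          mul_le_mul_of_nonneg_right hcol (by positivity)
      _ = 2 * sg d T.card * w := by field_simp
  have h13 : w * ((d / (d ^ 2 - 2 * d + 2)) * (T.card : ℝ) ^ 2) ≤ w * Q :=
    mul_le_mul_of_nonneg_left hQ1 hw.le
  calc En abv T ≤ ∑ θ ∈ T.image c, En abv (T.filter fun x => c x = θ) := hsplit
    _ ≤ -(w * Q) + w * ((d : ℝ) / (d - 1)) * T.card +
        ((T.image c).card : ℝ) * (2 * sg d T.card * w / (d - 1)) := hsum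
    _ ≤ -(w * (d / (d ^ 2 - 2 * d + 2)) * (T.card : ℝ) ^ 2) +
      (2 * sg d T.card + 2 * T.card) * w := by
        have e3 : w * (d / ((d : ℝ) ^ 2 - 2 * d + 2)) * (T.card : ℝ) ^ 2 =
          w * ((d / ((d : ℝ) ^ 2 - 2 * d + 2)) * (T.card : ℝ) ^ 2) := by ring
        rw [e3]
        linarith

end Pool.Agent.GPoly
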