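import Pool.Agent.GPoly.Escape

set_option autoImplicit false

/-!
# L2: the places of type I, the gap in the absolute values
-/

namespace Pool.Agent.GPoly

open Polynomial

/-- If `1 < |x| < |a|⁻¹` and `a_{d-1}` is a unit then `|F(x)| = |x| ^ (d - 1)`. -/
private theorem typeIa_eval {K : Type*} [Field K] (abv : AbsoluteValue K ℝ)
    (hna : IsNonarchimedean abv) (F : K[X]) (d : ℕ) (hd : 3 ≤ d) (hF : F.natDegree = d)
    (hcoef : ∀ i, abv (F.coeff i) ≤ 1) (hu : abv (F.coeff (d - 1)) = 1) (x : K)
    (h1 : 1 < abv x) (h2 : abv F.leadingCoeff * abv x < 1) :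
    abv (F.eval x) = abv x ^ (d - 1) := by
  have h0 : 0 < abv x := by linarith
  rw [eval_eq_sum_range, hF]
  have key := IsNonarchimedean.apply_sum_eq_of_lt (f := abv) hna
    (fun a => (AbsoluteValue.map_neg abv a).symm) (s := Finset.range (d + 1))
    (l := fun i => F.coeff i * x ^ i) (k := d - 1) (Finset.mem_range.2 (by omega)) ?_
  · rw [key, map_mul, map_pow, hu, one_mul]
  · intro j hj hjd
    rw [map_mul, map_mul, map_pow, map_pow, hu, one_mul]
    rw [Finset.mem_range] at hj
    by_cases hjd' : j = d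
    · subst hjd'
      have hlc : abv (F.coeff j) = abv F.leadingCoeff := by rw [leadingCoeff, hF]
      rw [hlc]
      have hpow : abv x ^ j = abv x * abv x ^ (j - 1) := by
        rw [← pow_succ']
        congr 1
        omega
      rw [hpow, ← mul_assoc]
      have : 0 < abv x ^ (j - 1) := by positivity
      nlinarith
    · have hlt : j < d - 1 := by omega
      calc abv (F.coeff j) * abv x ^ j ≤ 1 * abv x ^ j :=
            mul_le_mul_of_nonneg_right (hcoef j) (by positivity)
        _ = abv x ^ j := one_mul _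
        _ < abv x ^ (d - 1) := pow_lt_pow_right₀ h1 hlt

/-- At a place of type I there is no preperiodic point with `1 < |x| < |a|⁻¹`.
Here `|K^*| = exp (ℤ l)`, `|a| = exp (- α l)`, `α ≥ 1`, and either `α = 1`, or the coefficient
`a_{d-1}` is a unit and `d - 1` does not divide `α`. -/
theorem typeI_gap {K : Type*} [Field K] (abv : AbsoluteValue K ℝ) (hna : IsNonarchimedean abv)
    (F : K[X]) (b : K) (d : ℕ) (hd : 3 ≤ d) (hF : F.natDegree = d)
    (hcoef : ∀ i, abv (F.coeff i) ≤ 1) (hb : abv b = 1) (l : ℝ) (hl : 0 < l)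
    (hdisc : ∀ x : K, x ≠ 0 → ∃ n : ℤ, abv x = Real.exp (-(n * l))) (α : ℕ) (hα : 1 ≤ α)
    (ha : abv F.leadingCoeff = Real.exp (-(α * l)))
    (hI : α = 1 ∨ (abv (F.coeff (d - 1)) = 1 ∧ ¬ (d - 1) ∣ α)) (x : K)
    (hx : Pre (fun z => F.eval z / b) x) : abv x ≤ 1 ∨ abv x = Real.exp (α * l) := by
  have hb0 : b ≠ 0 := by
    rintro rfl
    simp at hb
  -- escape
  have hesc : ∀ y : K, Pre (fun z => F.eval z / b) y → abv y ≤ Real.exp (α * l) := by
    intro y hy
    have := escape abv hna F b d (by omega) hF hcoef hb0 hb.le y hy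
    rwa [ha, ← Real.exp_neg, neg_neg] at this
  -- no point strictly between
  have main : ∀ k : ℕ, ∀ j : ℕ, α ≤ k + j → 0 < j → j < α → ∀ y : K,
      Pre (fun z => F.eval z / b) y → abv y = Real.exp (j * l) → False := by
    intro k
    induction k with
    | zero => intro j h1 h2 h3; omega
    | succ k ih =>
      intro j h1 h2 h3 y hy hyj
      rcases hI with hα1 | ⟨hu, hdvd⟩
      · omega
      have hjR : (1 : ℝ) ≤ j := by exact_mod_cast h2
      have hy1 : 1 < abv y := by
        rw [hyj]
        exact Real.one_lt_exp_iff.2 (by positivity)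
      have hy2 : abv F.leadingCoeff * abv y < 1 := by
        rw [ha, hyj, ← Real.exp_add, Real.exp_lt_one_iff]
        have : (j : ℝ) < α := by exact_mod_cast h3
        nlinarith
      have hev := typeIa_eval abv hna F d hd hF hcoef hu y hy1 hy2
      have hfy : abv (F.eval y / b) = Real.exp (((d - 1) * j : ℕ) * l) := by
        rw [map_div₀, hb, div_one, hev, hyj, ← Real.exp_nat_mul]
        congr 1
        push_cast
        ring
      have hpre : Pre (fun z => F.eval z / b) (F.eval y / b) := hy.map
      have hle : (d - 1) * j ≤ α := by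
        have h4 := hesc _ hpre
        rw [hfy, Real.exp_le_exp] at h4
        have h5 : (((d - 1) * j : ℕ) : ℝ) ≤ α := le_of_mul_le_mul_right h4 hl
        exact_mod_cast h5
      have hne : (d - 1) * j ≠ α := fun h => hdvd ⟨j, h.symm⟩
      have hlt : (d - 1) * j < α := lt_of_le_of_ne hle hne
      have hgt : 2 * j ≤ (d - 1) * j := Nat.mul_le_mul_right j (by omega)
      exact ih ((d - 1) * j) (by omega) (by omega) hlt (F.eval y / b) hpre hfy
  by_cases h1 : abv x ≤ 1
  · exact Or.inl h1
  right
  push Not at h1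
  have hx0 : x ≠ 0 := by
    rintro rfl
    simp at h1
    linarith
  obtain ⟨n, hn⟩ := hdisc x hx0
  have hn' : abv x = Real.exp (((-n : ℤ) : ℝ) * l) := by
    rw [hn]; congr 1; push_cast; ring
  have hpos : 0 < -n := by
    rw [hn', Real.one_lt_exp_iff] at h1
    have h2 : (0 : ℝ) < ((-n : ℤ) : ℝ) := by
      by_contra hcon
      push Not at hcon
      nlinarith
    exact_mod_cast h2
  obtain ⟨j, hj⟩ : ∃ j : ℕ, -n = j := ⟨(-n).toNat, (Int.toNat_of_nonneg hpos.le).symm⟩
  rw [hj] at hn'
  have hn'' : abv x = Real.exp ((j : ℝ) * l) := by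
    rw [hn']; norm_cast
  have hj0 : 0 < j := by omega
  have hle : j ≤ α := by
    have h4 := hesc x hx
    rw [hn'', Real.exp_le_exp] at h4
    have h5 : ((j : ℕ) : ℝ) ≤ α := le_of_mul_le_mul_right h4 hl
    exact_mod_cast h5
  rcases Nat.lt_or_ge j α with hlt | hge
  · exact (main α j (by omega) hj0 hlt x hx hn'').elim
  · have : j = α := le_antisymm hle hge
    rw [hn'', this]

end Pool.Agent.GPoly
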