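import Pool.Agent.GPoly.Escape

set_option autoImplicit false

/-!
# L2: the places of type I, pairs of points
-/

namespace Pool.Agent.GPoly

open Polynomial

namespace TypeIbAux

lemma sum_le {K : Type*} [Field K] {abv : AbsoluteValue K ℝ} (hna : IsNonarchimedean abv)
    (s : Finset ℕ) (l : ℕ → K) (B : ℝ) (hB : 0 ≤ B) (h : ∀ i ∈ s, abv (l i) ≤ B) :
    abv (∑ i ∈ s, l i) ≤ B := by
  rcases s.eq_empty_or_nonempty with rfl | hs
  · simpa using hB
  · exact (hna.apply_sum_le_sup hs).trans (Finset.sup'_le hs _ h)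

lemma sub_le {K : Type*} [Field K] {abv : AbsoluteValue K ℝ} (hna : IsNonarchimedean abv)
    (x y : K) : abv (x - y) ≤ max (abv x) (abv y) := by
  have := hna x (-y)
  rwa [← sub_eq_add_neg, abv.map_neg] at this

/-- `|x ^ (k+1) - y ^ (k+1)| ≤ |x - y| M ^ k`. -/
lemma pow_sub_le {K : Type*} [Field K] {abv : AbsoluteValue K ℝ} (hna : IsNonarchimedean abv)
    (x y : K) (M : ℝ) (hM : 0 ≤ M) (hx : abv x ≤ M) (hy : abv y ≤ M) (k : ℕ) :
    abv (x ^ (k + 1) - y ^ (k + 1)) ≤ abv (x - y) * M ^ k := by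
  induction k with
  | zero => simp
  | succ k ih =>
    have e : x ^ (k + 1 + 1) - y ^ (k + 1 + 1) =
        x * (x ^ (k + 1) - y ^ (k + 1)) + (x - y) * y ^ (k + 1) := by ring
    rw [e]
    refine (hna _ _).trans (max_le ?_ ?_)
    · rw [map_mul]
      calc abv x * abv (x ^ (k + 1) - y ^ (k + 1)) ≤ M * (abv (x - y) * M ^ k) := by
            gcongr
        _ = abv (x - y) * M ^ (k + 1) := by ring
    · rw [map_mul, map_pow]
      gcongr

end TypeIbAux

open TypeIbAux in
/-- For distinct preperiodic points `x, y` of absolute value `|a|⁻¹`: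
`|x - y| ≤ 1` and `|x - y| = |a|^(d-2) |f(x) - f(y)|`. -/
theorem typeI_pair {K : Type*} [Field K] (abv : AbsoluteValue K ℝ) (hna : IsNonarchimedean abv)
    (F : K[X]) (b : K) (d : ℕ) (hd : 3 ≤ d) (hF : F.natDegree = d)
    (hcoef : ∀ i, abv (F.coeff i) ≤ 1) (hb : abv b = 1) (w : ℝ) (hw : 0 < w)
    (ha : abv F.leadingCoeff = Real.exp (-w)) (x y : K)
    (hx : Pre (fun z => F.eval z / b) x) (hy : Pre (fun z => F.eval z / b) y)
    (hxw : abv x = Real.exp w) (hyw : abv y = Real.exp w) (hxy : x ≠ y) :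
    abv (x - y) ≤ 1 ∧ F.eval x ≠ F.eval y ∧
      abv (x - y) = Real.exp (-((d - 2) * w)) * abv (F.eval x / b - F.eval y / b) := by
  obtain ⟨n, rfl⟩ : ∃ n, d = n + 1 + 2 := ⟨d - 3, by omega⟩
  have hb0 : b ≠ 0 := by
    rintro rfl
    simp at hb
  set E : ℝ := Real.exp w with hE
  have hE1 : 1 < E := by rw [hE]; exact Real.one_lt_exp_iff.mpr hw
  have hE0 : 0 < E := by linarith
  have hlead : F.leadingCoeff = F.coeff (n + 1 + 2) := by rw [leadingCoeff, hF]
  have haE : abv (F.coeff (n + 1 + 2)) = E⁻¹ := by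
    rw [← hlead, ha, Real.exp_neg]
  -- the decomposition of `F`
  set G : K → K := fun z => ∑ i ∈ Finset.range (n + 2), F.coeff i * z ^ i with hG
  have hFz : ∀ z : K, F.eval z = z ^ (n + 2) * (F.coeff (n + 1 + 2) * z + F.coeff (n + 2)) + G z := by
    intro z
    rw [eval_eq_sum_range, hF, Finset.sum_range_succ, Finset.sum_range_succ]
    simp only [hG]
    ring
  have hGz : ∀ z : K, abv z = E → abv (G z) ≤ E ^ (n + 1) := by
    intro z hz
    refine sum_le hna _ _ _ (by positivity) fun i hi => ?_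
    rw [map_mul, map_pow, hz]
    calc abv (F.coeff i) * E ^ i ≤ 1 * E ^ i := by gcongr; exact hcoef i
      _ = E ^ i := one_mul _
      _ ≤ E ^ (n + 1) := pow_le_pow_right₀ hE1.le (by
          have := Finset.mem_range.mp hi
          omega)
  have hGG : abv (G x - G y) ≤ abv (x - y) * E ^ n := by
    simp only [hG]
    rw [← Finset.sum_sub_distrib]
    refine sum_le hna _ _ _ (by positivity) fun i hi => ?_
    rw [← mul_sub, map_mul]
    have hi' := Finset.mem_range.mp hi
    rcases Nat.eq_zero_or_pos i with rfl | hi0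
    · simp only [pow_zero, sub_self, map_zero, mul_zero]
      positivity
    · obtain ⟨j, rfl⟩ : ∃ j, i = j + 1 := ⟨i - 1, by omega⟩
      calc abv (F.coeff (j + 1)) * abv (x ^ (j + 1) - y ^ (j + 1))
          ≤ 1 * (abv (x - y) * E ^ j) :=
            mul_le_mul (hcoef _) (pow_sub_le hna x y E hE0.le hxw.le hyw.le j)
              (abv.nonneg _) zero_le_one
        _ = abv (x - y) * E ^ j := one_mul _
        _ ≤ abv (x - y) * E ^ n := by
            have : E ^ j ≤ E ^ n := pow_le_pow_right₀ hE1.le (by omega)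
            gcongr
  -- step (ii)
  have hclose : ∀ z : K, Pre (fun z => F.eval z / b) z → abv z = E →
      abv (F.coeff (n + 1 + 2) * z + F.coeff (n + 2)) ≤ E⁻¹ := by
    intro z hz hzE
    by_contra hcon
    rw [not_le] at hcon
    have h1 : E ^ (n + 1) < abv (z ^ (n + 2) * (F.coeff (n + 1 + 2) * z + F.coeff (n + 2))) := by
      rw [map_mul, map_pow, hzE]
      calc E ^ (n + 1) = E ^ (n + 2) * E⁻¹ := by
            rw [pow_succ E (n + 1), mul_assoc, mul_inv_cancel₀ hE0.ne', mul_one]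
        _ < _ := by
            have : 0 < E ^ (n + 2) := by positivity
            exact mul_lt_mul_of_pos_left hcon this
    have h2 : abv (F.eval z) = abv (z ^ (n + 2) * (F.coeff (n + 1 + 2) * z + F.coeff (n + 2))) := by
      rw [hFz z]
      exact IsNonarchimedean.add_eq_left_of_lt hna (lt_of_le_of_lt (hGz z hzE) h1)
    have h3 := escape abv hna F b (n + 1 + 2) (by omega) hF hcoef hb0 hb.le _ hz.map
    simp only [map_div₀, hb, div_one] at h3
    rw [hlead, haE, inv_inv, h2] at h3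
    have h4 : E ≤ E ^ (n + 1) := by
      calc E = E ^ 1 := (pow_one _).symm
        _ ≤ E ^ (n + 1) := pow_le_pow_right₀ hE1.le (by omega)
    linarith
  have hxc := hclose x hx hxw
  have hyc := hclose y hy hyw
  have hle1 : abv (x - y) ≤ 1 := by
    have e : F.coeff (n + 1 + 2) * (x - y) = (F.coeff (n + 1 + 2) * x + F.coeff (n + 2)) -
        (F.coeff (n + 1 + 2) * y + F.coeff (n + 2)) := by ring
    have h1 : abv (F.coeff (n + 1 + 2) * (x - y)) ≤ E⁻¹ := by
      rw [e]
      exact (sub_le hna _ _).trans (max_le hxc hyc)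
    rw [map_mul, haE] at h1
    have h2 : 0 < E⁻¹ := by positivity
    have h3 : E⁻¹ * abv (x - y) ≤ E⁻¹ * 1 := by rwa [mul_one]
    exact le_of_mul_le_mul_left h3 h2
  have hpos : 0 < abv (x - y) := abv.pos (sub_ne_zero.mpr hxy)
  have hmain : abv (F.eval x - F.eval y) = abv (x - y) * E ^ (n + 1) := by
    have e : F.eval x - F.eval y = y ^ (n + 2) * F.coeff (n + 1 + 2) * (x - y) +
        ((x ^ (n + 2) - y ^ (n + 2)) * (F.coeff (n + 1 + 2) * x + F.coeff (n + 2)) +
          (G x - G y)) := by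
      rw [hFz x, hFz y]
      ring
    have h1 : abv (y ^ (n + 2) * F.coeff (n + 1 + 2) * (x - y)) = abv (x - y) * E ^ (n + 1) := by
      rw [map_mul, map_mul, map_pow, hyw, haE, pow_succ E (n + 1), mul_assoc (E ^ (n + 1)),
        mul_inv_cancel₀ hE0.ne', mul_one, mul_comm]
    have h2 : abv ((x ^ (n + 2) - y ^ (n + 2)) * (F.coeff (n + 1 + 2) * x + F.coeff (n + 2))) ≤
        abv (x - y) * E ^ n := by
      rw [map_mul]
      calc abv (x ^ (n + 2) - y ^ (n + 2)) * abv (F.coeff (n + 1 + 2) * x + F.coeff (n + 2))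
          ≤ (abv (x - y) * E ^ (n + 1)) * E⁻¹ :=
            mul_le_mul (pow_sub_le hna x y E hE0.le hxw.le hyw.le (n + 1)) hxc (abv.nonneg _)
              (by positivity)
        _ = abv (x - y) * E ^ n := by
            rw [pow_succ, mul_assoc, mul_assoc, mul_inv_cancel₀ hE0.ne', mul_one]
    have h3 : abv ((x ^ (n + 2) - y ^ (n + 2)) * (F.coeff (n + 1 + 2) * x + F.coeff (n + 2)) +
          (G x - G y)) ≤ abv (x - y) * E ^ n := (hna _ _).trans (max_le h2 hGG)
    rw [e, ← h1]
    refine IsNonarchimedean.add_eq_left_of_lt hna (lt_of_le_of_lt h3 ?_)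
    rw [h1]
    have : E ^ n < E ^ (n + 1) := pow_lt_pow_right₀ hE1 (by omega)
    exact mul_lt_mul_of_pos_left this hpos
  refine ⟨hle1, ?_, ?_⟩
  · intro h0
    rw [h0, sub_self, map_zero] at hmain
    have : 0 < abv (x - y) * E ^ (n + 1) := by positivity
    linarith
  · rw [← sub_div, map_div₀, hb, div_one, hmain]
    have e : Real.exp (-((((n + 1 + 2 : ℕ) : ℝ) - 2) * w)) = (E ^ (n + 1))⁻¹ := by
      rw [Real.exp_neg, hE, ← Real.exp_nat_mul]
      congr 2
      push_cast
      ring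
    rw [e]
    have : E ^ (n + 1) ≠ 0 := by positivity
    field_simp

end Pool.Agent.GPoly
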