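import Pool.Agent.GPoly.Escape
import Pool.Agent.GPoly.TypeIb

set_option autoImplicit false

/-!
# L2: the places of type I, the bound
-/

namespace Pool.Agent.GPoly

open Polynomial

/-- The double sum over the pairs of distinct elements. -/
theorem typeIc_offDiag {K : Type*} [DecidableEq K] (T : Finset K) (g : K → K → ℝ) :
    ∑ p ∈ T.offDiag, g p.1 p.2 = ∑ x ∈ T, ∑ y ∈ T, g x y - ∑ x ∈ T, g x x := by
  have h1 : ∑ p ∈ T.diag ∪ T.offDiag, g p.1 p.2 = ∑ p ∈ T.diag, g p.1 p.2 +
      ∑ p ∈ T.offDiag, g p.1 p.2 := Finset.sum_union (Finset.disjoint_diag_offDiag T)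
  rw [Finset.diag_union_offDiag, Finset.sum_product] at h1
  have h2 : ∑ p ∈ T.diag, g p.1 p.2 = ∑ x ∈ T, g x x := by
    rw [Finset.sum_diag]
  rw [h2] at h1
  linarith

/-- The quadratic inequality. -/
theorem typeIc_quad (q m a b c w : ℝ) (hq : 3 ≤ q) (hw : 0 < w) (hm : a + b ≤ m) (ha : 0 ≤ a)
    (hb : 0 ≤ b) (hc : c = w * (-(q - 2) * (a + b))) :
    w * (2 * (m - a - b) * (a + b) - (q - 2) * (a * a + b * b) - (q - 3) * (2 * (a * b))) - c ≤
      m ^ 2 * (w / (q - 1 / 2)) + q * m * w := by
  have hq' : 0 < q - 1 / 2 := by linarith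
  have h1 : 2 * m * (a + b) - (q - 1 / 2) * (a + b) ^ 2 ≤ m ^ 2 / (q - 1 / 2) := by
    rw [le_div_iff₀ hq']
    nlinarith [sq_nonneg (m - (q - 1 / 2) * (a + b))]
  have h2 : 2 * (m - a - b) * (a + b) - (q - 2) * (a * a + b * b) - (q - 3) * (2 * (a * b)) ≤
      m ^ 2 / (q - 1 / 2) := by
    refine le_trans ?_ h1
    nlinarith [sq_nonneg (a - b)]
  have h3 : w * (2 * (m - a - b) * (a + b) - (q - 2) * (a * a + b * b) -
      (q - 3) * (2 * (a * b))) ≤ w * (m ^ 2 / (q - 1 / 2)) :=
    mul_le_mul_of_nonneg_left h2 hw.le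
  have h4 : (q - 2) * (a + b) ≤ q * m := by
    have h5 : (q - 2) * (a + b) ≤ (q - 2) * m := mul_le_mul_of_nonneg_left hm (by linarith)
    have h6 : 0 ≤ m := by linarith
    nlinarith
  have h5 : w * ((q - 2) * (a + b)) ≤ w * (q * m) := mul_le_mul_of_nonneg_left h4 hw.le
  have h6 : m ^ 2 * (w / (q - 1 / 2)) = w * (m ^ 2 / (q - 1 / 2)) := by ring
  rw [h6, hc]
  nlinarith

/-- L2: the bound at a place of type I. -/
theorem typeI_bound {K : Type*} [Field K] [DecidableEq K] (abv : AbsoluteValue K ℝ)
    (hna : IsNonarchimedean abv)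
    (F : K[X]) (b : K) (d : ℕ) (hd : 3 ≤ d) (hF : F.natDegree = d)
    (hcoef : ∀ i, abv (F.coeff i) ≤ 1) (hb : abv b = 1) (w : ℝ) (hw : 0 < w)
    (ha : abv F.leadingCoeff = Real.exp (-w))
    (hgap : ∀ x : K, Pre (fun z => F.eval z / b) x → abv x ≤ 1 ∨ abv x = Real.exp w)
    (T : Finset K) (hT : ∀ x ∈ T, Pre (fun z => F.eval z / b) x) :
    En abv T ≤ (T.card : ℝ) ^ 2 * (w / (d - 1 / 2)) + d * T.card * w := by
  classical
  have hb0 : b ≠ 0 := by
    rintro rfl
    rw [map_zero] at hb
    exact zero_ne_one hb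
  have hew : 1 < Real.exp w := Real.one_lt_exp_iff.mpr hw
  set s : K → ℝ := fun x => if abv x ≤ 1 then 0 else if abv (F.eval x / b) ≤ 1 then 1 else 0
    with hs
  set t : K → ℝ := fun x => if abv x ≤ 1 then 0 else if abv (F.eval x / b) ≤ 1 then 0 else 1
    with ht
  have hsub : ∀ (x y : K) (r : ℝ), abv x ≤ r → abv y ≤ r → abv (x - y) ≤ r := by
    intro x y r hx hy
    have h1 := hna x (-y)
    rw [← sub_eq_add_neg, abv.map_neg] at h1
    exact h1.trans (max_le hx hy)
  set B : K → K → ℝ := fun x y => (1 - s x - t x) * (s y + t y) + (s x + t x) * (1 - s y - t y) -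
    (d - 2) * (s x * s y + t x * t y) - (d - 3) * (s x * t y + t x * s y) with hB
  have hlog : ∀ (x y : K) (c : ℝ), x ≠ y → abv (x - y) ≤ Real.exp c →
      Real.log (abv (x - y)) ≤ c := by
    intro x y c hxy h
    have hpos : 0 < abv (x - y) := abv.pos (sub_ne_zero.mpr hxy)
    exact (Real.log_le_iff_le_exp hpos).mpr h
  have hpair : ∀ x ∈ T, ∀ y ∈ T, x ≠ y → Real.log (abv (x - y)) ≤ w * B x y := by
    intro x hx y hy hxy
    have hgx := hgap x (hT x hx)
    have hgy := hgap y (hT y hy)
    by_cases hx1 : abv x ≤ 1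
    · by_cases hy1 : abv y ≤ 1
      · have h1 : B x y = 0 := by
          simp only [hB, hs, ht, if_pos hx1, if_pos hy1]; ring
        rw [h1, mul_zero]
        exact hlog x y 0 hxy (by rw [Real.exp_zero]; exact hsub x y 1 hx1 hy1)
      · have hy2 := hgy.resolve_left hy1
        have h1 : B x y = 1 := by
          simp only [hB, hs, ht, if_pos hx1, if_neg hy1]
          split_ifs <;> ring
        rw [h1, mul_one]
        exact hlog x y w hxy (hsub x y _ (hx1.trans hew.le) hy2.le)
    · have hx2 := hgx.resolve_left hx1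
      by_cases hy1 : abv y ≤ 1
      · have h1 : B x y = 1 := by
          simp only [hB, hs, ht, if_neg hx1, if_pos hy1]
          split_ifs <;> ring
        rw [h1, mul_one]
        exact hlog x y w hxy (hsub x y _ hx2.le (hy1.trans hew.le))
      · have hy2 := hgy.resolve_left hy1
        obtain ⟨hle, hne, heq⟩ := typeI_pair abv hna F b d hd hF hcoef hb w hw ha x y
          (hT x hx) (hT y hy) hx2 hy2 hxy
        have hne' : F.eval x / b ≠ F.eval y / b := by
          intro h1
          exact hne ((div_left_inj' hb0).mp h1)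
        have hfx : Pre (fun z => F.eval z / b) (F.eval x / b) := (hT x hx).map
        have hfy : Pre (fun z => F.eval z / b) (F.eval y / b) := (hT y hy).map
        have hgfx := hgap _ hfx
        have hgfy := hgap _ hfy
        have hfin : ∀ c : ℝ, abv (F.eval x / b - F.eval y / b) ≤ Real.exp (c * w) →
            Real.log (abv (x - y)) ≤ w * (c - (d - 2)) := by
          intro c hc
          apply hlog x y _ hxy
          rw [heq]
          have h2 : Real.exp (w * (c - (d - 2))) = Real.exp (-((d - 2) * w)) *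
              Real.exp (c * w) := by
            rw [← Real.exp_add]
            exact congrArg Real.exp (by ring)
          rw [h2]
          exact mul_le_mul_of_nonneg_left hc (Real.exp_pos _).le
        by_cases hfx1 : abv (F.eval x / b) ≤ 1
        · by_cases hfy1 : abv (F.eval y / b) ≤ 1
          · have h1 : B x y = 0 - (d - 2) := by
              simp only [hB, hs, ht, if_neg hx1, if_neg hy1, if_pos hfx1, if_pos hfy1]; ring
            rw [h1]
            apply hfin
            rw [zero_mul, Real.exp_zero]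
            exact hsub _ _ 1 hfx1 hfy1
          · have hfy2 := hgfy.resolve_left hfy1
            have h1 : B x y = 1 - (d - 2) := by
              simp only [hB, hs, ht, if_neg hx1, if_neg hy1, if_pos hfx1, if_neg hfy1]; ring
            rw [h1]
            apply hfin
            rw [one_mul]
            exact hsub _ _ _ (hfx1.trans hew.le) hfy2.le
        · have hfx2 := hgfx.resolve_left hfx1
          by_cases hfy1 : abv (F.eval y / b) ≤ 1
          · have h1 : B x y = 1 - (d - 2) := by
              simp only [hB, hs, ht, if_neg hx1, if_neg hy1, if_neg hfx1, if_pos hfy1]; ring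
            rw [h1]
            apply hfin
            rw [one_mul]
            exact hsub _ _ _ hfx2.le (hfy1.trans hew.le)
          · have hfy2 := hgfy.resolve_left hfy1
            have h1 : B x y = 0 - (d - 2) := by
              simp only [hB, hs, ht, if_neg hx1, if_neg hy1, if_neg hfx1, if_neg hfy1]; ring
            rw [h1]
            apply hfin
            rw [zero_mul, Real.exp_zero]
            exact (typeI_pair abv hna F b d hd hF hcoef hb w hw ha _ _ hfx hfy hfx2 hfy2 hne').1
  have h1 : En abv T ≤ ∑ p ∈ T.offDiag, w * B p.1 p.2 := by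
    rw [En]
    refine Finset.sum_le_sum (fun p hp => ?_)
    rw [Finset.mem_offDiag] at hp
    exact hpair p.1 hp.1 p.2 hp.2.1 hp.2.2
  refine h1.trans ?_
  rw [typeIc_offDiag T (fun x y => w * B x y)]
  set S := ∑ x ∈ T, s x with hS
  set S' := ∑ x ∈ T, t x with hS'
  have h2 : ∀ x, ∑ y ∈ T, w * B x y = w * ((1 - s x - t x) * (S + S') +
      (s x + t x) * (T.card - S - S') - (d - 2) * (s x * S + t x * S') -
      (d - 3) * (s x * S' + t x * S)) := by
    intro x
    rw [← Finset.mul_sum]
    refine congrArg (fun z => w * z) ?_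
    simp only [hB, hS, hS', Finset.sum_add_distrib, Finset.sum_sub_distrib, ← Finset.mul_sum,
      Finset.sum_const, nsmul_eq_mul, mul_one]
  have h3 : ∑ x ∈ T, ∑ y ∈ T, w * B x y = w * (2 * (T.card - S - S') * (S + S') -
      (d - 2) * (S * S + S' * S') - (d - 3) * (2 * (S * S'))) := by
    rw [Finset.sum_congr rfl (fun x _ => h2 x), ← Finset.mul_sum]
    refine congrArg (fun z => w * z) ?_
    simp only [Finset.sum_add_distrib, Finset.sum_sub_distrib, ← Finset.mul_sum,
      ← Finset.sum_mul, Finset.sum_const, nsmul_eq_mul, mul_one]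
    rw [← hS, ← hS']
    ring
  have h4 : ∑ x ∈ T, w * B x x = w * (-(d - 2) * (S + S')) := by
    have h5 : ∀ x, w * B x x = w * (-(d - 2) * (s x + t x)) := by
      intro x
      refine congrArg (fun z => w * z) ?_
      simp only [hB, hs, ht]
      split_ifs <;> ring
    rw [Finset.sum_congr rfl (fun x _ => h5 x), ← Finset.mul_sum, ← Finset.mul_sum,
      Finset.sum_add_distrib]
  have hs0 : 0 ≤ S := Finset.sum_nonneg (fun x _ => by
    simp only [hs]; split_ifs <;> norm_num)
  have ht0 : 0 ≤ S' := Finset.sum_nonneg (fun x _ => by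
    simp only [ht]; split_ifs <;> norm_num)
  have hst : S + S' ≤ T.card := by
    rw [hS, hS', ← Finset.sum_add_distrib]
    have h5 : ∑ x ∈ T, (s x + t x) ≤ ∑ x ∈ T, (1 : ℝ) := by
      refine Finset.sum_le_sum (fun x _ => ?_)
      simp only [hs, ht]
      split_ifs <;> norm_num
    simpa using h5
  rw [h3]
  exact typeIc_quad d T.card S S' _ w (by exact_mod_cast hd) hw hst hs0 ht0 h4

end Pool.Agent.GPoly
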