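import Pool.Agent.GPoly.Vander
import Pool.Agent.GPoly.Escape
import Pool.Agent.GPoly.TypeIa
import Pool.Agent.GPoly.TypeIb
import Pool.Agent.GPoly.TypeIc
import Pool.Agent.GPoly.TypeII
import Pool.Agent.GPoly.TypeIII
import Pool.Agent.GPoly.RootCount
import Pool.Agent.GPoly.LocalII
import Pool.Agent.GPoly.Places

set_option autoImplicit false

/-!
# The local bounds at the finite places of a number field
-/

namespace Pool.Agent.GPoly

open NumberField IsDedekindDomain Polynomial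

variable {K : Type} [Field K] [NumberField K]

/-- The polynomial map `F / b` over `K`. -/
noncomputable def fm (F : (𝓞 K)[X]) (b : 𝓞 K) : K → K := fun z =>
  (F.map (algebraMap (𝓞 K) K)).eval z / algebraMap (𝓞 K) K b

/-- The polynomial `F / b` over `K`. -/
noncomputable def fp (F : (𝓞 K)[X]) (b : 𝓞 K) : K[X] :=
  C (algebraMap (𝓞 K) K b)⁻¹ * F.map (algebraMap (𝓞 K) K)

theorem fp_eval (F : (𝓞 K)[X]) (b : 𝓞 K) (x : K) : (fp F b).eval x = fm F b x := by
  simp [fp, fm, div_eq_inv_mul]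

theorem fp_natDegree (F : (𝓞 K)[X]) (b : 𝓞 K) (hb : b ≠ 0) :
    (fp F b).natDegree = F.natDegree := by
  have h1 : (algebraMap (𝓞 K) K b)⁻¹ ≠ 0 :=
    inv_ne_zero ((map_ne_zero_iff _ (RingOfIntegers.coe_injective)).mpr hb)
  rw [fp, natDegree_C_mul h1, natDegree_map_eq_of_injective RingOfIntegers.coe_injective]

theorem map_leadingCoeff' (F : (𝓞 K)[X]) :
    (F.map (algebraMap (𝓞 K) K)).leadingCoeff = algebraMap (𝓞 K) K F.leadingCoeff :=
  leadingCoeff_map_of_injective RingOfIntegers.coe_injective F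

theorem fp_leadingCoeff (F : (𝓞 K)[X]) (b : 𝓞 K) :
    (fp F b).leadingCoeff = algebraMap (𝓞 K) K F.leadingCoeff / algebraMap (𝓞 K) K b := by
  rw [fp, leadingCoeff_mul, leadingCoeff_C, map_leadingCoeff', div_eq_inv_mul]

theorem map_natDegree' (F : (𝓞 K)[X]) :
    (F.map (algebraMap (𝓞 K) K)).natDegree = F.natDegree :=
  natDegree_map_eq_of_injective RingOfIntegers.coe_injective F

/-- `-log |x|_v` for an algebraic integer `x`. -/
noncomputable def wt (v : HeightOneSpectrum (𝓞 K)) (x : 𝓞 K) : ℝ :=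
  -Real.log (av v (algebraMap (𝓞 K) K x))

theorem av_int_pos (v : HeightOneSpectrum (𝓞 K)) (x : 𝓞 K) (hx : x ≠ 0) :
    0 < av v (algebraMap (𝓞 K) K x) :=
  (av v).pos ((map_ne_zero_iff _ (RingOfIntegers.coe_injective)).mpr hx)

theorem wt_nonneg (v : HeightOneSpectrum (𝓞 K)) (x : 𝓞 K) : 0 ≤ wt v x := by
  rw [wt, neg_nonneg]
  exact Real.log_nonpos ((av v).nonneg _) (av_int_le_one v x)

theorem exp_neg_wt (v : HeightOneSpectrum (𝓞 K)) (x : 𝓞 K) (hx : x ≠ 0) :
    Real.exp (-wt v x) = av v (algebraMap (𝓞 K) K x) := by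
  rw [wt, neg_neg, Real.exp_log (av_int_pos v x hx)]

theorem wt_mul (v : HeightOneSpectrum (𝓞 K)) (x y : 𝓞 K) (hx : x ≠ 0) (hy : y ≠ 0) :
    wt v (x * y) = wt v x + wt v y := by
  rw [wt, wt, wt, map_mul, map_mul, Real.log_mul (av_int_pos v x hx).ne' (av_int_pos v y hy).ne']
  ring

theorem wt_eq_zero (v : HeightOneSpectrum (𝓞 K)) (x : 𝓞 K) (hx : x ∉ v.asIdeal) : wt v x = 0 := by
  rw [wt, (av_int_eq_one v x).mpr hx, Real.log_one, neg_zero]

theorem wt_pos (v : HeightOneSpectrum (𝓞 K)) (x : 𝓞 K) (hx0 : x ≠ 0) (hx : x ∈ v.asIdeal) :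
    0 < wt v x := by
  rw [wt, neg_pos]
  exact Real.log_neg (av_int_pos v x hx0) ((av_int_lt_one v x).mpr hx)

theorem coef_le (F : (𝓞 K)[X]) (v : HeightOneSpectrum (𝓞 K)) (i : ℕ) :
    av v ((F.map (algebraMap (𝓞 K) K)).coeff i) ≤ 1 := by
  rw [coeff_map]; exact av_int_le_one v _

theorem av_sub_le (v : HeightOneSpectrum (𝓞 K)) (x y : K) :
    av v (x - y) ≤ max (av v x) (av v y) := by
  have h := av_nonarch v x (-y)
  rwa [← sub_eq_add_neg, (av v).map_neg] at h

theorem ident_one (d w : ℝ) (h1 : d - 1 ≠ 0) (h2 : 2 * d - 1 ≠ 0) :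
    (0 - w) / (d - 1) - 1 / ((d - 1) * (2 * d - 1)) * (0 + w) =
      -(w * (2 * d / ((d - 1) * (2 * d - 1)))) := by
  rw [div_mul_eq_mul_div, div_sub_div _ _ h1 (mul_ne_zero h1 h2), ← mul_div_assoc, ← neg_div,
    div_eq_div_iff (mul_ne_zero h1 (mul_ne_zero h1 h2)) (mul_ne_zero h1 h2)]
  ring

theorem ident_two (d w : ℝ) (h1 : d - 1 ≠ 0) (h2 : 2 * d - 1 ≠ 0) :
    w / (d - 1 / 2) = (w - 0) / (d - 1) - 1 / ((d - 1) * (2 * d - 1)) * (w + 0) := by
  have h3 : d - 1 / 2 ≠ 0 := by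
    intro h; apply h2; linarith
  rw [div_mul_eq_mul_div, div_sub_div _ _ h1 (mul_ne_zero h1 h2),
    div_eq_div_iff h3 (mul_ne_zero h1 (mul_ne_zero h1 h2))]
  ring

/-- The escape lemma for `F / b`. -/
theorem escape_K (F : (𝓞 K)[X]) (b : 𝓞 K) (hb : b ≠ 0) (d : ℕ) (hd : 2 ≤ d)
    (hF : F.natDegree = d) (v : HeightOneSpectrum (𝓞 K)) (x : K) (hx : Pre (fm F b) x) :
    av v x ≤ Real.exp (wt v F.leadingCoeff) := by
  have hb' : algebraMap (𝓞 K) K b ≠ 0 :=
    (map_ne_zero_iff _ (RingOfIntegers.coe_injective)).mpr hb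
  have ha0 : F.leadingCoeff ≠ 0 := by
    intro h0
    rw [leadingCoeff_eq_zero] at h0
    rw [h0, natDegree_zero] at hF; omega
  have h := escape (av v) (av_nonarch v) (F.map (algebraMap (𝓞 K) K)) (algebraMap (𝓞 K) K b) d hd
    (by rw [map_natDegree', hF]) (coef_le F v) hb' (av_int_le_one v b) x hx
  rw [map_leadingCoeff', ← exp_neg_wt v _ ha0, ← Real.exp_neg, neg_neg] at h
  exact h

/-- L1 for `F / b`. -/
theorem generic_K (F : (𝓞 K)[X]) (b : 𝓞 K) (hb : b ≠ 0) (d : ℕ) (hd : 2 ≤ d)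
    (hF : F.natDegree = d) (v : HeightOneSpectrum (𝓞 K)) [DecidableEq K] (T : Finset K)
    (hT : ∀ x ∈ T, Pre (fm F b) x) :
    En (av v) T ≤ (T.card * (T.card - 1) : ℝ) *
        ((wt v F.leadingCoeff - wt v b) / (d - 1)) +
      2 * sg d T.card * (wt v F.leadingCoeff + wt v b) := by
  have ha0 : F.leadingCoeff ≠ 0 := by
    intro h0
    rw [leadingCoeff_eq_zero] at h0
    rw [h0, natDegree_zero] at hF; omega
  have hb' : algebraMap (𝓞 K) K b ≠ 0 :=
    (map_ne_zero_iff _ (RingOfIntegers.coe_injective)).mpr hb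
  have h := vander_bound (av v) (av_nonarch v) (fp F b) d hd (by rw [fp_natDegree F b hb, hF])
    (Pre (fm F b)) (fun x hx => by rw [fp_eval]; exact hx.map) (wt v F.leadingCoeff)
    (fun x hx => escape_K F b hb d hd hF v x hx) T hT
  have hlog : -Real.log (av v (fp F b).leadingCoeff) = wt v F.leadingCoeff - wt v b := by
    rw [fp_leadingCoeff, map_div₀, Real.log_div (av_int_pos v _ ha0).ne' (av_int_pos v _ hb).ne',
      wt, wt]; ring
  rw [hlog] at h
  have hd1 : (1 : ℝ) ≤ (d : ℝ) - 1 := by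
    have : (2 : ℝ) ≤ d := by exact_mod_cast hd
    linarith
  have hwa := wt_nonneg v F.leadingCoeff
  have hwb := wt_nonneg v b
  have h1 : -(wt v b) ≤ (wt v F.leadingCoeff - wt v b) / (d - 1) := by
    rw [le_div_iff₀ (by linarith)]
    nlinarith
  refine h.trans ?_
  have hs : (0 : ℝ) ≤ 2 * sg d T.card := by positivity
  nlinarith [mul_le_mul_of_nonneg_left (show wt v F.leadingCoeff -
    (wt v F.leadingCoeff - wt v b) / (d - 1) ≤ wt v F.leadingCoeff + wt v b by linarith) hs]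

/-- L2 for `F / b`. -/
theorem typeI_K (F : (𝓞 K)[X]) (b : 𝓞 K) (hb : b ≠ 0) (d : ℕ) (hd : 3 ≤ d)
    (hF : F.natDegree = d) (v : HeightOneSpectrum (𝓞 K)) (hbv : b ∉ v.asIdeal) (α : ℕ)
    (hα : 1 ≤ α) (h1 : F.leadingCoeff ∈ v.asIdeal ^ α) (h2 : F.leadingCoeff ∉ v.asIdeal ^ (α + 1))
    (h3 : α = 1 ∨ (F.coeff (F.natDegree - 1) ∉ v.asIdeal ∧ ¬ (F.natDegree - 1) ∣ α))
    [DecidableEq K] (T : Finset K) (hT : ∀ x ∈ T, Pre (fm F b) x) :
    En (av v) T ≤ (T.card : ℝ) ^ 2 * ((wt v F.leadingCoeff - wt v b) / (d - 1) -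
        1 / ((d - 1) * (2 * d - 1)) * (wt v F.leadingCoeff + wt v b)) +
      (2 * sg d T.card + 2 * d * T.card) * (wt v F.leadingCoeff + wt v b) := by
  have ha0 : F.leadingCoeff ≠ 0 := by
    intro h0
    rw [leadingCoeff_eq_zero] at h0
    rw [h0, natDegree_zero] at hF; omega
  have hwb : wt v b = 0 := wt_eq_zero v b hbv
  have hav : F.leadingCoeff ∈ v.asIdeal := Ideal.pow_le_self (by omega) h1
  have hwa : 0 < wt v F.leadingCoeff := wt_pos v _ ha0 hav
  -- the valuation of `a` is `α`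
  obtain ⟨n, hn⟩ := av_disc v (algebraMap (𝓞 K) K F.leadingCoeff)
    ((map_ne_zero_iff _ (RingOfIntegers.coe_injective)).mpr ha0)
  have hl := lq_pos v
  have hnα : n = α := by
    have e1 := (av_int_le_pow v F.leadingCoeff α).mp h1
    have e2 := (av_int_le_pow v F.leadingCoeff (α + 1)).not.mp h2
    rw [hn, Real.exp_le_exp, neg_le_neg_iff] at e1
    rw [hn, Real.exp_le_exp, neg_le_neg_iff] at e2
    have e1' : (α : ℝ) ≤ n := le_of_mul_le_mul_right e1 hl
    have e2' : (n : ℝ) < ((α + 1 : ℕ) : ℝ) := by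
      by_contra hcon
      exact e2 (mul_le_mul_of_nonneg_right (not_lt.mp hcon) hl.le)
    have e1'' : (α : ℤ) ≤ n := by exact_mod_cast e1'
    have e2'' : n < (α + 1 : ℕ) := by exact_mod_cast e2'
    omega
  have ha : av v (F.map (algebraMap (𝓞 K) K)).leadingCoeff = Real.exp (-(α * lq v)) := by
    rw [map_leadingCoeff', hn, hnα]; simp
  have hw : wt v F.leadingCoeff = α * lq v := by
    rw [wt, ← map_leadingCoeff', ha, Real.log_exp, neg_neg]
  have hgap := fun x (hx : Pre (fm F b) x) => typeI_gap (av v) (av_nonarch v)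
    (F.map (algebraMap (𝓞 K) K)) (algebraMap (𝓞 K) K b) d hd (by rw [map_natDegree', hF])
    (coef_le F v) ((av_int_eq_one v b).mpr hbv) (lq v) hl (fun x hx => av_disc v x hx) α hα ha
    (by
      rcases h3 with h3 | ⟨h3, h4⟩
      · exact Or.inl h3
      · right
        refine ⟨?_, by rw [← hF]; exact h4⟩
        rw [coeff_map, ← hF]
        exact (av_int_eq_one v _).mpr h3) x hx
  have h := typeI_bound (av v) (av_nonarch v)
    (F.map (algebraMap (𝓞 K) K)) (algebraMap (𝓞 K) K b) d hd (by rw [map_natDegree', hF])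
    (coef_le F v) ((av_int_eq_one v b).mpr hbv) (α * lq v) (by rw [← hw]; exact hwa) ha
    (fun x hx => hgap x hx) T hT
  rw [hwb, hw]
  refine h.trans ?_
  have hd3 : (3 : ℝ) ≤ d := by exact_mod_cast hd
  have hw0 : 0 < (α : ℝ) * lq v := by rw [← hw]; exact hwa
  have e3 : (α : ℝ) * lq v / (d - 1 / 2) = ((α : ℝ) * lq v - 0) / (d - 1) -
      1 / ((d - 1) * (2 * d - 1)) * ((α : ℝ) * lq v + 0) :=
    ident_two _ _ (by linarith) (by linarith)
  rw [e3]
  have e4 : (d : ℝ) * T.card * (α * lq v) ≤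
      (2 * sg d T.card + 2 * d * T.card) * (α * lq v + 0) := by
    rw [add_zero]
    refine mul_le_mul_of_nonneg_right ?_ hw0.le
    have : (0 : ℝ) ≤ d * T.card := by positivity
    have : (0 : ℝ) ≤ sg d T.card := by positivity
    nlinarith
  linarith

/-- L3 (and remark 3) for `F / b`. -/
theorem typeII_K (F : (𝓞 K)[X]) (b : 𝓞 K) (hb : b ≠ 0) (d : ℕ) (hd : 3 ≤ d)
    (hF : F.natDegree = d) (v : HeightOneSpectrum (𝓞 K)) (hav : F.leadingCoeff ∉ v.asIdeal)
    (hbv : b ∈ v.asIdeal)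
    (hroots : {r : 𝓞 K ⧸ v.asIdeal |
      (F.map (Ideal.Quotient.mk v.asIdeal)).eval r = 0}.ncard < F.natDegree)
    (hsimple : b ∉ v.asIdeal ^ 2 ∨ ∀ r : 𝓞 K ⧸ v.asIdeal,
      (F.map (Ideal.Quotient.mk v.asIdeal)).eval r = 0 →
      (F.map (Ideal.Quotient.mk v.asIdeal)).derivative.eval r ≠ 0)
    [DecidableEq K] (T : Finset K) (hT : ∀ x ∈ T, Pre (fm F b) x) :
    En (av v) T ≤ (T.card : ℝ) ^ 2 * ((wt v F.leadingCoeff - wt v b) / (d - 1) -
        1 / ((d - 1) * (2 * d - 1)) * (wt v F.leadingCoeff + wt v b)) +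
      (2 * sg d T.card + 2 * d * T.card) * (wt v F.leadingCoeff + wt v b) := by
  classical
  have hwa : wt v F.leadingCoeff = 0 := wt_eq_zero v _ hav
  have hwb : 0 < wt v b := wt_pos v b hb hbv
  have hd3 : (3 : ℝ) ≤ d := by exact_mod_cast hd
  have hl := lq_pos v
  set w := wt v b with hwdef
  have hbw : av v (algebraMap (𝓞 K) K b) = Real.exp (-w) := (exp_neg_wt v b hb).symm
  obtain ⟨c, hc1, hc2, hc3⟩ := residue_classes F b hb d (by omega) hF v hav hbv
  haveI : v.asIdeal.IsMaximal := v.isMaximal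
  letI : Field (𝓞 K ⧸ v.asIdeal) := Ideal.Quotient.field v.asIdeal
  haveI : Finite (𝓞 K ⧸ v.asIdeal) := v.asIdeal.finiteQuotientOfFreeOfNeBot v.ne_bot
  set p : (𝓞 K ⧸ v.asIdeal)[X] := F.map (Ideal.Quotient.mk v.asIdeal) with hp
  have hpdeg : p.natDegree = d := by
    rw [hp, ← hF]
    exact natDegree_map_of_leadingCoeff_ne_zero _ (by
      rwa [Ne, Ideal.Quotient.eq_zero_iff_mem])
  have hp0 : p ≠ 0 := by
    intro h0; rw [h0, natDegree_zero] at hpdeg; omega
  set R : Set (𝓞 K ⧸ v.asIdeal) := {r | p.eval r = 0} with hR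
  have hRfin : R.Finite := Set.toFinite R
  have himage : ∀ e : ℕ, R.ncard ≤ e → (T.image c).card ≤ e := by
    intro e he
    refine le_trans ?_ he
    rw [Set.ncard_eq_toFinset_card R hRfin]
    refine Finset.card_le_card ?_
    intro r hr
    obtain ⟨x, hx, rfl⟩ := Finset.mem_image.mp hr
    rw [Set.Finite.mem_toFinset]
    exact (hc1 x (hT x hx)).2
  have hint : ∀ x ∈ T, ∀ y ∈ T, x ≠ y → av v (x - y) ≤ 1 := by
    intro x hx y hy _
    refine (av_sub_le v x y).trans ?_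
    exact max_le (hc1 x (hT x hx)).1 (hc1 y (hT y hy)).1
  -- two distinct points of the same class
  have hsame : ∀ x ∈ T, ∀ y ∈ T, x ≠ y → c x = c y → av v (x - y) ≤ Real.exp (-w) := by
    intro x hx y hy hxy hcc
    rcases hsimple with hs | hs
    · -- `|b| = 1 / q`
      obtain ⟨nb, hnb⟩ := av_disc v (algebraMap (𝓞 K) K b)
        ((map_ne_zero_iff _ (RingOfIntegers.coe_injective)).mpr hb)
      have hnb1 : nb ≤ 1 := by
        have e2 := (av_int_le_pow v b 2).not.mp hs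
        rw [hnb, Real.exp_le_exp, neg_le_neg_iff] at e2
        have e2' : (nb : ℝ) < ((2 : ℕ) : ℝ) := by
          by_contra hcon
          exact e2 (mul_le_mul_of_nonneg_right (not_lt.mp hcon) hl.le)
        have : nb < (2 : ℕ) := by exact_mod_cast e2'
        omega
      obtain ⟨n, hn⟩ := av_disc v (x - y) (sub_ne_zero.mpr hxy)
      have hlt := hc2 x y (hT x hx) (hT y hy) hcc
      have hn1 : 1 ≤ n := by
        rw [hn, Real.exp_lt_one_iff, neg_lt_zero] at hlt
        have : (0 : ℝ) < n := by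
          by_contra hcon
          have := mul_nonpos_of_nonpos_of_nonneg (not_lt.mp hcon) hl.le
          linarith
        have : (0 : ℤ) < n := by exact_mod_cast this
        omega
      rw [← hbw, hn, hnb, Real.exp_le_exp, neg_le_neg_iff]
      refine mul_le_mul_of_nonneg_right ?_ hl.le
      exact_mod_cast hnb1.trans hn1
    · have h := hc3 x y (hT x hx) (hT y hy) hcc (hs (c x) (hc1 x (hT x hx)).2)
      rw [h, hbw]
      refine mul_le_of_le_one_right (Real.exp_pos _).le ?_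
      refine (av_sub_le v _ _).trans ?_
      exact max_le (hc1 _ (hT x hx).map).1 (hc1 _ (hT y hy).map).1
  have hσ : (0 : ℝ) ≤ sg d T.card := by positivity
  have hT0 : (0 : ℝ) ≤ T.card := by positivity
  rw [hwa]
  by_cases he : R.ncard + 2 ≤ d
  · -- at most `d - 2` classes
    have h := typeII_bound (av v) c T w hwb.le (d - 2) (by omega) (himage (d - 2) (by omega))
      hint hsame
    refine h.trans ?_
    have hcast : ((d - 2 : ℕ) : ℝ) = (d : ℝ) - 2 := by
      rw [Nat.cast_sub (by omega)]; norm_num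
    rw [hcast]
    have key : 2 * (d : ℝ) / ((d - 1) * (2 * d - 1)) ≤ 1 / (d - 2) := by
      rw [div_le_div_iff₀ (by nlinarith) (by linarith)]
      nlinarith
    have e1 : (0 - w) / ((d : ℝ) - 1) - 1 / ((d - 1) * (2 * d - 1)) * (0 + w) =
        -(w * (2 * (d : ℝ) / ((d - 1) * (2 * d - 1)))) :=
      ident_one _ _ (by linarith) (by linarith)
    rw [e1]
    have e2 : w * (2 * (d : ℝ) / ((d - 1) * (2 * d - 1))) * (T.card : ℝ) ^ 2 ≤
        w * (1 / (d - 2)) * (T.card : ℝ) ^ 2 :=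
      mul_le_mul_of_nonneg_right (mul_le_mul_of_nonneg_left key hwb.le) (by positivity)
    have e3 : w * ((T.card : ℝ) ^ 2 / (d - 2) - T.card) =
      w * (1 / (d - 2)) * (T.card : ℝ) ^ 2 - w * T.card := by ring
    have e4 : w * T.card ≤ (2 * sg d T.card + 2 * d * T.card) * (0 + w) := by
      have : (T.card : ℝ) ≤ 2 * sg d T.card + 2 * d * T.card := by nlinarith
      nlinarith
    rw [e3]
    nlinarith
  · -- exactly `d - 1` classes, `b ∉ v ^ 2`
    have hcard : R.ncard + 1 = p.natDegree := by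
      rw [hF] at hroots
      change R.ncard < d at hroots
      rw [hpdeg]; omega
    have hbs : b ∉ v.asIdeal ^ 2 := by
      rcases hsimple with hs | hs
      · exact hs
      · exfalso
        have := ncard_roots_add_two_le p hp0 hs (by
          change R.ncard < _; omega)
        rw [hpdeg] at this
        exact he this
    obtain ⟨s, hs⟩ := exists_unique_double p hp0 hcard
    have hlead : av v (fp F b).leadingCoeff = Real.exp w := by
      rw [fp_leadingCoeff, map_div₀, (av_int_eq_one v _).mpr hav, hbw, one_div, ← Real.exp_neg,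
        neg_neg]
    have h := typeIII_bound (av v) (av_nonarch v) (fp F b) d hd
      (by rw [fp_natDegree F b hb, hF]) w hwb hlead (Pre (fm F b))
      (fun x hx => by rw [fp_eval]; exact hx.map) (fun x hx => (hc1 x hx).1) c s T hT
      (himage (d - 1) (by omega)) hsame (by
        intro x hx y hy hxy hcc hcs
        rw [hc3 x y (hT x hx) (hT y hy) hcc (hs (c x) (hc1 x (hT x hx)).2 hcs), hbw, fp_eval,
          fp_eval]
        rfl)
    refine h.trans ?_
    have key : 2 * (d : ℝ) / ((d - 1) * (2 * d - 1)) ≤ d / (d ^ 2 - 2 * d + 2) := by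
      rw [div_le_div_iff₀ (by nlinarith) (by nlinarith)]
      nlinarith [mul_nonneg (show (0 : ℝ) ≤ d by linarith) (show (0 : ℝ) ≤ d - 3 by linarith)]
    have e1 : (0 - w) / ((d : ℝ) - 1) - 1 / ((d - 1) * (2 * d - 1)) * (0 + w) =
        -(w * (2 * (d : ℝ) / ((d - 1) * (2 * d - 1)))) :=
      ident_one _ _ (by linarith) (by linarith)
    rw [e1]
    have e2 : w * (2 * (d : ℝ) / ((d - 1) * (2 * d - 1))) * (T.card : ℝ) ^ 2 ≤
        w * (d / (d ^ 2 - 2 * d + 2)) * (T.card : ℝ) ^ 2 :=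
      mul_le_mul_of_nonneg_right (mul_le_mul_of_nonneg_left key hwb.le) (by positivity)
    have e4 : (2 * (sg d T.card : ℝ) + 2 * T.card) * w ≤
        (2 * sg d T.card + 2 * d * T.card) * (0 + w) := by
      have : 2 * (sg d T.card : ℝ) + 2 * T.card ≤ 2 * sg d T.card + 2 * d * T.card := by nlinarith
      nlinarith
    nlinarith

end Pool.Agent.GPoly
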