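import Pool.Agent.GPoly.ArchN
import Pool.Agent.GPoly.Places

set_option autoImplicit false

/-!
# The colouring at finitely many finite places of a number field
-/

namespace Pool.Agent.GPoly.N

open NumberField IsDedekindDomain Polynomial

theorem iterate_map {K L : Type*} [Field K] [Field L] (σ : K →+* L) (f : K[X]) (x : K)
    (n : ℕ) : (fun z => (f.map σ).eval z)^[n] (σ x) = σ ((fun z => f.eval z)^[n] x) := by
  induction n with
  | zero => rfl
  | succ n ih =>
    rw [Function.iterate_succ_apply', Function.iterate_succ_apply', ih]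
    simp only [eval_map, eval₂_hom]

theorem bounded_map {K 𝕜 : Type*} [Field K] [NormedField 𝕜] (σ : K →+* 𝕜) (f : K[X]) {x : K}
    (h : Pre (fun z => f.eval z) x) :
    ∃ R : ℝ, ∀ n : ℕ, ‖(fun z => (f.map σ).eval z)^[n] (σ x)‖ ≤ R := by
  obtain ⟨R, hR⟩ := (h.range_finite.image fun z => ‖σ z‖).bddAbove
  refine ⟨R, fun n => ?_⟩
  rw [iterate_map]
  exact hR ⟨_, ⟨n, rfl⟩, rfl⟩

/-- The colouring at one absolute value which extends to an algebraically closed field. -/
theorem one_colour {K 𝕜 : Type*} [Field K] [NormedField 𝕜] [IsAlgClosed 𝕜] (φ : K →+* 𝕜)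
    (abv : AbsoluteValue K ℝ) (hφ : ∀ x, ‖φ x‖ = abv x) (d : ℕ) (hd : 2 ≤ d) (f : K[X])
    (hf : f.natDegree = d) :
    ∃ c : K → Fin (d ^ 2), ∀ x y : K, Pre (fun z => f.eval z) x →
      Pre (fun z => f.eval z) y → x ≠ y → c x = c y →
      Real.log (abv (x - y)) ≤ -(Real.log (abv f.leadingCoeff)) / (d - 1) + Real.log 16 := by
  obtain ⟨c, hc⟩ := arch_colour d hd (f.map φ) (by rw [natDegree_map, hf])
  refine ⟨fun x => c (φ x), fun x y hx hy hxy hcol => ?_⟩
  have hd1 : (0 : ℝ) < (d : ℝ) - 1 := by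
    have : (2 : ℝ) ≤ d := by exact_mod_cast hd
    linarith
  have hf0 : f ≠ 0 := by
    rintro rfl
    rw [natDegree_zero] at hf
    omega
  have h2 := hc (φ x) (φ y) (bounded_map φ f hx) (bounded_map φ f hy) hcol
  rw [leadingCoeff_map, ← map_sub, hφ, hφ] at h2
  have h3 : 0 < abv (x - y) := abv.pos (sub_ne_zero.mpr hxy)
  have h4 : 0 < abv f.leadingCoeff := abv.pos (leadingCoeff_ne_zero.mpr hf0)
  have h5 := Real.log_le_log (mul_pos (pow_pos h3 _) h4) h2
  rw [Real.log_mul (pow_pos h3 _).ne' h4.ne', Real.log_pow, Real.log_pow,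
    Nat.cast_sub (by omega : 1 ≤ d), Nat.cast_one] at h5
  rw [div_add' _ _ _ hd1.ne', le_div_iff₀ hd1]
  linarith

theorem exists_ext_complete (L : Type) [NontriviallyNormedField L] [CompleteSpace L]
    [IsUltrametricDist L] :
    ∃ (𝕜 : Type) (_ : NormedField 𝕜) (_ : IsAlgClosed 𝕜) (ψ : L →+* 𝕜), ∀ x, ‖ψ x‖ = ‖x‖ := by
  let i1 : NormedField (AlgebraicClosure L) := spectralNorm.normedField L (AlgebraicClosure L)
  refine ⟨AlgebraicClosure L, i1, inferInstance, algebraMap L (AlgebraicClosure L), fun x => ?_⟩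
  exact spectralNorm_extends x

/-- The `v`-adic absolute value extends to an algebraically closed field. -/
theorem exists_ext {K : Type} [Field K] [NumberField K] (v : HeightOneSpectrum (𝓞 K)) :
    ∃ (𝕜 : Type) (_ : NormedField 𝕜) (_ : IsAlgClosed 𝕜) (φ : K →+* 𝕜), ∀ x, ‖φ x‖ = av v x := by
  let i1 : NontriviallyNormedField (v.adicCompletion K) :=
    Valued.toNontriviallyNormedField (v.adicCompletion K) (WithZero (Multiplicative ℤ))
  have i2 : IsUltrametricDist (v.adicCompletion K) :=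
    Valued.instIsUltrametricDist (v.adicCompletion K) (WithZero (Multiplicative ℤ))
  have i3 : CompleteSpace (v.adicCompletion K) := inferInstance
  obtain ⟨𝕜, j1, j2, ψ, hψ⟩ := @exists_ext_complete (v.adicCompletion K) i1 i3 i2
  refine ⟨𝕜, j1, j2, RingHom.comp ψ (FinitePlace.embedding v), fun x => ?_⟩
  exact (hψ _).trans (FinitePlace.norm_embedding v x)

/-- The colouring at the finite places of a finite set `E`. -/
theorem exc_colour {K : Type} [Field K] [NumberField K] (E : Finset (HeightOneSpectrum (𝓞 K)))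
    (d : ℕ) (hd : 2 ≤ d) (f : K[X]) (hf : f.natDegree = d) :
    ∃ c : K → (E → Fin (d ^ 2)), ∀ x y : K, Pre (fun z => f.eval z) x →
      Pre (fun z => f.eval z) y → x ≠ y → c x = c y → ∀ v ∈ E,
      Real.log (av v (x - y)) ≤ -(Real.log (av v f.leadingCoeff)) / (d - 1) + Real.log 16 := by
  have h : ∀ v : HeightOneSpectrum (𝓞 K), ∃ c : K → Fin (d ^ 2), ∀ x y : K,
      Pre (fun z => f.eval z) x → Pre (fun z => f.eval z) y → x ≠ y → c x = c y →
      Real.log (av v (x - y)) ≤ -(Real.log (av v f.leadingCoeff)) / (d - 1) + Real.log 16 := by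
    intro v
    obtain ⟨𝕜, i1, i2, φ, hφ⟩ := exists_ext v
    exact one_colour φ (av v) hφ d hd f hf
  choose c hc using h
  refine ⟨fun x v => c v x, fun x y hx hy hxy hcol v hv => ?_⟩
  exact hc v x y hx hy hxy (congrFun hcol ⟨v, hv⟩)

end Pool.Agent.GPoly.N
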