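import Pool.Agent.GPoly.Arch

set_option autoImplicit false

/-!
# The colouring at all complex embeddings of a number field
-/

namespace Pool.Agent.GPoly

open NumberField IsDedekindDomain Polynomial

theorem ArchField_iterate {K L : Type} [Field K] [Field L] (σ : K →+* L) (f : K[X]) (x : K)
    (n : ℕ) : (fun z => (f.map σ).eval z)^[n] (σ x) = σ ((fun z => f.eval z)^[n] x) := by
  induction n with
  | zero => rfl
  | succ n ih =>
    rw [Function.iterate_succ_apply', Function.iterate_succ_apply', ih]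
    simp only [eval_map, eval₂_hom]

theorem ArchField_bounded {K : Type} [Field K] (σ : K →+* ℂ) (f : K[X]) {x : K}
    (h : Pre (fun z => f.eval z) x) :
    ∃ R : ℝ, ∀ n : ℕ, ‖(fun z => (f.map σ).eval z)^[n] (σ x)‖ ≤ R := by
  obtain ⟨R, hR⟩ := (h.range_finite.image fun z => ‖σ z‖).bddAbove
  refine ⟨R, fun n => ?_⟩
  rw [ArchField_iterate]
  exact hR ⟨_, ⟨n, rfl⟩, rfl⟩

/-- `log 16` colouring at all complex embeddings: there are at most `(d ^ 2) ^ [K : ℚ]` colours such
that `∑_σ log |σ(x - y)| ≤ - (1 / (d - 1)) ∑_σ log |σ(A)| + [K : ℚ] log 16` for distinct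
preperiodic points `x, y` of the same colour, `A` the leading coefficient of `f`. -/
theorem arch_colour_field {K : Type} [Field K] [NumberField K] (d : ℕ) (hd : 2 ≤ d) (f : K[X])
    (hf : f.natDegree = d) :
    ∃ c : K → ((K →+* ℂ) → Fin (d ^ 2)), ∀ x y : K, Pre (fun z => f.eval z) x →
      Pre (fun z => f.eval z) y → x ≠ y → c x = c y →
      ∑ σ : K →+* ℂ, Real.log ‖σ (x - y)‖ ≤
        -(∑ σ : K →+* ℂ, Real.log ‖σ f.leadingCoeff‖) / (d - 1) +
          Module.finrank ℚ K * Real.log 16 := by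
  have h1 : ∀ σ : K →+* ℂ, (f.map σ).natDegree = d := fun σ => by
    rw [natDegree_map, hf]
  choose c hc using fun σ : K →+* ℂ => arch_colour d hd (f.map σ) (h1 σ)
  refine ⟨fun x σ => c σ (σ x), fun x y hx hy hxy hcol => ?_⟩
  have hd1 : (0 : ℝ) < (d : ℝ) - 1 := by
    have : (2 : ℝ) ≤ d := by exact_mod_cast hd
    linarith
  have hf0 : f ≠ 0 := by
    rintro rfl
    rw [natDegree_zero] at hf
    omega
  have key : ∀ σ : K →+* ℂ, Real.log ‖σ (x - y)‖ ≤
      -(Real.log ‖σ f.leadingCoeff‖) / (d - 1) + Real.log 16 := by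
    intro σ
    have h2 := hc σ (σ x) (σ y) (ArchField_bounded σ f hx) (ArchField_bounded σ f hy)
      (congrFun hcol σ)
    rw [leadingCoeff_map, ← map_sub] at h2
    have h3 : 0 < ‖σ (x - y)‖ := by
      rw [norm_pos_iff]
      exact (map_ne_zero σ).mpr (sub_ne_zero.mpr hxy)
    have h4 : 0 < ‖σ f.leadingCoeff‖ := by
      rw [norm_pos_iff]
      exact (map_ne_zero σ).mpr (leadingCoeff_ne_zero.mpr hf0)
    have h5 := Real.log_le_log (mul_pos (pow_pos h3 _) h4) h2
    rw [Real.log_mul (pow_pos h3 _).ne' h4.ne', Real.log_pow, Real.log_pow,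
      Nat.cast_sub (by omega : 1 ≤ d), Nat.cast_one] at h5
    rw [div_add' _ _ _ hd1.ne', le_div_iff₀ hd1]
    linarith
  refine (Finset.sum_le_sum fun σ _ => key σ).trans ?_
  rw [Finset.sum_add_distrib, Finset.sum_const, Finset.card_univ, NumberField.Embeddings.card K ℂ,
    nsmul_eq_mul, ← Finset.sum_div, Finset.sum_neg_distrib]

end Pool.Agent.GPoly
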