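import Pool.Agent.GPoly.Base

set_option autoImplicit false

/-!
# The colouring at one place, over an algebraically closed normed field
-/

namespace Pool.Agent.GPoly.N

open Polynomial

variable {𝕜 : Type*} [NormedField 𝕜]

theorem arch_growth (d : ℕ) (hd : 2 ≤ d) (f : 𝕜[X]) (hf : f.natDegree = d) :
    ∃ R : ℝ, 1 ≤ R ∧ ∀ z : 𝕜, R ≤ ‖z‖ → 2 * ‖z‖ ≤ ‖f.eval z‖ := by
  have hg : 0 < (divX f).degree := by
    rw [← natDegree_pos_iff_degree_pos, natDegree_divX_eq_natDegree_tsub_one, hf]
    omega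
  have ht : Filter.Tendsto (fun z : 𝕜 => ‖(divX f).eval z‖)
      (Filter.comap norm Filter.atTop) Filter.atTop :=
    tendsto_norm_atTop (divX f) hg Filter.tendsto_comap
  have h3 := ht.eventually (Filter.eventually_ge_atTop (3 : ℝ))
  rw [Filter.eventually_comap] at h3
  obtain ⟨R, hR⟩ := Filter.eventually_atTop.1 h3
  refine ⟨max 1 (max R ‖f.coeff 0‖), le_max_left _ _, fun z hz => ?_⟩
  have h1 : R ≤ ‖z‖ := ((le_max_left _ _).trans (le_max_right _ _)).trans hz
  have h2 : ‖f.coeff 0‖ ≤ ‖z‖ := ((le_max_right _ _).trans (le_max_right _ _)).trans hz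
  have h4 := hR ‖z‖ h1 z rfl
  have h5 : f.eval z = (divX f).eval z * z + f.coeff 0 := by
    conv_lhs => rw [← divX_mul_X_add f]
    simp
  have h6 : ‖(divX f).eval z * z‖ - ‖f.coeff 0‖ ≤ ‖f.eval z‖ := by
    rw [h5]
    have := norm_sub_norm_le ((divX f).eval z * z) (-(f.coeff 0))
    rwa [norm_neg, sub_neg_eq_add] at this
  rw [norm_mul] at h6
  nlinarith [norm_nonneg z]

theorem norm_multiset_map_prod (s : Multiset 𝕜) (g : 𝕜 → 𝕜) :
    ‖(s.map g).prod‖ = (s.map fun a => ‖g a‖).prod := by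
  induction s using Multiset.induction_on with
  | empty => simp
  | cons a s ih => simp [ih]

/-- Product over the roots of `f - w`. -/
theorem arch_prod [IsAlgClosed 𝕜] (d : ℕ) (hd : 2 ≤ d) (f : 𝕜[X]) (hf : f.natDegree = d) (w x : 𝕜) :
    ‖f.eval x - w‖ = ‖f.leadingCoeff‖ * ((f - C w).roots.map fun a => ‖x - a‖).prod := by
  have h1 := (IsAlgClosed.splits (f - C w)).eval_eq_prod_roots x
  have h2 : (f - C w).leadingCoeff = f.leadingCoeff := by
    rw [leadingCoeff_sub_of_degree_lt]
    refine (degree_C_le).trans_lt ?_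
    rw [← natDegree_pos_iff_degree_pos, hf]; omega
  rw [eval_sub, eval_C, h2] at h1
  rw [h1, norm_mul]
  congr 1
  exact norm_multiset_map_prod _ _

theorem arch_card [IsAlgClosed 𝕜] (d : ℕ) (_ : 2 ≤ d) (f : 𝕜[X]) (hf : f.natDegree = d) (w : 𝕜) :
    Multiset.card (f - C w).roots = d := by
  rw [← (IsAlgClosed.splits (f - C w)).natDegree_eq_card_roots, natDegree_sub_C, hf]

theorem arch_root (f : 𝕜[X]) (w a : 𝕜) (h : a ∈ (f - C w).roots) : f.eval a = w := by
  have := (mem_roots'.1 h).2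
  rw [IsRoot.def, eval_sub, eval_C, sub_eq_zero] at this
  exact this

/-- lower bound for a product of norms. -/
theorem arch_prod_le (s : Multiset 𝕜) (x : 𝕜) (r : ℝ) (hr : 0 ≤ r) (h : ∀ a ∈ s, r ≤ ‖x - a‖) :
    r ^ Multiset.card s ≤ (s.map fun a => ‖x - a‖).prod := by
  induction s using Multiset.induction_on with
  | empty => simp
  | cons a s ih =>
    rw [Multiset.card_cons, Multiset.map_cons, Multiset.prod_cons, pow_succ, mul_comm]
    exact mul_le_mul (h a (Multiset.mem_cons_self _ _))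
      (ih fun b hb => h b (Multiset.mem_cons_of_mem hb)) (pow_nonneg hr _) (norm_nonneg _)

/-- The points with bounded orbit of a polynomial over an algebraically closed normed field of degree `d` and leading coefficient
`A` can be coloured with `d ^ 2` colours such that `|x - y| ≤ 16 |A|^(-1/(d-1))` for points of the
same colour. -/
theorem arch_colour [IsAlgClosed 𝕜] (d : ℕ) (hd : 2 ≤ d) (f : 𝕜[X]) (hf : f.natDegree = d) :
    ∃ c : 𝕜 → Fin (d ^ 2), ∀ x y : 𝕜,
      (∃ R : ℝ, ∀ n : ℕ, ‖(fun z => f.eval z)^[n] x‖ ≤ R) →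
      (∃ R : ℝ, ∀ n : ℕ, ‖(fun z => f.eval z)^[n] y‖ ≤ R) → c x = c y →
      ‖x - y‖ ^ (d - 1) * ‖f.leadingCoeff‖ ≤ 16 ^ (d - 1) := by
  classical
  have hN : 0 < d ^ 2 := by positivity
  set B : Set 𝕜 := {x | ∃ R : ℝ, ∀ n : ℕ, ‖(fun z => f.eval z)^[n] x‖ ≤ R} with hB
  have hBf : ∀ x ∈ B, f.eval x ∈ B := by
    rintro x ⟨R, hR⟩
    refine ⟨R, fun n => ?_⟩
    have := hR (n + 1)
    rwa [Function.iterate_succ_apply] at this
  have hBpre : ∀ x, f.eval x ∈ B → x ∈ B := by
    rintro x ⟨R, hR⟩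
    refine ⟨max R ‖x‖, fun n => ?_⟩
    cases n with
    | zero => exact le_max_right _ _
    | succ n =>
      rw [Function.iterate_succ_apply]
      exact (hR n).trans (le_max_left _ _)
  have hBb : Bornology.IsBounded B := by
    obtain ⟨R, hR1, hR⟩ := arch_growth d hd f hf
    refine (Metric.isBounded_closedBall (x := (0 : 𝕜)) (r := R)).subset ?_
    rintro x ⟨Q, hQ⟩
    rw [Metric.mem_closedBall, dist_zero_right]
    by_contra hx
    push Not at hx
    have key : ∀ n : ℕ, 2 ^ n * ‖x‖ ≤ ‖(fun z => f.eval z)^[n] x‖ := by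
      intro n
      induction n with
      | zero => simp
      | succ n ih =>
        rw [Function.iterate_succ_apply']
        have h1 : ‖x‖ ≤ 2 ^ n * ‖x‖ := by
          have : (1 : ℝ) ≤ 2 ^ n := one_le_pow₀ (by norm_num)
          nlinarith [norm_nonneg x]
        have h2 := hR ((fun z => f.eval z)^[n] x) (by linarith)
        rw [pow_succ]
        linarith
    obtain ⟨n, hn⟩ := pow_unbounded_of_one_lt Q (by norm_num : (1 : ℝ) < 2)
    have h1 := key n
    have h2 := hQ n
    have h3 : (2 : ℝ) ^ n ≤ 2 ^ n * ‖x‖ := by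
      have : (0 : ℝ) < 2 ^ n := by positivity
      nlinarith
    linarith
  set Δ := Metric.diam B with hΔ
  have hΔ0 : 0 ≤ Δ := Metric.diam_nonneg
  have hdist : ∀ x ∈ B, ∀ y ∈ B, ‖x - y‖ ≤ Δ := by
    intro x hx y hy
    rw [← dist_eq_norm]
    exact Metric.dist_le_diam_of_mem hBb hx hy
  set A := ‖f.leadingCoeff‖ with hA
  have hA0 : 0 < A := by
    rw [hA, norm_pos_iff, Ne, leadingCoeff_eq_zero]
    rintro rfl
    simp at hf
    omega
  rcases B.eq_empty_or_nonempty with hBe | ⟨z, hz⟩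
  · refine ⟨fun _ => ⟨0, hN⟩, fun x y hx _ _ => ?_⟩
    have : x ∈ B := hx
    rw [hBe] at this
    exact absurd this (Set.notMem_empty _)
  by_cases hcase : A * Δ ^ (d - 1) ≤ 4 ^ d
  · refine ⟨fun _ => ⟨0, hN⟩, fun x y hx hy _ => ?_⟩
    have h1 := hdist x hx y hy
    have h2 : ‖x - y‖ ^ (d - 1) ≤ Δ ^ (d - 1) := pow_le_pow_left₀ (norm_nonneg _) h1 _
    have h3 : (4 : ℝ) ^ d ≤ 16 ^ (d - 1) := by
      have : (16 : ℝ) = 4 ^ 2 := by norm_num
      rw [this, ← pow_mul]
      exact pow_le_pow_right₀ (by norm_num) (by omega)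
    calc ‖x - y‖ ^ (d - 1) * A ≤ Δ ^ (d - 1) * A := by gcongr
      _ = A * Δ ^ (d - 1) := mul_comm _ _
      _ ≤ _ := hcase.trans h3
  push Not at hcase
  have hΔpos : 0 < Δ := by
    rcases hΔ0.eq_or_lt with h | h
    · rw [← h, zero_pow (by omega), mul_zero] at hcase
      exact absurd hcase (not_lt.2 (by positivity))
    · exact h
  -- no value `A (Δ/4)^d ≤ Δ`
  have hbad : ¬ A * (Δ / 4) ^ d ≤ Δ := by
    intro h
    have h1 : A * Δ ^ (d - 1) * Δ ≤ 4 ^ d * Δ := by
      have h2 : A * Δ ^ (d - 1) * Δ = 4 ^ d * (A * (Δ / 4) ^ d) := by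
        rw [div_pow, mul_assoc, ← pow_succ, Nat.sub_add_cancel (by omega)]
        field_simp
      rw [h2]
      gcongr
    have h3 := le_of_mul_le_mul_right h1 hΔpos
    linarith
  -- a root far from `x`
  have hfar : ∀ x ∈ B, ∀ w ∈ B, ∃ a ∈ (f - C w).roots, Δ / 8 < ‖x - a‖ := by
    intro x hx w hw
    by_contra hcon
    push Not at hcon
    have hy : ∃ y ∈ B, 3 * Δ / 8 ≤ ‖x - y‖ := by
      by_contra hcon2
      push Not at hcon2
      have : Δ ≤ 3 * Δ / 4 := by
        refine Metric.diam_le_of_forall_dist_le (by positivity) ?_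
        intro y hy y' hy'
        have h1 := hcon2 y hy
        have h2 := hcon2 y' hy'
        have h3 : dist y y' ≤ dist x y + dist x y' := dist_triangle_left _ _ _
        rw [dist_eq_norm x y, dist_eq_norm x y'] at h3
        linarith
      linarith
    obtain ⟨y, hy, hxy⟩ := hy
    have h1 : ∀ a ∈ (f - C w).roots, Δ / 4 ≤ ‖y - a‖ := by
      intro a ha
      have h2 := hcon a ha
      have h3 : ‖x - y‖ ≤ ‖x - a‖ + ‖y - a‖ := by
        have : x - y = (x - a) - (y - a) := by ring
        rw [this]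
        exact norm_sub_le _ _
      linarith
    have h2 := arch_prod_le _ y (Δ / 4) (by positivity) h1
    rw [arch_card d hd f hf] at h2
    have h3 := arch_prod d hd f hf w y
    have h4 := hdist _ (hBf y hy) w hw
    apply hbad
    calc A * (Δ / 4) ^ d ≤ A * ((f - C w).roots.map fun a => ‖y - a‖).prod := by gcongr
      _ = ‖f.eval y - w‖ := h3.symm
      _ ≤ Δ := h4
  -- the set of the second preimages of `z`
  set Z : Finset 𝕜 := (f - C z).roots.toFinset.biUnion fun w => (f - C w).roots.toFinset with hZ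
  have hcard : Z.card ≤ d ^ 2 := by
    rw [pow_two]
    refine (Finset.card_biUnion_le_card_mul _ _ d ?_).trans ?_
    · intro w _
      exact (Multiset.toFinset_card_le _).trans (arch_card d hd f hf w).le
    · gcongr
      exact (Multiset.toFinset_card_le _).trans (arch_card d hd f hf z).le
  have hnear : ∀ x ∈ B, ∃ a ∈ Z, ‖x - a‖ ^ (d - 1) * A ≤ 2 := by
    intro x hx
    by_contra hcon
    push Not at hcon
    have hw : ∀ w ∈ (f - C z).roots, Δ / 4 ≤ ‖f.eval x - w‖ := by
      intro w hw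
      have hwB : w ∈ B := hBpre w (by rw [arch_root f z w hw]; exact hz)
      obtain ⟨a, ha, hxa⟩ := hfar x hx w hwB
      have h1 : ∀ b ∈ (f - C w).roots, 2 < ‖x - b‖ ^ (d - 1) * A := by
        intro b hb
        refine hcon b ?_
        rw [hZ, Finset.mem_biUnion]
        exact ⟨w, Multiset.mem_toFinset.2 hw, Multiset.mem_toFinset.2 hb⟩
      obtain ⟨t, ht⟩ := Multiset.exists_cons_of_mem ha
      have htc : Multiset.card t = d - 1 := by
        have := arch_card d hd f hf w
        rw [ht, Multiset.card_cons] at this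
        omega
      have h2 := arch_prod d hd f hf w x
      rw [ht, Multiset.map_cons, Multiset.prod_cons] at h2
      -- product of the others
      set P := (t.map fun a => ‖x - a‖).prod with hP
      have hP0 : 0 ≤ P := by
        rw [hP]
        refine Multiset.prod_nonneg ?_
        intro r hr
        obtain ⟨b, _, rfl⟩ := Multiset.mem_map.1 hr
        exact norm_nonneg _
      have hPpow : (2 / A) ^ (d - 1) ≤ P ^ (d - 1) := by
        have h3 : ∀ s : Multiset 𝕜, (∀ b ∈ s, 2 < ‖x - b‖ ^ (d - 1) * A) →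
            (2 / A) ^ Multiset.card s ≤ ((s.map fun a => ‖x - a‖).prod) ^ (d - 1) := by
          intro s
          induction s using Multiset.induction_on with
          | empty => intro _; simp
          | cons b s ih =>
            intro hs
            rw [Multiset.card_cons, Multiset.map_cons, Multiset.prod_cons, pow_succ, mul_comm,
              mul_pow]
            refine mul_le_mul ?_ (ih fun b hb => hs b (Multiset.mem_cons_of_mem hb))
              (by positivity) (by positivity)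
            rw [div_le_iff₀ hA0]
            exact (hs b (Multiset.mem_cons_self _ _)).le
        have h4 := h3 t fun b hb => h1 b (by rw [ht]; exact Multiset.mem_cons_of_mem hb)
        rwa [htc] at h4
      have hP2 : 2 / A ≤ P := le_of_pow_le_pow_left₀ (by omega) hP0 hPpow
      rw [h2]
      calc Δ / 4 = A * (Δ / 8 * (2 / A)) := by field_simp; norm_num
        _ ≤ A * (‖x - a‖ * P) := by gcongr
    have h5 := arch_prod_le _ (f.eval x) (Δ / 4) (by positivity) hw
    rw [arch_card d hd f hf] at h5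
    have h6 := arch_prod d hd f hf z (f.eval x)
    have h7 := hdist _ (hBf _ (hBf x hx)) z hz
    apply hbad
    calc A * (Δ / 4) ^ d ≤ A * ((f - C z).roots.map fun a => ‖f.eval x - a‖).prod := by gcongr
      _ = ‖f.eval (f.eval x) - z‖ := h6.symm
      _ ≤ Δ := h7
  choose! g hg1 hg2 using hnear
  refine ⟨fun x => if h : g x ∈ Z then Fin.castLE hcard (Z.equivFin ⟨g x, h⟩) else ⟨0, hN⟩, ?_⟩
  intro x y hx hy hxy
  have hx1 := hg1 x hx
  have hy1 := hg1 y hy
  simp only [hx1, hy1, dif_pos] at hxy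
  have heq : g x = g y := by
    have h1 := Fin.castLE_injective hcard hxy
    have h2 := Z.equivFin.injective h1
    exact congrArg Subtype.val h2
  have hx2 := hg2 x hx
  have hy2 := hg2 y hy
  rw [← heq] at hy2
  set m := max ‖x - g x‖ ‖y - g x‖ with hm
  have hm2 : m ^ (d - 1) * A ≤ 2 := by
    rcases max_cases ‖x - g x‖ ‖y - g x‖ with ⟨h, _⟩ | ⟨h, _⟩ <;> rw [hm, h] <;> assumption
  have hm0 : 0 ≤ m := (norm_nonneg _).trans (le_max_left _ _)
  have h1 : ‖x - y‖ ≤ 2 * m := by
    have h2 : x - y = (x - g x) - (y - g x) := by ring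
    rw [h2]
    refine (norm_sub_le _ _).trans ?_
    have h3 : ‖x - g x‖ ≤ m := le_max_left _ _
    have h4 : ‖y - g x‖ ≤ m := le_max_right _ _
    linarith
  calc ‖x - y‖ ^ (d - 1) * A ≤ (2 * m) ^ (d - 1) * A := by gcongr
    _ = 2 ^ (d - 1) * (m ^ (d - 1) * A) := by rw [mul_pow, mul_assoc]
    _ ≤ 2 ^ (d - 1) * 2 := by gcongr
    _ = 2 ^ (d - 1 + 1) := by rw [pow_succ]
    _ ≤ 2 ^ (4 * (d - 1)) := pow_le_pow_right₀ (by norm_num) (by omega)
    _ = 16 ^ (d - 1) := by rw [pow_mul]; norm_num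

end Pool.Agent.GPoly.N
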