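import Mathlib

set_option autoImplicit false

/-!
# Definitions for the defect theorem on preperiodic points of polynomials

`Pre f x`: the point `x` is preperiodic for `f`.
`En abv T`: the sum of `log |x - y|` over the ordered pairs of distinct points of `T`.
`sdig d r`: the sum of the digits of `r` in base `d`; `sg d m`: the sum of `sdig d r`, `r < m`.
-/

namespace Pool.Agent.GPoly

/-- `x` is preperiodic for `f`. -/
def Pre {α : Type*} (f : α → α) (x : α) : Prop := ∃ m n : ℕ, m < n ∧ f^[m] x = f^[n] x

/-- The sum of `log |x - y|` over the ordered pairs of distinct points of `T`. -/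
noncomputable def En {K : Type*} [Field K] [DecidableEq K] (abv : AbsoluteValue K ℝ)
    (T : Finset K) : ℝ :=
  ∑ p ∈ T.offDiag, Real.log (abv (p.1 - p.2))

/-- The sum of the digits of `r` in base `d`. -/
def sdig (d r : ℕ) : ℕ := (Nat.digits d r).sum

/-- The sum of the digit sums of the integers less than `m`. -/
def sg (d m : ℕ) : ℕ := ∑ r ∈ Finset.range m, sdig d r

theorem Pre.map {α : Type*} {f : α → α} {x : α} (h : Pre f x) : Pre f (f x) := by
  obtain ⟨m, n, hmn, h⟩ := h
  refine ⟨m, n, hmn, ?_⟩
  rw [← Function.iterate_succ_apply, ← Function.iterate_succ_apply,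
    Function.iterate_succ_apply', Function.iterate_succ_apply', h]

theorem Pre.range_finite {α : Type*} {f : α → α} {x : α} (h : Pre f x) :
    (Set.range fun n : ℕ => f^[n] x).Finite := by
  obtain ⟨m, n, hmn, h⟩ := h
  refine Set.Finite.subset ((Set.finite_Iio n).image fun k => f^[k] x) ?_
  rintro _ ⟨k, rfl⟩
  induction k using Nat.strong_induction_on with
  | _ k ih =>
    by_cases hk : k < n
    · exact ⟨k, hk, rfl⟩
    · have hk' : k = (k - n) + n := by omega
      have h2 : f^[k] x = f^[(k - n) + m] x := by
        conv_lhs => rw [hk']
        rw [Function.iterate_add_apply, ← h, ← Function.iterate_add_apply]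
      have := ih ((k - n) + m) (by omega)
      simpa [h2] using this

end Pool.Agent.GPoly
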