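import Pool.Agent.GPoly.CaseBE

set_option autoImplicit false

/-!
# The bound with exceptional primes
-/

namespace Pool.Agent.GPoly.N

open NumberField IsDedekindDomain Polynomial Pool.Agent.GPoly

/-- The theorem, with the local bounds at the primes which divide `J` as a hypothesis; the prime
divisors of `I'` are the exceptional primes. -/
theorem bound_of_defect (D d k s : ℕ) (hd : 3 ≤ d) : ∃ C : ℕ,
    ∀ (K : Type) [Field K] [NumberField K], Module.finrank ℚ K ≤ D →
    ∀ (F : (𝓞 K)[X]) (b : 𝓞 K), F.natDegree = d → b ≠ 0 →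
    ∀ I I' J : Ideal (𝓞 K), I * I' = Ideal.span {F.leadingCoeff * b} →
    {v : HeightOneSpectrum (𝓞 K) | v.asIdeal ∣ I'}.ncard ≤ s →
    J ∣ Ideal.span {F.leadingCoeff * b} →
    (∀ v : HeightOneSpectrum (𝓞 K), v.asIdeal ∣ J → ∀ [DecidableEq K], ∀ T : Finset K,
      (∀ x ∈ T, Pre (fm F b) x) →
      En (av v) T ≤ (T.card : ℝ) ^ 2 * ((wt v F.leadingCoeff - wt v b) / (d - 1) -
        1 / ((d - 1) * (2 * d - 1)) * (wt v F.leadingCoeff + wt v b)) +
      (2 * sg d T.card + 2 * d * T.card) * (wt v F.leadingCoeff + wt v b)) →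
    Ideal.absNorm I ≤ Ideal.absNorm J ^ k →
    ∀ S : Finset K, (∀ x ∈ S, Pre (fm F b) x) → S.card ≤ C := by
  classical
  have hlog16 : 0 ≤ Real.log 16 := Real.log_nonneg (by norm_num)
  have hL : (0 : ℝ) ≤ (D + s) * Real.log 16 := mul_nonneg (by positivity) hlog16
  obtain ⟨M, hM⟩ := caseA d (k + 1) hd ((D + s) * Real.log 16) hL
  set W0 : ℝ := 2 * ((D + s) * Real.log 16) * (((k + 1 : ℕ) : ℝ) * ((d - 1) * (2 * d - 1)))
    with hW0
  obtain ⟨C, hC⟩ := caseB D d s (by omega) (max W0 0)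
  refine ⟨max C ((d ^ 2) ^ D * (d ^ 2) ^ s * M), ?_⟩
  intro K _ _ hK F b hF hb I I' J hII hs hJ hdef hnorm S hS
  have ha0 : F.leadingCoeff ≠ 0 := by
    intro h0
    rw [leadingCoeff_eq_zero] at h0
    rw [h0, natDegree_zero] at hF; omega
  have hab : F.leadingCoeff * b ≠ 0 := mul_ne_zero ha0 hb
  have hspan : Ideal.span {F.leadingCoeff * b} ≠ 0 := by
    rw [Ne, Ideal.zero_eq_bot, Ideal.span_singleton_eq_bot]
    exact hab
  have hI'0 : I' ≠ 0 := by
    rintro rfl
    rw [mul_zero] at hII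
    exact hspan hII.symm
  have hI0 : I ≠ 0 := by
    rintro rfl
    rw [zero_mul] at hII
    exact hspan hII.symm
  have hI'd : I' ∣ Ideal.span {F.leadingCoeff * b} := ⟨I, by rw [← hII, mul_comm]⟩
  have hfin := Ideal.finite_factors hI'0
  have hfinP := Ideal.finite_factors hspan
  obtain ⟨P₀, hP₀⟩ : ∃ P₀ : Finset (HeightOneSpectrum (𝓞 K)),
      ∀ v : HeightOneSpectrum (𝓞 K), F.leadingCoeff * b ∈ v.asIdeal → v ∈ P₀ := by
    refine ⟨hfinP.toFinset, fun v hv => ?_⟩
    rw [Set.Finite.mem_toFinset]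
    exact Ideal.dvd_span_singleton.2 hv
  obtain ⟨E, hE1, hE2, hE3⟩ : ∃ E : Finset (HeightOneSpectrum (𝓞 K)), E.card ≤ s ∧
      (∀ v ∈ E, ¬ v.asIdeal ∣ J) ∧
      (∀ v, v ∉ E → ¬ v.asIdeal ∣ I' ∨ v.asIdeal ∣ J) := by
    refine ⟨hfin.toFinset.filter fun v => ¬ v.asIdeal ∣ J, ?_, ?_, ?_⟩
    · refine (Finset.card_filter_le _ _).trans ?_
      rw [← Set.ncard_eq_toFinset_card _ hfin]
      exact hs
    · intro v hv
      exact (Finset.mem_filter.mp hv).2
    · intro v hv
      rw [Finset.mem_filter, Set.Finite.mem_toFinset] at hv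
      by_contra hcon
      push Not at hcon
      exact hv hcon
  set w : HeightOneSpectrum (𝓞 K) → ℝ := fun v => wt v (F.leadingCoeff * b) with hw
  have hw0 : ∀ v, 0 ≤ w v := fun v => wt_nonneg v _
  set Wd : ℝ := ∑ v ∈ P₀ with v.asIdeal ∣ J, w v with hWd
  set W : ℝ := ∑ v ∈ P₀ \ E, w v with hW
  -- the norms
  have hNI : (0 : ℝ) < Ideal.absNorm I := by
    have : 0 < Ideal.absNorm I := Nat.pos_of_ne_zero (by rwa [Ne, Ideal.absNorm_eq_zero_iff])
    exact_mod_cast this
  have hNI' : (0 : ℝ) < Ideal.absNorm I' := by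
    have : 0 < Ideal.absNorm I' := Nat.pos_of_ne_zero (by rwa [Ne, Ideal.absNorm_eq_zero_iff])
    exact_mod_cast this
  have h1 : Real.log (Ideal.absNorm J) ≤ Wd := log_absNorm_le _ hab J hJ P₀ hP₀
  have h2 : Real.log (Ideal.absNorm I') ≤ ∑ v ∈ P₀ with v.asIdeal ∣ I', w v :=
    log_absNorm_le _ hab I' hI'd P₀ hP₀
  have h3 : ∑ v ∈ P₀, w v = Real.log (Ideal.absNorm I) + Real.log (Ideal.absNorm I') := by
    rw [← Real.log_mul hNI.ne' hNI'.ne', ← Nat.cast_mul, ← map_mul, hII]
    exact sum_log_av_int _ hab P₀ hP₀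
  have h4 : ∑ v ∈ P₀ with ¬ v.asIdeal ∣ I', w v ≤ Real.log (Ideal.absNorm I) := by
    have := Finset.sum_filter_add_sum_filter_not P₀ (fun v => v.asIdeal ∣ I') w
    linarith
  have h5 : W ≤ ∑ v ∈ P₀ with ¬ v.asIdeal ∣ I', w v + Wd := by
    rw [hW, hWd, Finset.sdiff_eq_filter, Finset.sum_filter, Finset.sum_filter, Finset.sum_filter,
      ← Finset.sum_add_distrib]
    refine Finset.sum_le_sum fun v _ => ?_
    have hv0 := hw0 v
    by_cases hvE : v ∈ E
    · rw [if_neg (not_not.mpr hvE)]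
      split_ifs <;> linarith
    · rw [if_pos hvE]
      rcases hE3 v hvE with h | h
      · rw [if_pos h]
        split_ifs <;> linarith
      · rw [if_pos h]
        split_ifs <;> linarith
  have h6 : Real.log (Ideal.absNorm I) ≤ k * Real.log (Ideal.absNorm J) := by
    have h7 : (Ideal.absNorm I : ℝ) ≤ (Ideal.absNorm J : ℝ) ^ k := by exact_mod_cast hnorm
    calc Real.log (Ideal.absNorm I) ≤ Real.log ((Ideal.absNorm J : ℝ) ^ k) :=
          Real.log_le_log hNI h7
      _ = k * Real.log (Ideal.absNorm J) := Real.log_pow _ _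
  have hWle : W ≤ ((k + 1 : ℕ) : ℝ) * Wd := by
    have hk : (0 : ℝ) ≤ k := Nat.cast_nonneg k
    have h8 : (k : ℝ) * Real.log (Ideal.absNorm J) ≤ k * Wd := mul_le_mul_of_nonneg_left h1 hk
    push_cast
    linarith
  by_cases hcase : W ≤ max W0 0
  · exact (hC K hK F b hF hb E P₀ hE1 hP₀ hcase S hS).trans (le_max_left _ _)
  · refine le_trans ?_ (le_max_right _ _)
    rw [not_le] at hcase
    obtain ⟨c, hc⟩ := arch_colour_field d (by omega) (fp F b) (by rw [fp_natDegree F b hb, hF])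
    obtain ⟨c', hc'⟩ := exc_colour E d (by omega) (fp F b) (by rw [fp_natDegree F b hb, hF])
    have hfun : (fun z => (fp F b).eval z) = fm F b := by
      funext z; exact fp_eval F b z
    rw [hfun] at hc hc'
    -- every colour class has at most `M` elements
    have hclass : ∀ col : ((K →+* ℂ) → Fin (d ^ 2)) × (E → Fin (d ^ 2)),
        (S.filter fun x => (c x, c' x) = col).card ≤ M := by
      intro col
      set T := S.filter fun x => (c x, c' x) = col with hTdef
      have hT : ∀ x ∈ T, Pre (fm F b) x := fun x hx => hS x (Finset.mem_filter.mp hx).1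
      have hTT : ∀ x ∈ T, ∀ y ∈ T, (c x, c' x) = (c y, c' y) := fun x hx y hy =>
        (Finset.mem_filter.mp hx).2.trans (Finset.mem_filter.mp hy).2.symm
      have hTc : ∀ x ∈ T, ∀ y ∈ T, c x = c y := fun x hx y hy =>
        (Prod.mk.injEq _ _ _ _ ▸ hTT x hx y hy).1
      have hTc' : ∀ x ∈ T, ∀ y ∈ T, c' x = c' y := fun x hx y hy =>
        (Prod.mk.injEq _ _ _ _ ▸ hTT x hx y hy).2
      have h := main_ineq F b hb d hd hF J E hE2 P₀ hP₀ (fun v hv T hT => hdef v hv T hT)
        c hc c' hc' T hT hTc hTc'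
      refine hM T.card W Wd (lt_of_le_of_lt (le_max_right _ _) hcase) hWle
        (le_of_lt (lt_of_le_of_lt (le_max_left _ _) hcase)) ?_
      refine h.trans ?_
      have h7 : ((Module.finrank ℚ K : ℝ) + E.card) * Real.log 16 ≤ (D + s) * Real.log 16 := by
        apply mul_le_mul_of_nonneg_right _ hlog16
        have h8 : (Module.finrank ℚ K : ℝ) ≤ D := by exact_mod_cast hK
        have h9 : (E.card : ℝ) ≤ s := by exact_mod_cast hE1
        linarith
      have h8 : (0 : ℝ) ≤ (T.card : ℝ) ^ 2 := sq_nonneg _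
      have h9 := mul_le_mul_of_nonneg_left h7 h8
      rw [mul_sub, mul_sub]
      linarith
    have h7 : S.card ≤ M * (Finset.univ :
        Finset (((K →+* ℂ) → Fin (d ^ 2)) × (E → Fin (d ^ 2)))).card :=
      Finset.card_le_mul_card_image_of_maps_to (f := fun x => (c x, c' x))
        (fun x _ => Finset.mem_univ _) M (fun col _ => hclass col)
    have h8 : (Finset.univ : Finset (((K →+* ℂ) → Fin (d ^ 2)) × (E → Fin (d ^ 2)))).card =
        (d ^ 2) ^ Module.finrank ℚ K * (d ^ 2) ^ E.card := by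
      rw [Finset.card_univ, Fintype.card_prod, Fintype.card_fun, Fintype.card_fun,
        Fintype.card_fin, NumberField.Embeddings.card, Fintype.card_coe]
    rw [h8] at h7
    refine h7.trans ?_
    rw [mul_comm]
    refine Nat.mul_le_mul_right _ (Nat.mul_le_mul (Nat.pow_le_pow_right (by positivity) hK)
      (Nat.pow_le_pow_right (by positivity) hE1))

end Pool.Agent.GPoly.N
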