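import Pool.Agent.GPoly.PlacesB
import Pool.Agent.GPoly.Escape
import Pool.Agent.GPoly.ArchField

set_option autoImplicit false

/-!
# Case B (bounded weight)
-/

namespace Pool.Agent.GPoly

open NumberField IsDedekindDomain Polynomial

section

variable {K : Type} [Field K] [NumberField K]

/-- The sum of the logarithms at the complex embeddings is the logarithm of the norm. -/
theorem sum_log_embeddings (x : 𝓞 K) (hx : x ≠ 0) :
    ∑ σ : K →+* ℂ, Real.log ‖σ (algebraMap (𝓞 K) K x)‖ =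
      Real.log (Ideal.absNorm (Ideal.span {x})) := by
  have hx' : algebraMap (𝓞 K) K x ≠ 0 := by
    rwa [Ne, map_eq_zero_iff _ (FaithfulSMul.algebraMap_injective (𝓞 K) K)]
  have hfin := av_support_finite (algebraMap (𝓞 K) K x) hx'
  have h1 := product_formula (algebraMap (𝓞 K) K x) hx' hfin.toFinset (by
    intro v hv
    rw [Set.Finite.mem_toFinset]
    exact hv)
  have h2 := sum_log_av_int x hx hfin.toFinset (by
    intro v hv
    rw [Set.Finite.mem_toFinset]
    show av v _ ≠ 1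
    intro h
    rw [av_int_eq_one] at h
    exact h hv)
  rw [Finset.sum_neg_distrib] at h2
  linarith

theorem one_le_absNorm (x : 𝓞 K) (hx : x ≠ 0) :
    (1 : ℝ) ≤ (Ideal.absNorm (Ideal.span {x}) : ℕ) := by
  have h1 : Ideal.absNorm (Ideal.span {x}) ≠ 0 := by
    rw [Ne, Ideal.absNorm_eq_zero_iff, Ideal.span_singleton_eq_bot]
    exact hx
  exact_mod_cast Nat.one_le_iff_ne_zero.mpr h1

end

/-- Case B: if the norm of `a b` is bounded, then the number of preperiodic points is bounded. -/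
theorem caseB (D d : ℕ) (hd : 2 ≤ d) (B : ℝ) :
    ∃ C : ℕ, ∀ (K : Type) [Field K] [NumberField K], Module.finrank ℚ K ≤ D →
      ∀ (F : (𝓞 K)[X]) (b : 𝓞 K), F.natDegree = d → b ≠ 0 →
      ((Ideal.absNorm (Ideal.span {F.leadingCoeff * b}) : ℕ) : ℝ) ≤ B →
      ∀ S : Finset K, (∀ x ∈ S, Pre (fun z : K => (F.map (algebraMap (𝓞 K) K)).eval z /
        algebraMap (𝓞 K) K b) x) → S.card ≤ C := by
  obtain ⟨r, hr⟩ := exists_nat_gt ((Real.log (max B 1) + Real.log 16) / Real.log 2)
  have hlog2 : 0 < Real.log 2 := Real.log_pos one_lt_two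
  have hlog16 : 0 ≤ Real.log 16 := Real.log_nonneg (by norm_num)
  have hlogB : 0 ≤ Real.log (max B 1) := Real.log_nonneg (le_max_right _ _)
  rw [div_lt_iff₀ hlog2] at hr
  refine ⟨(d ^ 2) ^ D * (2 ^ r) ^ D, ?_⟩
  intro K _ _ hK F b hF hb hB S hS
  classical
  set ι := algebraMap (𝓞 K) K with hι
  have hinj : Function.Injective ι := FaithfulSMul.algebraMap_injective (𝓞 K) K
  set a := F.leadingCoeff with ha
  have ha0 : a ≠ 0 := by
    rw [ha, Ne, leadingCoeff_eq_zero]
    rintro rfl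
    rw [natDegree_zero] at hF
    omega
  have hb' : ι b ≠ 0 := by rwa [Ne, map_eq_zero_iff _ hinj]
  have ha' : ι a ≠ 0 := by rwa [Ne, map_eq_zero_iff _ hinj]
  have hdeg : (F.map ι).natDegree = d := by rw [natDegree_map_eq_of_injective hinj, hF]
  have hlead : (F.map ι).leadingCoeff = ι a := leadingCoeff_map_of_injective hinj _
  -- integrality
  have hint : ∀ x : K, Pre (fun z : K => (F.map ι).eval z / ι b) x → ∃ y : 𝓞 K, ι y = ι a * x := by
    intro x hx
    apply exists_int_of_av_le_one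
    intro v
    have h1 := escape (av v) (av_nonarch v) (F.map ι) (ι b) d hd hdeg
      (fun i => by rw [coeff_map]; exact av_int_le_one v _) hb' (av_int_le_one v b) x hx
    rw [hlead] at h1
    rw [map_mul]
    have h2 : 0 < av v (ι a) := (av v).pos ha'
    calc av v (ι a) * av v x ≤ av v (ι a) * (av v (ι a))⁻¹ :=
          mul_le_mul_of_nonneg_left h1 h2.le
      _ = 1 := mul_inv_cancel₀ h2.ne'
  -- the archimedean colouring
  set f : K[X] := C (ι b)⁻¹ * F.map ι with hf
  have hfe : ∀ z, f.eval z = (F.map ι).eval z / ι b := by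
    intro z
    rw [hf, eval_mul, eval_C, div_eq_inv_mul]
  have hfd : f.natDegree = d := by
    rw [hf, natDegree_C_mul (inv_ne_zero hb'), hdeg]
  have hfl : f.leadingCoeff = ι a / ι b := by
    rw [hf, leadingCoeff_mul, leadingCoeff_C, hlead, div_eq_inv_mul]
  have hfun : (fun z : K => (F.map ι).eval z / ι b) = fun z => f.eval z :=
    funext fun z => (hfe z).symm
  obtain ⟨c, hc⟩ := arch_colour_field d hd f hfd
  choose! g hg using hint
  -- the finite set of colours
  have hfin : Nat.card (𝓞 K ⧸ Ideal.span {((2 ^ r : ℕ) : 𝓞 K)}) = (2 ^ r) ^ Module.finrank ℚ K := by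
    have h1 : Ideal.absNorm (Ideal.span {((2 ^ r : ℕ) : 𝓞 K)}) =
        (2 ^ r) ^ Module.finrank ℤ (𝓞 K) := Ideal.absNorm_span_natCast _
    rw [← RingOfIntegers.rank K, ← h1, Ideal.absNorm_apply, Submodule.cardQuot_apply]
  have : Finite (𝓞 K ⧸ Ideal.span {((2 ^ r : ℕ) : 𝓞 K)}) := by
    apply Nat.finite_of_card_ne_zero
    rw [hfin]
    positivity
  have := Fintype.ofFinite (𝓞 K ⧸ Ideal.span {((2 ^ r : ℕ) : 𝓞 K)})
  by_contra hcon
  push Not at hcon
  have hcard : (Finset.univ : Finset (((K →+* ℂ) → Fin (d ^ 2)) ×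
      (𝓞 K ⧸ Ideal.span {((2 ^ r : ℕ) : 𝓞 K)}))).card < S.card := by
    refine lt_of_le_of_lt ?_ hcon
    rw [Finset.card_univ, Fintype.card_prod, Fintype.card_fun, Fintype.card_fin,
      NumberField.Embeddings.card K ℂ, ← Nat.card_eq_fintype_card, hfin]
    have h1 : 1 ≤ d ^ 2 := Nat.one_le_pow _ _ (by omega)
    have h2 : 1 ≤ 2 ^ r := Nat.one_le_two_pow
    exact Nat.mul_le_mul (Nat.pow_le_pow_right h1 hK) (Nat.pow_le_pow_right h2 hK)
  obtain ⟨x, hx, y, hy, hxy, hcol⟩ := Finset.exists_ne_map_eq_of_card_lt_of_maps_to hcard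
    (f := fun x => (c x, Ideal.Quotient.mk _ (g x))) (fun x _ => Finset.mem_coe.mpr (Finset.mem_univ _))
  rw [Prod.mk.injEq] at hcol
  obtain ⟨hc1, hc2⟩ := hcol
  have hxP := hS x hx
  have hyP := hS y hy
  have harch := hc x y (by rw [← hfun]; exact hxP) (by rw [← hfun]; exact hyP) hxy hc1
  rw [hfl] at harch
  rw [Ideal.Quotient.eq, Ideal.mem_span_singleton] at hc2
  obtain ⟨z, hz⟩ := hc2
  have hsub : ι (g x - g y) = ι a * (x - y) := by
    rw [map_sub, hg x hxP, hg y hyP, mul_sub]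
  have hne : x - y ≠ 0 := sub_ne_zero.mpr hxy
  have hz0 : z ≠ 0 := by
    rintro rfl
    rw [mul_zero] at hz
    rw [hz, map_zero] at hsub
    exact mul_ne_zero ha' hne hsub.symm
  have hz' : ι z ≠ 0 := by rwa [Ne, map_eq_zero_iff _ hinj]
  -- sum of the logarithms
  have hσ : ∀ (σ : K →+* ℂ) (u : K), u ≠ 0 → ‖σ u‖ ≠ 0 := fun σ u hu => by
    rw [Ne, norm_eq_zero, map_eq_zero]; exact hu
  have e1 : ∀ σ : K →+* ℂ, Real.log ‖σ (ι a)‖ + Real.log ‖σ (x - y)‖ =
      r * Real.log 2 + Real.log ‖σ (ι z)‖ := by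
    intro σ
    rw [← Real.log_mul (hσ σ _ ha') (hσ σ _ hne), ← norm_mul, ← map_mul, ← hsub, hz, map_mul,
      map_mul, norm_mul, Real.log_mul _ (hσ σ _ hz')]
    · congr 1
      rw [map_natCast, map_natCast, Complex.norm_natCast]
      push_cast
      rw [Real.log_pow]
    · rw [map_natCast, map_natCast, Complex.norm_natCast]
      positivity
  have e2 : ∀ σ : K →+* ℂ, Real.log ‖σ (ι a / ι b)‖ =
      Real.log ‖σ (ι a)‖ - Real.log ‖σ (ι b)‖ := by
    intro σ
    rw [map_div₀, norm_div, Real.log_div (hσ σ _ ha') (hσ σ _ hb')]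
  have s1 := Finset.sum_congr rfl (fun σ (_ : σ ∈ (Finset.univ : Finset (K →+* ℂ))) => e1 σ)
  rw [Finset.sum_add_distrib, Finset.sum_add_distrib, Finset.sum_const, Finset.card_univ,
    NumberField.Embeddings.card K ℂ, nsmul_eq_mul] at s1
  have s2 := Finset.sum_congr rfl (fun σ (_ : σ ∈ (Finset.univ : Finset (K →+* ℂ))) => e2 σ)
  rw [Finset.sum_sub_distrib] at s2
  rw [s2] at harch
  rw [sum_log_embeddings a ha0, sum_log_embeddings z hz0] at s1
  rw [sum_log_embeddings a ha0, sum_log_embeddings b hb] at harch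
  set n := (Module.finrank ℚ K : ℝ) with hn
  set Wa := Real.log (Ideal.absNorm (Ideal.span {a})) with hWa
  set Wb := Real.log (Ideal.absNorm (Ideal.span {b})) with hWb
  have hWa0 : 0 ≤ Wa := Real.log_nonneg (one_le_absNorm a ha0)
  have hWb0 : 0 ≤ Wb := Real.log_nonneg (one_le_absNorm b hb)
  have hWz0 : 0 ≤ Real.log (Ideal.absNorm (Ideal.span {z})) := Real.log_nonneg (one_le_absNorm z hz0)
  have hn1 : 1 ≤ n := by
    rw [hn]
    exact_mod_cast (Module.finrank_pos : 0 < Module.finrank ℚ K)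
  have hW : Wa + Wb ≤ Real.log (max B 1) := by
    rw [hWa, hWb, ← Real.log_mul]
    · apply Real.log_le_log
      · have h1 := one_le_absNorm a ha0
        have h2 := one_le_absNorm b hb
        positivity
      · have h3 : ((Ideal.absNorm (Ideal.span {a}) : ℕ) : ℝ) * (Ideal.absNorm (Ideal.span {b}) : ℕ) =
            (Ideal.absNorm (Ideal.span {a * b}) : ℕ) := by
          rw [← Ideal.span_singleton_mul_span_singleton, map_mul]
          push_cast
          rfl
        rw [h3]
        exact hB.trans (le_max_left _ _)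
    · have h1 := one_le_absNorm a ha0
      positivity
    · have h1 := one_le_absNorm b hb
      positivity
  have hd1 : (1 : ℝ) ≤ (d : ℝ) - 1 := by
    have : (2 : ℝ) ≤ d := by exact_mod_cast hd
    linarith
  have h4 : -(Wa - Wb) / ((d : ℝ) - 1) ≤ Wb := by
    rw [div_le_iff₀ (by linarith)]
    nlinarith
  have h5 : n * (r * Real.log 2) ≤ Wa + Wb + n * Real.log 16 := by linarith
  have h6 : n * (Real.log (max B 1) + Real.log 16) < n * (r * Real.log 2) :=
    mul_lt_mul_of_pos_left hr (by linarith)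
  nlinarith

end Pool.Agent.GPoly
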