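import Pool.Agent.GPoly.GlobalE

set_option autoImplicit false

/-!
# Case B (bounded weight) with exceptional primes
-/

namespace Pool.Agent.GPoly.N

open NumberField IsDedekindDomain Polynomial Pool.Agent.GPoly

/-- Among the first `s + 1` primes there is one which lies below no member of `E`. -/
theorem exists_prime_avoid {K : Type} [Field K] [NumberField K] (s : ℕ)
    (E : Finset (HeightOneSpectrum (𝓞 K))) (hE : E.card ≤ s) :
    ∃ p : ℕ, p.Prime ∧ p ≤ Nat.nth Nat.Prime s ∧ ∀ v ∈ E, ((p : ℕ) : 𝓞 K) ∉ v.asIdeal := by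
  by_contra hcon
  have hcon2 : ∀ i : ℕ, i ≤ s → ∃ v ∈ E, ((Nat.nth Nat.Prime i : ℕ) : 𝓞 K) ∈ v.asIdeal := by
    intro i hi
    by_contra h
    push Not at h
    exact hcon ⟨_, Nat.prime_nth_prime i, (Nat.nth_monotone Nat.infinite_setOfPred_prime) hi, h⟩
  have : Nonempty (HeightOneSpectrum (𝓞 K)) :=
    let ⟨v, _⟩ := hcon2 0 (Nat.zero_le s)
    ⟨v⟩
  choose! f hf1 hf2 using hcon2
  have hinj : Set.InjOn f ((Finset.range (s + 1) : Finset ℕ) : Set ℕ) := by
    intro i hi j hj hij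
    by_contra hne
    have hi' : i ≤ s := by
      have := Finset.mem_range.mp (Finset.mem_coe.mp hi); omega
    have hj' : j ≤ s := by
      have := Finset.mem_range.mp (Finset.mem_coe.mp hj); omega
    have h1 := hf2 i hi'
    have h2 := hf2 j hj'
    rw [← hij] at h2
    have hcop : Nat.Coprime (Nat.nth Nat.Prime i) (Nat.nth Nat.Prime j) :=
      (Nat.coprime_primes (Nat.prime_nth_prime i) (Nat.prime_nth_prime j)).mpr
        fun h => hne (Nat.nth_injective Nat.infinite_setOfPred_prime h)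
    have hcop2 : IsCoprime ((Nat.nth Nat.Prime i : ℕ) : ℤ) ((Nat.nth Nat.Prime j : ℕ) : ℤ) :=
      Nat.isCoprime_iff_coprime.mpr hcop
    obtain ⟨u, w, huw⟩ := hcop2
    have huw2 : (u : 𝓞 K) * ((Nat.nth Nat.Prime i : ℕ) : 𝓞 K) +
        (w : 𝓞 K) * ((Nat.nth Nat.Prime j : ℕ) : 𝓞 K) = 1 := by
      have := congrArg (Int.cast : ℤ → 𝓞 K) huw
      push_cast at this
      exact this
    apply (f i).isPrime.ne_top
    rw [Ideal.eq_top_iff_one, ← huw2]
    exact Ideal.add_mem _ (Ideal.mul_mem_left _ _ h1) (Ideal.mul_mem_left _ _ h2)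
  have h3 := Finset.card_le_card_of_injOn (s := Finset.range (s + 1)) (t := E) f
    (fun i hi => hf1 i (by
      have := Finset.mem_range.mp (Finset.mem_coe.mp hi); omega)) hinj
  rw [Finset.card_range] at h3
  omega

/-- The product formula for the leading coefficient of `F / b`. -/
theorem sum_g {K : Type} [Field K] [NumberField K] (F : (𝓞 K)[X]) (b : 𝓞 K) (hb : b ≠ 0)
    (ha0 : F.leadingCoeff ≠ 0) (q : ℝ) (P : Finset (HeightOneSpectrum (𝓞 K)))
    (hPab : ∀ v : HeightOneSpectrum (𝓞 K), F.leadingCoeff * b ∈ v.asIdeal → v ∈ P) :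
    ∑ v ∈ P, (wt v F.leadingCoeff - wt v b) / q =
      (∑ σ : K →+* ℂ, Real.log ‖σ (fp F b).leadingCoeff‖) / q := by
  have hA0 : (fp F b).leadingCoeff ≠ 0 := by
    rw [fp_leadingCoeff]
    exact div_ne_zero ((map_ne_zero_iff _ (RingOfIntegers.coe_injective)).mpr ha0)
      ((map_ne_zero_iff _ (RingOfIntegers.coe_injective)).mpr hb)
  have h1 := product_formula (fp F b).leadingCoeff hA0 P (by
    intro v hv
    apply hPab v
    by_contra hcon
    apply hv
    have h2 : F.leadingCoeff ∉ v.asIdeal := fun h => hcon (Ideal.mul_mem_right _ _ h)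
    have h3 : b ∉ v.asIdeal := fun h => hcon (Ideal.mul_mem_left _ _ h)
    rw [fp_leadingCoeff, map_div₀, (av_int_eq_one v _).mpr h2, (av_int_eq_one v _).mpr h3,
      div_one])
  have h2 : ∑ v ∈ P, Real.log (av v (fp F b).leadingCoeff) =
      -∑ v ∈ P, (wt v F.leadingCoeff - wt v b) := by
    rw [← Finset.sum_neg_distrib]
    refine Finset.sum_congr rfl fun v _ => ?_
    rw [fp_leadingCoeff, map_div₀, Real.log_div (av_int_pos v _ ha0).ne'
      (av_int_pos v _ hb).ne', wt, wt]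
    ring
  rw [h2] at h1
  rw [← Finset.sum_div]
  congr 1
  linarith

open Classical in
/-- Case B: if the weight of `a b` outside at most `s` primes is bounded, then the number of
preperiodic points is bounded. -/
theorem caseB (D d s : ℕ) (hd : 2 ≤ d) (B : ℝ) :
    ∃ C : ℕ, ∀ (K : Type) [Field K] [NumberField K], Module.finrank ℚ K ≤ D →
      ∀ (F : (𝓞 K)[X]) (b : 𝓞 K), F.natDegree = d → b ≠ 0 →
      ∀ E P₀ : Finset (HeightOneSpectrum (𝓞 K)), E.card ≤ s →
      (∀ v : HeightOneSpectrum (𝓞 K), F.leadingCoeff * b ∈ v.asIdeal → v ∈ P₀) →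
      ∑ v ∈ P₀ \ E, wt v (F.leadingCoeff * b) ≤ B →
      ∀ S : Finset K, (∀ x ∈ S, Pre (fm F b) x) → S.card ≤ C := by
  have hlog2 : 0 < Real.log 2 := Real.log_pos one_lt_two
  have hlog16 : 0 ≤ Real.log 16 := Real.log_nonneg (by norm_num)
  obtain ⟨r, hr⟩ := exists_nat_gt ((B + (D + s) * Real.log 16) / Real.log 2)
  rw [div_lt_iff₀ hlog2] at hr
  refine ⟨(d ^ 2) ^ D * (d ^ 2) ^ s * ((Nat.nth Nat.Prime s) ^ r) ^ D, ?_⟩
  intro K _ _ hK F b hF hb E P₀ hE hP₀ hB S hS
  obtain ⟨p, hp, hps, hpE⟩ := exists_prime_avoid s E hE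
  have hinj : Function.Injective (algebraMap (𝓞 K) K) := FaithfulSMul.algebraMap_injective (𝓞 K) K
  have ha0 : F.leadingCoeff ≠ 0 := by
    rw [Ne, leadingCoeff_eq_zero]
    rintro rfl
    rw [natDegree_zero] at hF
    omega
  have hb' : algebraMap (𝓞 K) K b ≠ 0 := by rwa [Ne, map_eq_zero_iff _ hinj]
  have ha' : algebraMap (𝓞 K) K F.leadingCoeff ≠ 0 := by rwa [Ne, map_eq_zero_iff _ hinj]
  have hp0 : ((p : ℕ) : 𝓞 K) ≠ 0 := by exact_mod_cast hp.ne_zero
  -- integrality
  have hint : ∀ x : K, Pre (fm F b) x →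
      ∃ y : 𝓞 K, algebraMap (𝓞 K) K y = algebraMap (𝓞 K) K F.leadingCoeff * x := by
    intro x hx
    apply exists_int_of_av_le_one
    intro v
    have h1 := escape (av v) (av_nonarch v) (F.map (algebraMap (𝓞 K) K)) (algebraMap (𝓞 K) K b) d
      hd (by rw [map_natDegree', hF])
      (fun i => by rw [coeff_map]; exact av_int_le_one v _) hb' (av_int_le_one v b) x hx
    rw [map_leadingCoeff'] at h1
    rw [map_mul]
    have h2 : 0 < av v (algebraMap (𝓞 K) K F.leadingCoeff) := (av v).pos ha'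
    calc av v (algebraMap (𝓞 K) K F.leadingCoeff) * av v x ≤
          av v (algebraMap (𝓞 K) K F.leadingCoeff) *
            (av v (algebraMap (𝓞 K) K F.leadingCoeff))⁻¹ :=
          mul_le_mul_of_nonneg_left h1 h2.le
      _ = 1 := mul_inv_cancel₀ h2.ne'
  -- the colourings
  have hfun : (fun z => (fp F b).eval z) = fm F b := by
    funext z; exact fp_eval F b z
  obtain ⟨c, hc⟩ := arch_colour_field d hd (fp F b) (by rw [fp_natDegree F b hb, hF])
  obtain ⟨c', hc'⟩ := exc_colour E d hd (fp F b) (by rw [fp_natDegree F b hb, hF])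
  rw [hfun] at hc hc'
  choose! g hg using hint
  -- the finite set of colours
  have hfin : Nat.card (𝓞 K ⧸ Ideal.span {((p ^ r : ℕ) : 𝓞 K)}) =
      (p ^ r) ^ Module.finrank ℚ K := by
    have h1 : Ideal.absNorm (Ideal.span {((p ^ r : ℕ) : 𝓞 K)}) =
        (p ^ r) ^ Module.finrank ℤ (𝓞 K) := Ideal.absNorm_span_natCast _
    rw [← RingOfIntegers.rank K, ← h1, Ideal.absNorm_apply, Submodule.cardQuot_apply]
  have : Finite (𝓞 K ⧸ Ideal.span {((p ^ r : ℕ) : 𝓞 K)}) := by
    apply Nat.finite_of_card_ne_zero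
    rw [hfin]
    have := hp.pos
    positivity
  have := Fintype.ofFinite (𝓞 K ⧸ Ideal.span {((p ^ r : ℕ) : 𝓞 K)})
  by_contra hcon
  push Not at hcon
  have hcard : (Finset.univ : Finset (((K →+* ℂ) → Fin (d ^ 2)) × (E → Fin (d ^ 2)) ×
      (𝓞 K ⧸ Ideal.span {((p ^ r : ℕ) : 𝓞 K)}))).card < S.card := by
    refine lt_of_le_of_lt ?_ hcon
    rw [Finset.card_univ, Fintype.card_prod, Fintype.card_prod, Fintype.card_fun,
      Fintype.card_fun, Fintype.card_fin, NumberField.Embeddings.card K ℂ, Fintype.card_coe,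
      ← Nat.card_eq_fintype_card, hfin, ← mul_assoc]
    have h1 : 1 ≤ d ^ 2 := Nat.one_le_pow _ _ (by omega)
    have h2 : 1 ≤ p ^ r := Nat.one_le_pow _ _ hp.pos
    refine Nat.mul_le_mul (Nat.mul_le_mul (Nat.pow_le_pow_right h1 hK)
      (Nat.pow_le_pow_right h1 hE)) ?_
    exact (Nat.pow_le_pow_right h2 hK).trans (Nat.pow_le_pow_left (Nat.pow_le_pow_left hps r) D)
  obtain ⟨x, hx, y, hy, hxy, hcol⟩ := Finset.exists_ne_map_eq_of_card_lt_of_maps_to hcard
    (f := fun x => (c x, c' x, Ideal.Quotient.mk _ (g x)))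
    (fun x _ => Finset.mem_coe.mpr (Finset.mem_univ _))
  rw [Prod.mk.injEq, Prod.mk.injEq] at hcol
  obtain ⟨hc1, hc2, hc3⟩ := hcol
  have hxP := hS x hx
  have hyP := hS y hy
  have harch := hc x y hxP hyP hxy hc1
  have hexc := hc' x y hxP hyP hxy hc2
  rw [Ideal.Quotient.eq, Ideal.mem_span_singleton] at hc3
  obtain ⟨z, hz⟩ := hc3
  have hsub : algebraMap (𝓞 K) K (g x - g y) = algebraMap (𝓞 K) K F.leadingCoeff * (x - y) := by
    rw [map_sub, hg x hxP, hg y hyP, mul_sub]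
  have hne : x - y ≠ 0 := sub_ne_zero.mpr hxy
  have hz0 : z ≠ 0 := by
    rintro rfl
    rw [mul_zero] at hz
    rw [hz, map_zero] at hsub
    exact mul_ne_zero ha' hne hsub.symm
  -- the finite set of places
  obtain ⟨P, hPE, hPP, hPT, hPp⟩ : ∃ P : Finset (HeightOneSpectrum (𝓞 K)), E ⊆ P ∧ P₀ ⊆ P ∧
      (∀ v : HeightOneSpectrum (𝓞 K), av v (x - y) ≠ 1 → v ∈ P) ∧
      (∀ v : HeightOneSpectrum (𝓞 K), ((p : ℕ) : 𝓞 K) ∈ v.asIdeal → v ∈ P) := by
    have h2 := av_support_finite (x - y) hne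
    have h3 := av_support_finite (algebraMap (𝓞 K) K ((p : ℕ) : 𝓞 K))
      ((map_ne_zero_iff _ hinj).mpr hp0)
    refine ⟨E ∪ P₀ ∪ h2.toFinset ∪ h3.toFinset, ?_, ?_, ?_, ?_⟩
    · intro v hv
      simp [hv]
    · intro v hv
      simp [hv]
    · intro v hv
      rw [Finset.mem_union, Finset.mem_union]
      left; right
      rw [Set.Finite.mem_toFinset]
      exact hv
    · intro v hv
      rw [Finset.mem_union]
      right
      rw [Set.Finite.mem_toFinset]
      intro h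
      exact (av_int_eq_one v _).mp h hv
  have hPab : ∀ v : HeightOneSpectrum (𝓞 K), F.leadingCoeff * b ∈ v.asIdeal → v ∈ P :=
    fun v hv => hPP (hP₀ v hv)
  have hA := sum_g F b hb ha0 ((d : ℝ) - 1) P hPab
  have hprod := product_formula (x - y) hne P hPT
  have hd1 : (1 : ℝ) ≤ (d : ℝ) - 1 := by
    have : (2 : ℝ) ≤ d := by exact_mod_cast hd
    linarith
  set gg : HeightOneSpectrum (𝓞 K) → ℝ := fun v => (wt v F.leadingCoeff - wt v b) / (d - 1)
    with hgg
  have hlead : ∀ v : HeightOneSpectrum (𝓞 K), Real.log (av v (fp F b).leadingCoeff) =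
      -(wt v F.leadingCoeff - wt v b) := by
    intro v
    rw [fp_leadingCoeff, map_div₀, Real.log_div (av_int_pos v _ ha0).ne'
      (av_int_pos v _ hb).ne', wt, wt]
    ring
  -- outside `E`
  have hout : ∀ v ∈ P \ E, Real.log (av v (x - y)) ≤
      wt v F.leadingCoeff - r * wt v ((p : ℕ) : 𝓞 K) := by
    intro v _
    have e1 : av v (algebraMap (𝓞 K) K (g x - g y)) =
        av v (algebraMap (𝓞 K) K F.leadingCoeff) * av v (x - y) := by
      rw [hsub, map_mul]
    have e2 : av v (algebraMap (𝓞 K) K (g x - g y)) =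
        av v (algebraMap (𝓞 K) K ((p : ℕ) : 𝓞 K)) ^ r * av v (algebraMap (𝓞 K) K z) := by
      rw [hz, map_mul, map_mul, Nat.cast_pow, map_pow, map_pow]
    have e3 := e1.symm.trans e2
    have h1 : 0 < av v (algebraMap (𝓞 K) K F.leadingCoeff) := av_int_pos v _ ha0
    have h2 : 0 < av v (x - y) := (av v).pos hne
    have h3 : 0 < av v (algebraMap (𝓞 K) K ((p : ℕ) : 𝓞 K)) := av_int_pos v _ hp0
    have h4 : 0 < av v (algebraMap (𝓞 K) K z) := av_int_pos v _ hz0
    have h5 : Real.log (av v (algebraMap (𝓞 K) K z)) ≤ 0 :=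
      Real.log_nonpos h4.le (av_int_le_one v z)
    have h6 := congrArg Real.log e3
    rw [Real.log_mul h1.ne' h2.ne', Real.log_mul (pow_pos h3 r).ne' h4.ne', Real.log_pow] at h6
    rw [wt, wt]
    linarith
  -- in `E`
  have hin : ∀ v ∈ E, Real.log (av v (x - y)) ≤ gg v + Real.log 16 := by
    intro v hv
    have h := hexc v hv
    rw [hlead, neg_neg] at h
    exact h
  have hout2 := Finset.sum_le_sum hout
  have hin2 := Finset.sum_le_sum hin
  rw [Finset.sum_sub_distrib, ← Finset.mul_sum] at hout2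
  rw [Finset.sum_add_distrib, Finset.sum_const, nsmul_eq_mul] at hin2
  have hPsplit : ∀ u : HeightOneSpectrum (𝓞 K) → ℝ,
      ∑ v ∈ P \ E, u v + ∑ v ∈ E, u v = ∑ v ∈ P, u v := fun u => Finset.sum_sdiff hPE
  -- the weight of `p`
  have hpw : ∑ v ∈ P \ E, wt v ((p : ℕ) : 𝓞 K) = Module.finrank ℚ K * Real.log p := by
    have h1 := hPsplit fun v => wt v ((p : ℕ) : 𝓞 K)
    have h2 : ∑ v ∈ E, wt v ((p : ℕ) : 𝓞 K) = 0 :=
      Finset.sum_eq_zero fun v hv => wt_eq_zero v _ (hpE v hv)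
    rw [h2, add_zero] at h1
    rw [h1]
    have h3 := sum_log_av_int ((p : ℕ) : 𝓞 K) hp0 P hPp
    have h4 : ∑ v ∈ P, wt v ((p : ℕ) : 𝓞 K) =
        ∑ v ∈ P, -Real.log (av v (algebraMap (𝓞 K) K ((p : ℕ) : 𝓞 K))) := rfl
    rw [h4, h3, Ideal.absNorm_span_natCast, RingOfIntegers.rank K, Nat.cast_pow, Real.log_pow]
  -- the weight outside `E`
  have hW : ∑ v ∈ P \ E, wt v F.leadingCoeff - ∑ v ∈ P \ E, gg v ≤ B := by
    refine le_trans ?_ hB
    rw [← Finset.sum_sub_distrib]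
    have h1 : ∑ v ∈ P \ E, (wt v F.leadingCoeff - gg v) ≤
        ∑ v ∈ P \ E, wt v (F.leadingCoeff * b) := by
      refine Finset.sum_le_sum fun v _ => ?_
      rw [wt_mul v _ _ ha0 hb]
      have h2 := wt_nonneg v F.leadingCoeff
      have h3 := wt_nonneg v b
      have h4 : -wt v b ≤ gg v := by
        simp only [hgg]
        rw [le_div_iff₀ (by linarith)]
        nlinarith
      linarith
    refine h1.trans (le_of_eq ?_)
    refine (Finset.sum_subset (Finset.sdiff_subset_sdiff hPP subset_rfl) ?_).symm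
    intro v hv hv'
    rw [Finset.mem_sdiff] at hv hv'
    exact wt_eq_zero v _ fun h => hv' ⟨hP₀ v h, hv.2⟩
  have hs1 := hPsplit fun v => Real.log (av v (x - y))
  have hs2 := hPsplit gg
  rw [hpw] at hout2
  have hA' : -(∑ σ : K →+* ℂ, Real.log ‖σ (fp F b).leadingCoeff‖) / ((d : ℝ) - 1) =
      -∑ v ∈ P, gg v := by
    rw [neg_div, hA]
  rw [hA'] at harch
  have hn1 : (1 : ℝ) ≤ Module.finrank ℚ K := by
    exact_mod_cast (Module.finrank_pos : 0 < Module.finrank ℚ K)
  have hnD : (Module.finrank ℚ K : ℝ) ≤ D := by exact_mod_cast hK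
  have hEs : (E.card : ℝ) ≤ s := by exact_mod_cast hE
  have hlp : Real.log 2 ≤ Real.log p :=
    Real.log_le_log (by norm_num) (by exact_mod_cast hp.two_le)
  have hr0 : (0 : ℝ) ≤ r := Nat.cast_nonneg r
  have f1 : (r : ℝ) * Real.log 2 ≤ r * (Module.finrank ℚ K * Real.log p) := by
    apply mul_le_mul_of_nonneg_left _ hr0
    nlinarith
  have f2 : (Module.finrank ℚ K : ℝ) * Real.log 16 ≤ D * Real.log 16 :=
    mul_le_mul_of_nonneg_right hnD hlog16
  have f3 : (E.card : ℝ) * Real.log 16 ≤ s * Real.log 16 :=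
    mul_le_mul_of_nonneg_right hEs hlog16
  linarith

end Pool.Agent.GPoly.N
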