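import Pool.Agent.GPoly.LocalBound
import Pool.Agent.GPoly.PlacesB
import Pool.Agent.GPoly.ArchField
import Pool.Agent.GPoly.CaseA
import Pool.Agent.GPoly.CaseB

set_option autoImplicit false

/-!
# The global argument
-/

namespace Pool.Agent.GPoly

open NumberField IsDedekindDomain Polynomial

open Classical in
/-- The inequality of case A for a set `T` of preperiodic points which have the same colour at the
complex embeddings. -/
theorem main_ineq {K : Type} [Field K] [NumberField K] (F : (𝓞 K)[X]) (b : 𝓞 K) (hb : b ≠ 0)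
    (d : ℕ) (hd : 3 ≤ d) (hF : F.natDegree = d) (J : Ideal (𝓞 K))
    (hJ : J ∣ Ideal.span {F.leadingCoeff * b})
    (hdef : ∀ v : HeightOneSpectrum (𝓞 K), v.asIdeal ∣ J → ∀ T : Finset K,
      (∀ x ∈ T, Pre (fm F b) x) →
      En (av v) T ≤ (T.card : ℝ) ^ 2 * ((wt v F.leadingCoeff - wt v b) / (d - 1) -
        1 / ((d - 1) * (2 * d - 1)) * (wt v F.leadingCoeff + wt v b)) +
      (2 * sg d T.card + 2 * d * T.card) * (wt v F.leadingCoeff + wt v b))
    (c : K → ((K →+* ℂ) → Fin (d ^ 2)))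
    (hc : ∀ x y : K, Pre (fm F b) x →
      Pre (fm F b) y → x ≠ y → c x = c y →
      ∑ σ : K →+* ℂ, Real.log ‖σ (x - y)‖ ≤
        -(∑ σ : K →+* ℂ, Real.log ‖σ (fp F b).leadingCoeff‖) / (d - 1) +
          Module.finrank ℚ K * Real.log 16)
    (T : Finset K) (hT : ∀ x ∈ T, Pre (fm F b) x) (hTc : ∀ x ∈ T, ∀ y ∈ T, c x = c y) :
    0 ≤ (T.card : ℝ) ^ 2 * (Module.finrank ℚ K * Real.log 16 -
        1 / ((d - 1) * (2 * d - 1)) * Real.log (Ideal.absNorm J)) +
      (2 * sg d T.card + 2 * (d + 1) * T.card) *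
        Real.log (Ideal.absNorm (Ideal.span {F.leadingCoeff * b})) := by
  have ha0 : F.leadingCoeff ≠ 0 := by
    intro h0
    rw [leadingCoeff_eq_zero] at h0
    rw [h0, natDegree_zero] at hF; omega
  have hab : F.leadingCoeff * b ≠ 0 := mul_ne_zero ha0 hb
  have hd3 : (3 : ℝ) ≤ d := by exact_mod_cast hd
  have hA0 : (fp F b).leadingCoeff ≠ 0 := by
    rw [fp_leadingCoeff]
    exact div_ne_zero ((map_ne_zero_iff _ (RingOfIntegers.coe_injective)).mpr ha0)
      ((map_ne_zero_iff _ (RingOfIntegers.coe_injective)).mpr hb)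
  -- the finite set of places
  obtain ⟨P, hPab, hPT⟩ : ∃ P : Finset (HeightOneSpectrum (𝓞 K)),
      (∀ v : HeightOneSpectrum (𝓞 K), F.leadingCoeff * b ∈ v.asIdeal → v ∈ P) ∧
      (∀ p ∈ T.offDiag, ∀ v : HeightOneSpectrum (𝓞 K), av v (p.1 - p.2) ≠ 1 → v ∈ P) := by
    have h1 := av_support_finite (algebraMap (𝓞 K) K (F.leadingCoeff * b))
      ((map_ne_zero_iff _ (RingOfIntegers.coe_injective)).mpr hab)
    have h2 : (⋃ p ∈ T.offDiag, {v : HeightOneSpectrum (𝓞 K) | av v (p.1 - p.2) ≠ 1}).Finite := by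
      refine Set.Finite.biUnion T.offDiag.finite_toSet ?_
      intro p hp
      rw [Finset.mem_coe, Finset.mem_offDiag] at hp
      exact av_support_finite _ (sub_ne_zero.mpr hp.2.2)
    refine ⟨(h1.union h2).toFinset, ?_, ?_⟩
    · intro v hv
      rw [Set.Finite.mem_toFinset]
      left
      rw [Set.mem_setOf_eq, Ne, av_int_eq_one, not_not]
      exact hv
    · intro p hp v hv
      rw [Set.Finite.mem_toFinset]
      right
      simp only [Set.mem_iUnion]
      exact ⟨p, hp, hv⟩
  set g : HeightOneSpectrum (𝓞 K) → ℝ := fun v => (wt v F.leadingCoeff - wt v b) / (d - 1) with hg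
  set w : HeightOneSpectrum (𝓞 K) → ℝ := fun v => wt v F.leadingCoeff + wt v b with hw
  have hw0 : ∀ v, 0 ≤ w v := fun v => add_nonneg (wt_nonneg v _) (wt_nonneg v _)
  have hgw : ∀ v, g v ≤ w v := by
    intro v
    simp only [hg, hw]
    rw [div_le_iff₀ (by linarith)]
    have := wt_nonneg v F.leadingCoeff
    have := wt_nonneg v b
    nlinarith
  set m : ℝ := (T.card : ℝ) with hm
  set κ : ℝ := 1 / ((d - 1) * (2 * d - 1)) with hκ
  have hκ0 : 0 ≤ κ := by
    rw [hκ]
    refine div_nonneg zero_le_one (mul_nonneg ?_ ?_) <;> linarith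
  have hm0 : 0 ≤ m := by positivity
  set σm : ℝ := (sg d T.card : ℝ) with hσm
  have hσ0 : 0 ≤ σm := by positivity
  -- local bounds
  have hloc : ∀ v ∈ P, En (av v) T ≤ (m * (m - 1)) * g v + (2 * σm + 2 * (d + 1) * m) * w v -
      (if v.asIdeal ∣ J then m ^ 2 * κ * w v else 0) := by
    intro v _
    split_ifs with hv
    · have h := hdef v hv T hT
      have h1 : m * g v ≤ m * w v := mul_le_mul_of_nonneg_left (hgw v) hm0
      have h2 : 0 ≤ m * w v := mul_nonneg hm0 (hw0 v)
      calc En (av v) T ≤ m ^ 2 * (g v - κ * w v) + (2 * σm + 2 * d * m) * w v := h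
        _ ≤ _ := by nlinarith
    · have h := generic_K F b hb d (by omega) hF v T hT
      have h2 : 0 ≤ m * w v := mul_nonneg hm0 (hw0 v)
      have h3 : (0 : ℝ) ≤ 2 * (d + 1) := by positivity
      calc En (av v) T ≤ (m * (m - 1)) * g v + 2 * σm * w v := h
        _ ≤ _ := by nlinarith [mul_nonneg h3 h2]
  -- total weight
  have hW : ∑ v ∈ P, w v = Real.log (Ideal.absNorm (Ideal.span {F.leadingCoeff * b})) := by
    rw [← sum_log_av_int _ hab P hPab]
    refine Finset.sum_congr rfl fun v _ => ?_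
    simp only [hw]
    rw [← wt_mul v _ _ ha0 hb, wt]
  have hWdef : Real.log (Ideal.absNorm J) ≤ ∑ v ∈ P, (if v.asIdeal ∣ J then w v else 0) := by
    refine (log_absNorm_le _ hab J hJ P hPab).trans ?_
    rw [Finset.sum_filter]
    refine Finset.sum_le_sum fun v _ => ?_
    split_ifs
    · simp only [hw]
      rw [← wt_mul v _ _ ha0 hb, wt]
    · exact le_rfl
  -- product formula for the leading coefficient
  have hA : ∑ v ∈ P, g v = (∑ σ : K →+* ℂ, Real.log ‖σ (fp F b).leadingCoeff‖) / (d - 1) := by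
    have h1 := product_formula (fp F b).leadingCoeff hA0 P (by
      intro v hv
      apply hPab v
      by_contra hcon
      apply hv
      have h2 : F.leadingCoeff ∉ v.asIdeal := fun h => hcon (Ideal.mul_mem_right _ _ h)
      have h3 : b ∉ v.asIdeal := fun h => hcon (Ideal.mul_mem_left _ _ h)
      rw [fp_leadingCoeff, map_div₀, (av_int_eq_one v _).mpr h2, (av_int_eq_one v _).mpr h3,
        div_one])
    have h2 : ∑ v ∈ P, Real.log (av v (fp F b).leadingCoeff) =
        -∑ v ∈ P, (wt v F.leadingCoeff - wt v b) := by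
      rw [← Finset.sum_neg_distrib]
      refine Finset.sum_congr rfl fun v _ => ?_
      rw [fp_leadingCoeff, map_div₀, Real.log_div (av_int_pos v _ ha0).ne'
        (av_int_pos v _ hb).ne', wt, wt]
      ring
    rw [h2] at h1
    simp only [hg]
    rw [← Finset.sum_div]
    congr 1
    linarith
  -- sum of the product formulas of the pairs
  have hsum : ∑ v ∈ P, En (av v) T + ∑ p ∈ T.offDiag, ∑ σ : K →+* ℂ,
      Real.log ‖σ (p.1 - p.2)‖ = 0 := by
    have h1 : ∑ p ∈ T.offDiag, (∑ v ∈ P, Real.log (av v (p.1 - p.2)) +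
        ∑ σ : K →+* ℂ, Real.log ‖σ (p.1 - p.2)‖) = 0 := by
      refine Finset.sum_eq_zero fun p hp => ?_
      exact product_formula _ (sub_ne_zero.mpr (Finset.mem_offDiag.mp hp).2.2) P
        (hPT p hp)
    rw [Finset.sum_add_distrib, Finset.sum_comm] at h1
    exact h1
  have harch : ∑ p ∈ T.offDiag, ∑ σ : K →+* ℂ, Real.log ‖σ (p.1 - p.2)‖ ≤
      (m * (m - 1)) * (-(∑ v ∈ P, g v) + Module.finrank ℚ K * Real.log 16) := by
    have h1 : ∀ p ∈ T.offDiag, ∑ σ : K →+* ℂ, Real.log ‖σ (p.1 - p.2)‖ ≤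
        -(∑ v ∈ P, g v) + Module.finrank ℚ K * Real.log 16 := by
      intro p hp
      obtain ⟨hp1, hp2, hp3⟩ := Finset.mem_offDiag.mp hp
      have := hc p.1 p.2 (hT _ hp1) (hT _ hp2) hp3 (hTc _ hp1 _ hp2)
      rw [hA, ← neg_div]
      exact this
    refine (Finset.sum_le_card_nsmul _ _ _ h1).trans ?_
    rw [nsmul_eq_mul, Finset.offDiag_card]
    have h2 : ((T.card * T.card - T.card : ℕ) : ℝ) = m * (m - 1) := by
      rw [Nat.cast_sub (Nat.le_mul_self _), Nat.cast_mul, hm]
      ring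
    rw [h2]
  have hloc2 := Finset.sum_le_sum hloc
  rw [Finset.sum_sub_distrib, Finset.sum_add_distrib, ← Finset.mul_sum, ← Finset.mul_sum] at hloc2
  have hdefsum : ∑ v ∈ P, (if v.asIdeal ∣ J then m ^ 2 * κ * w v else 0) =
      m ^ 2 * κ * ∑ v ∈ P, (if v.asIdeal ∣ J then w v else 0) := by
    rw [Finset.mul_sum]
    refine Finset.sum_congr rfl fun v _ => ?_
    split_ifs <;> ring
  rw [hdefsum, hW] at hloc2
  have hfin0 : (0 : ℝ) ≤ Module.finrank ℚ K * Real.log 16 :=
    mul_nonneg (Nat.cast_nonneg _) (Real.log_nonneg (by norm_num))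
  have h5 : m ^ 2 * κ * Real.log (Ideal.absNorm J) ≤
      m ^ 2 * κ * ∑ v ∈ P, (if v.asIdeal ∣ J then w v else 0) :=
    mul_le_mul_of_nonneg_left hWdef (mul_nonneg (sq_nonneg _) hκ0)
  nlinarith [mul_nonneg hm0 hfin0]

/-- The theorem, with the local bounds at the primes which divide `J` as a hypothesis. -/
theorem bound_of_defect (D d k : ℕ) (hd : 3 ≤ d) : ∃ C : ℕ,
    ∀ (K : Type) [Field K] [NumberField K], Module.finrank ℚ K ≤ D →
    ∀ (F : (𝓞 K)[X]) (b : 𝓞 K), F.natDegree = d → b ≠ 0 →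
    ∀ J : Ideal (𝓞 K), J ∣ Ideal.span {F.leadingCoeff * b} →
    (∀ v : HeightOneSpectrum (𝓞 K), v.asIdeal ∣ J → ∀ [DecidableEq K], ∀ T : Finset K,
      (∀ x ∈ T, Pre (fm F b) x) →
      En (av v) T ≤ (T.card : ℝ) ^ 2 * ((wt v F.leadingCoeff - wt v b) / (d - 1) -
        1 / ((d - 1) * (2 * d - 1)) * (wt v F.leadingCoeff + wt v b)) +
      (2 * sg d T.card + 2 * d * T.card) * (wt v F.leadingCoeff + wt v b)) →
    Ideal.absNorm (Ideal.span {F.leadingCoeff * b}) ≤ Ideal.absNorm J ^ k →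
    ∀ S : Finset K, (∀ x ∈ S, Pre (fm F b) x) → S.card ≤ C := by
  classical
  have hL : (0 : ℝ) ≤ D * Real.log 16 :=
    mul_nonneg (Nat.cast_nonneg _) (Real.log_nonneg (by norm_num))
  obtain ⟨M, hM⟩ := caseA d k hd (D * Real.log 16) hL
  set W0 : ℝ := 2 * (D * Real.log 16) * (k * ((d - 1) * (2 * d - 1))) with hW0
  obtain ⟨C, hC⟩ := caseB D d (by omega) (Real.exp (max W0 0))
  refine ⟨max C ((d ^ 2) ^ D * M), ?_⟩
  intro K _ _ hK F b hF hb J hJ hdef hnorm S hS
  have ha0 : F.leadingCoeff ≠ 0 := by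
    intro h0
    rw [leadingCoeff_eq_zero] at h0
    rw [h0, natDegree_zero] at hF; omega
  have hab : F.leadingCoeff * b ≠ 0 := mul_ne_zero ha0 hb
  have hN : 0 < Ideal.absNorm (Ideal.span {F.leadingCoeff * b}) := by
    rw [Nat.pos_iff_ne_zero, Ne, Ideal.absNorm_eq_zero_iff, Ideal.span_singleton_eq_bot]
    exact hab
  have hNr : (0 : ℝ) < Ideal.absNorm (Ideal.span {F.leadingCoeff * b}) := by exact_mod_cast hN
  by_cases hcase : (Ideal.absNorm (Ideal.span {F.leadingCoeff * b}) : ℝ) ≤ Real.exp (max W0 0)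
  · exact (hC K hK F b hF hb hcase S hS).trans (le_max_left _ _)
  · refine le_trans ?_ (le_max_right _ _)
    rw [not_le] at hcase
    have hlog : max W0 0 < Real.log (Ideal.absNorm (Ideal.span {F.leadingCoeff * b})) :=
      (Real.lt_log_iff_exp_lt hNr).mpr hcase
    obtain ⟨c, hc⟩ := arch_colour_field d (by omega) (fp F b) (by rw [fp_natDegree F b hb, hF])
    have hfun : (fun z => (fp F b).eval z) = fm F b := by
      funext z; exact fp_eval F b z
    rw [hfun] at hc
    -- every colour class has at most `M` elements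
    have hclass : ∀ col : (K →+* ℂ) → Fin (d ^ 2), (S.filter fun x => c x = col).card ≤ M := by
      intro col
      set T := S.filter fun x => c x = col with hTdef
      have hT : ∀ x ∈ T, Pre (fm F b) x := fun x hx => hS x (Finset.mem_filter.mp hx).1
      have hTc : ∀ x ∈ T, ∀ y ∈ T, c x = c y := fun x hx y hy =>
        (Finset.mem_filter.mp hx).2.trans (Finset.mem_filter.mp hy).2.symm
      have h := main_ineq F b hb d hd hF J hJ (fun v hv T hT => hdef v hv T hT) c hc T hT hTc
      refine hM T.card (Real.log (Ideal.absNorm (Ideal.span {F.leadingCoeff * b})))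
        (Real.log (Ideal.absNorm J)) (lt_of_le_of_lt (le_max_right _ _) hlog) ?_
        (le_of_lt (lt_of_le_of_lt (le_max_left _ _) hlog)) ?_
      · have h1 : (Ideal.absNorm (Ideal.span {F.leadingCoeff * b}) : ℝ) ≤
            (Ideal.absNorm J : ℝ) ^ k := by exact_mod_cast hnorm
        calc Real.log (Ideal.absNorm (Ideal.span {F.leadingCoeff * b})) ≤
            Real.log ((Ideal.absNorm J : ℝ) ^ k) := Real.log_le_log hNr h1
          _ = k * Real.log (Ideal.absNorm J) := Real.log_pow _ _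
      · refine h.trans ?_
        have h2 : (Module.finrank ℚ K : ℝ) * Real.log 16 ≤ D * Real.log 16 :=
          mul_le_mul_of_nonneg_right (by exact_mod_cast hK) (Real.log_nonneg (by norm_num))
        have h3 : (0 : ℝ) ≤ (T.card : ℝ) ^ 2 := sq_nonneg _
        nlinarith
    have h1 : S.card ≤ M * (Finset.univ : Finset ((K →+* ℂ) → Fin (d ^ 2))).card :=
      Finset.card_le_mul_card_image_of_maps_to (f := c) (fun x _ => Finset.mem_univ _) M
        (fun col _ => hclass col)
    have h2 : (Finset.univ : Finset ((K →+* ℂ) → Fin (d ^ 2))).card =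
        (d ^ 2) ^ Module.finrank ℚ K := by
      rw [Finset.card_univ, Fintype.card_fun, Fintype.card_fin, NumberField.Embeddings.card]
    rw [h2] at h1
    refine h1.trans ?_
    rw [mul_comm]
    exact Nat.mul_le_mul_right _ (Nat.pow_le_pow_right (by positivity) hK)

end Pool.Agent.GPoly
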