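import Pool.Agent.GPoly.Global
import Pool.Agent.GPoly.PlaceColour

set_option autoImplicit false

/-!
# The global inequality with exceptional primes
-/

namespace Pool.Agent.GPoly.N

open NumberField IsDedekindDomain Polynomial Pool.Agent.GPoly

open Classical in
/-- The inequality of case A for a set `T` of preperiodic points which have the same colour at the
complex embeddings and at the exceptional primes, the members of `E`. -/
theorem main_ineq {K : Type} [Field K] [NumberField K] (F : (𝓞 K)[X]) (b : 𝓞 K) (hb : b ≠ 0)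
    (d : ℕ) (hd : 3 ≤ d) (hF : F.natDegree = d) (J : Ideal (𝓞 K))
    (E : Finset (HeightOneSpectrum (𝓞 K))) (hEJ : ∀ v ∈ E, ¬ v.asIdeal ∣ J)
    (P₀ : Finset (HeightOneSpectrum (𝓞 K)))
    (hP₀ : ∀ v : HeightOneSpectrum (𝓞 K), F.leadingCoeff * b ∈ v.asIdeal → v ∈ P₀)
    (hdef : ∀ v : HeightOneSpectrum (𝓞 K), v.asIdeal ∣ J → ∀ T : Finset K,
      (∀ x ∈ T, Pre (fm F b) x) →
      En (av v) T ≤ (T.card : ℝ) ^ 2 * ((wt v F.leadingCoeff - wt v b) / (d - 1) -
        1 / ((d - 1) * (2 * d - 1)) * (wt v F.leadingCoeff + wt v b)) +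
      (2 * sg d T.card + 2 * d * T.card) * (wt v F.leadingCoeff + wt v b))
    (c : K → ((K →+* ℂ) → Fin (d ^ 2)))
    (hc : ∀ x y : K, Pre (fm F b) x →
      Pre (fm F b) y → x ≠ y → c x = c y →
      ∑ σ : K →+* ℂ, Real.log ‖σ (x - y)‖ ≤
        -(∑ σ : K →+* ℂ, Real.log ‖σ (fp F b).leadingCoeff‖) / (d - 1) +
          Module.finrank ℚ K * Real.log 16)
    (c' : K → (E → Fin (d ^ 2)))
    (hc' : ∀ x y : K, Pre (fm F b) x →
      Pre (fm F b) y → x ≠ y → c' x = c' y → ∀ v ∈ E,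
      Real.log (av v (x - y)) ≤ -(Real.log (av v (fp F b).leadingCoeff)) / (d - 1) + Real.log 16)
    (T : Finset K) (hT : ∀ x ∈ T, Pre (fm F b) x) (hTc : ∀ x ∈ T, ∀ y ∈ T, c x = c y)
    (hTc' : ∀ x ∈ T, ∀ y ∈ T, c' x = c' y) :
    0 ≤ (T.card : ℝ) ^ 2 * ((Module.finrank ℚ K + E.card) * Real.log 16 -
        1 / ((d - 1) * (2 * d - 1)) *
          ∑ v ∈ P₀ with v.asIdeal ∣ J, wt v (F.leadingCoeff * b)) +
      (2 * sg d T.card + 2 * (d + 1) * T.card) *
        ∑ v ∈ P₀ \ E, wt v (F.leadingCoeff * b) := by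
  have ha0 : F.leadingCoeff ≠ 0 := by
    intro h0
    rw [leadingCoeff_eq_zero] at h0
    rw [h0, natDegree_zero] at hF; omega
  have hab : F.leadingCoeff * b ≠ 0 := mul_ne_zero ha0 hb
  have hd3 : (3 : ℝ) ≤ d := by exact_mod_cast hd
  have hA0 : (fp F b).leadingCoeff ≠ 0 := by
    rw [fp_leadingCoeff]
    exact div_ne_zero ((map_ne_zero_iff _ (RingOfIntegers.coe_injective)).mpr ha0)
      ((map_ne_zero_iff _ (RingOfIntegers.coe_injective)).mpr hb)
  -- the finite set of places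
  obtain ⟨P, hPE, hPP, hPT⟩ : ∃ P : Finset (HeightOneSpectrum (𝓞 K)), E ⊆ P ∧ P₀ ⊆ P ∧
      (∀ p ∈ T.offDiag, ∀ v : HeightOneSpectrum (𝓞 K), av v (p.1 - p.2) ≠ 1 → v ∈ P) := by
    have h2 : (⋃ p ∈ T.offDiag, {v : HeightOneSpectrum (𝓞 K) | av v (p.1 - p.2) ≠ 1}).Finite := by
      refine Set.Finite.biUnion T.offDiag.finite_toSet ?_
      intro p hp
      rw [Finset.mem_coe, Finset.mem_offDiag] at hp
      exact av_support_finite _ (sub_ne_zero.mpr hp.2.2)
    refine ⟨E ∪ P₀ ∪ h2.toFinset, ?_, ?_, ?_⟩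
    · intro v hv
      simp [hv]
    · intro v hv
      simp [hv]
    · intro p hp v hv
      rw [Finset.mem_union, Set.Finite.mem_toFinset]
      right
      simp only [Set.mem_iUnion]
      exact ⟨p, hp, hv⟩
  have hPab : ∀ v : HeightOneSpectrum (𝓞 K), F.leadingCoeff * b ∈ v.asIdeal → v ∈ P :=
    fun v hv => hPP (hP₀ v hv)
  set g : HeightOneSpectrum (𝓞 K) → ℝ := fun v => (wt v F.leadingCoeff - wt v b) / (d - 1) with hg
  set w : HeightOneSpectrum (𝓞 K) → ℝ := fun v => wt v (F.leadingCoeff * b) with hw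
  have hwe : ∀ v, w v = wt v F.leadingCoeff + wt v b := fun v => wt_mul v _ _ ha0 hb
  have hw0 : ∀ v, 0 ≤ w v := fun v => wt_nonneg v _
  have hgw : ∀ v, g v ≤ w v := by
    intro v
    rw [hwe]
    simp only [hg]
    rw [div_le_iff₀ (by linarith)]
    have := wt_nonneg v F.leadingCoeff
    have := wt_nonneg v b
    nlinarith
  have hwz : ∀ v, v ∉ P₀ → w v = 0 := fun v hv => wt_eq_zero v _ fun h => hv (hP₀ v h)
  set m : ℝ := (T.card : ℝ) with hm
  set κ : ℝ := 1 / ((d - 1) * (2 * d - 1)) with hκ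
  have hκ0 : 0 ≤ κ := by
    rw [hκ]
    refine div_nonneg zero_le_one (mul_nonneg ?_ ?_) <;> linarith
  have hm0 : 0 ≤ m := by positivity
  set σm : ℝ := (sg d T.card : ℝ) with hσm
  have hσ0 : 0 ≤ σm := by positivity
  have hmm : ((T.card * T.card - T.card : ℕ) : ℝ) = m * (m - 1) := by
    rw [Nat.cast_sub (Nat.le_mul_self _), Nat.cast_mul, hm]
    ring
  have hmm0 : 0 ≤ m * (m - 1) := by
    rw [← hmm]; positivity
  -- local bounds
  have hloc : ∀ v ∈ P \ E, En (av v) T ≤ (m * (m - 1)) * g v +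
      (2 * σm + 2 * (d + 1) * m) * w v - (if v.asIdeal ∣ J then m ^ 2 * κ * w v else 0) := by
    intro v _
    have h2 : 0 ≤ m * w v := mul_nonneg hm0 (hw0 v)
    split_ifs with hv
    · have h := hdef v hv T hT
      rw [← hwe] at h
      have h1 : m * g v ≤ m * w v := mul_le_mul_of_nonneg_left (hgw v) hm0
      calc En (av v) T ≤ m ^ 2 * (g v - κ * w v) + (2 * σm + 2 * d * m) * w v := h
        _ ≤ _ := by nlinarith
    · have h := generic_K F b hb d (by omega) hF v T hT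
      rw [← hwe] at h
      have h3 : (0 : ℝ) ≤ 2 * (d + 1) := by positivity
      calc En (av v) T ≤ (m * (m - 1)) * g v + 2 * σm * w v := h
        _ ≤ _ := by nlinarith [mul_nonneg h3 h2]
  have hlead : ∀ v : HeightOneSpectrum (𝓞 K), Real.log (av v (fp F b).leadingCoeff) =
      -(wt v F.leadingCoeff - wt v b) := by
    intro v
    rw [fp_leadingCoeff, map_div₀, Real.log_div (av_int_pos v _ ha0).ne'
      (av_int_pos v _ hb).ne', wt, wt]
    ring
  have hexc : ∀ v ∈ E, En (av v) T ≤ (m * (m - 1)) * g v + (m * (m - 1)) * Real.log 16 := by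
    intro v hv
    have h1 : ∀ p ∈ T.offDiag, Real.log (av v (p.1 - p.2)) ≤ g v + Real.log 16 := by
      intro p hp
      obtain ⟨hp1, hp2, hp3⟩ := Finset.mem_offDiag.mp hp
      have h := hc' p.1 p.2 (hT _ hp1) (hT _ hp2) hp3 (hTc' _ hp1 _ hp2) v hv
      rw [hlead, neg_neg] at h
      exact h
    have h2 := Finset.sum_le_card_nsmul _ _ _ h1
    rw [nsmul_eq_mul, Finset.offDiag_card, hmm, mul_add] at h2
    exact h2
  -- product formula for the leading coefficient
  have hA : ∑ v ∈ P, g v = (∑ σ : K →+* ℂ, Real.log ‖σ (fp F b).leadingCoeff‖) / (d - 1) := by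
    have h1 := product_formula (fp F b).leadingCoeff hA0 P (by
      intro v hv
      apply hPab v
      by_contra hcon
      apply hv
      have h2 : F.leadingCoeff ∉ v.asIdeal := fun h => hcon (Ideal.mul_mem_right _ _ h)
      have h3 : b ∉ v.asIdeal := fun h => hcon (Ideal.mul_mem_left _ _ h)
      rw [fp_leadingCoeff, map_div₀, (av_int_eq_one v _).mpr h2, (av_int_eq_one v _).mpr h3,
        div_one])
    have h2 : ∑ v ∈ P, Real.log (av v (fp F b).leadingCoeff) =
        -∑ v ∈ P, (wt v F.leadingCoeff - wt v b) := by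
      rw [← Finset.sum_neg_distrib]
      exact Finset.sum_congr rfl fun v _ => hlead v
    rw [h2] at h1
    simp only [hg]
    rw [← Finset.sum_div]
    congr 1
    linarith
  -- sum of the product formulas of the pairs
  have hsum : ∑ v ∈ P, En (av v) T + ∑ p ∈ T.offDiag, ∑ σ : K →+* ℂ,
      Real.log ‖σ (p.1 - p.2)‖ = 0 := by
    have h1 : ∑ p ∈ T.offDiag, (∑ v ∈ P, Real.log (av v (p.1 - p.2)) +
        ∑ σ : K →+* ℂ, Real.log ‖σ (p.1 - p.2)‖) = 0 := by
      refine Finset.sum_eq_zero fun p hp => ?_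
      exact product_formula _ (sub_ne_zero.mpr (Finset.mem_offDiag.mp hp).2.2) P
        (hPT p hp)
    rw [Finset.sum_add_distrib, Finset.sum_comm] at h1
    exact h1
  have harch : ∑ p ∈ T.offDiag, ∑ σ : K →+* ℂ, Real.log ‖σ (p.1 - p.2)‖ ≤
      (m * (m - 1)) * (-(∑ v ∈ P, g v) + Module.finrank ℚ K * Real.log 16) := by
    have h1 : ∀ p ∈ T.offDiag, ∑ σ : K →+* ℂ, Real.log ‖σ (p.1 - p.2)‖ ≤
        -(∑ v ∈ P, g v) + Module.finrank ℚ K * Real.log 16 := by
      intro p hp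
      obtain ⟨hp1, hp2, hp3⟩ := Finset.mem_offDiag.mp hp
      have := hc p.1 p.2 (hT _ hp1) (hT _ hp2) hp3 (hTc _ hp1 _ hp2)
      rw [hA, ← neg_div]
      exact this
    refine (Finset.sum_le_card_nsmul _ _ _ h1).trans ?_
    rw [nsmul_eq_mul, Finset.offDiag_card, hmm]
  have hloc2 := Finset.sum_le_sum hloc
  rw [Finset.sum_sub_distrib, Finset.sum_add_distrib, ← Finset.mul_sum, ← Finset.mul_sum] at hloc2
  have hexc2 := Finset.sum_le_sum hexc
  rw [Finset.sum_add_distrib, ← Finset.mul_sum, Finset.sum_const, nsmul_eq_mul] at hexc2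
  have hdefsum : ∑ v ∈ P \ E, (if v.asIdeal ∣ J then m ^ 2 * κ * w v else 0) =
      m ^ 2 * κ * ∑ v ∈ P₀ with v.asIdeal ∣ J, w v := by
    rw [← Finset.sum_filter, Finset.mul_sum]
    refine (Finset.sum_subset ?_ ?_).symm
    · intro v hv
      rw [Finset.mem_filter] at hv
      rw [Finset.mem_filter, Finset.mem_sdiff]
      exact ⟨⟨hPP hv.1, fun h => hEJ v h hv.2⟩, hv.2⟩
    · intro v hv hv'
      rw [Finset.mem_filter] at hv hv'
      rw [hwz v (fun h => hv' ⟨h, hv.2⟩), mul_zero]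
  have hWsum : ∑ v ∈ P \ E, w v = ∑ v ∈ P₀ \ E, w v := by
    refine (Finset.sum_subset (Finset.sdiff_subset_sdiff hPP subset_rfl) ?_).symm
    intro v hv hv'
    rw [Finset.mem_sdiff] at hv hv'
    exact hwz v fun h => hv' ⟨h, hv.2⟩
  have hPsplit : ∀ u : HeightOneSpectrum (𝓞 K) → ℝ,
      ∑ v ∈ P \ E, u v + ∑ v ∈ E, u v = ∑ v ∈ P, u v := fun u => Finset.sum_sdiff hPE
  rw [hdefsum, hWsum] at hloc2
  have hs1 := hPsplit (fun v => En (av v) T)
  have hs2 := hPsplit g
  have hlog : (0 : ℝ) ≤ Real.log 16 := Real.log_nonneg (by norm_num)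
  have hfin0 : (0 : ℝ) ≤ (Module.finrank ℚ K + E.card) * Real.log 16 :=
    mul_nonneg (by positivity) hlog
  have key : 0 ≤ (m * (m - 1)) * ((Module.finrank ℚ K + E.card) * Real.log 16) +
      (2 * σm + 2 * (d + 1) * m) * ∑ v ∈ P₀ \ E, w v -
      m ^ 2 * κ * ∑ v ∈ P₀ with v.asIdeal ∣ J, w v := by
    have e1 : (m * (m - 1)) * ∑ v ∈ P, g v = (m * (m - 1)) * ∑ v ∈ P \ E, g v +
        (m * (m - 1)) * ∑ v ∈ E, g v := by rw [← hs2]; ring
    have e2 : (m * (m - 1)) * (-(∑ v ∈ P, g v) + Module.finrank ℚ K * Real.log 16) =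
        -((m * (m - 1)) * ∑ v ∈ P, g v) + (m * (m - 1)) * (Module.finrank ℚ K * Real.log 16) := by
      ring
    rw [e2, e1] at harch
    have e3 : (m * (m - 1)) * ((Module.finrank ℚ K + E.card) * Real.log 16) =
        (m * (m - 1)) * (Module.finrank ℚ K * Real.log 16) +
        E.card * (m * (m - 1) * Real.log 16) := by ring
    rw [e3]
    linarith
  have hlast : (m * (m - 1)) * ((Module.finrank ℚ K + E.card) * Real.log 16) ≤
      m ^ 2 * ((Module.finrank ℚ K + E.card) * Real.log 16) := by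
    apply mul_le_mul_of_nonneg_right _ hfin0
    nlinarith
  have e4 : m ^ 2 * ((Module.finrank ℚ K + E.card) * Real.log 16 -
      κ * ∑ v ∈ P₀ with v.asIdeal ∣ J, w v) =
      m ^ 2 * ((Module.finrank ℚ K + E.card) * Real.log 16) -
      m ^ 2 * κ * ∑ v ∈ P₀ with v.asIdeal ∣ J, w v := by ring
  rw [e4]
  linarith

end Pool.Agent.GPoly.N
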